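import Pool.Agent.H1.FV.Defs

/-!
A polynomial is small near a zero of high multiplicity on the unit circle.

Proof. `b_j = a_j e^(i j θ)`, `f(s) = ∑ b_j e^(i j s) = P(e^(i(θ+s)))`. `(X - e^(iθ))^m ∣ P` gives
`∑_j b_j j^l = 0` for `l < m` (iterate `z d/dz`, or: all derivatives of order `< m` of `P` vanish at `e^(iθ)` and
`j^l` is a combination of falling factorials; or induct on `m`: `X * P'` is divisible by `(X - z)^(m-1)`).
So `f(s) = ∑ b_j (e^(ijs) - ∑_(l<m) (ijs)^l / l!)` and
`‖e^(ix) - ∑_(l<m) (ix)^l/l!‖ ≤ exp |x| - ∑_(l<m) |x|^l/l! ≤ |x|^m exp |x| / m!`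
(`Complex.norm_exp_sub_sum_le_exp_norm_sub_sum` and a tail bound for the exponential series). Finally
`∑ |b_j| ≤ sqrt (n+1) sqrt (∑ |a_j|²)` (Cauchy-Schwarz, the support has at most `n + 1` elements).
-/

namespace Pool.Agent.H1.FV

open Polynomial Finset
open Pool.Agent.H35.V1 (Nm Gm PPr mem_PPr div_spec)

noncomputable section

private theorem Arc_hasSum (x : ℝ) : HasSum (fun l : ℕ => x ^ l / l.factorial) (Real.exp x) := by
  have h1 : Summable (fun l : ℕ => x ^ l / l.factorial) := Real.summable_pow_div_factorial x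
  have h2 : Real.exp x = ∑' l : ℕ, x ^ l / l.factorial := by
    rw [Real.exp_eq_exp_ℝ, NormedSpace.exp_eq_tsum_div]
  rw [h2]
  exact h1.hasSum

theorem exp_tail {x : ℝ} (hx : 0 ≤ x) (m : ℕ) :
    Real.exp x - ∑ l ∈ range m, x ^ l / l.factorial ≤ x ^ m * Real.exp x / m.factorial := by
  have h1 := Arc_hasSum x
  have h2 := (hasSum_nat_add_iff' m).mpr h1
  have h3 := h1.mul_left (x ^ m / m.factorial)
  have h4 : Real.exp x - ∑ l ∈ range m, x ^ l / l.factorial ≤ x ^ m / m.factorial * Real.exp x := by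
    refine hasSum_le (fun l => ?_) h2 h3
    have h5 : ((m.factorial * l.factorial : ℕ) : ℝ) ≤ ((l + m).factorial : ℕ) := by
      have h6 := Nat.factorial_mul_factorial_dvd_factorial_add m l
      rw [add_comm m l] at h6
      exact_mod_cast Nat.le_of_dvd (Nat.factorial_pos _) h6
    push_cast at h5
    have h7 : (0 : ℝ) < m.factorial := by exact_mod_cast Nat.factorial_pos m
    have h8 : (0 : ℝ) < l.factorial := by exact_mod_cast Nat.factorial_pos l
    have h9 : x ^ m / (m.factorial : ℝ) * (x ^ l / l.factorial) =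
        x ^ (l + m) / (m.factorial * l.factorial) := by
      rw [div_mul_div_comm, pow_add]
      ring
    rw [h9]
    exact div_le_div_of_nonneg_left (by positivity) (by positivity) h5
  calc _ ≤ x ^ m / m.factorial * Real.exp x := h4
    _ = _ := by ring

/-- the moments vanish -/
private theorem Arc_mom (z : ℂ) (n : ℕ) : ∀ (l m : ℕ) (P : ℂ[X]), l < m → P.natDegree ≤ n →
    (X - C z) ^ m ∣ P → ∑ j ∈ range (n + 1), P.coeff j * z ^ j * (j : ℂ) ^ l = 0 := by
  intro l
  induction l with
  | zero =>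
    intro m P hm hdeg hdvd
    have h1 : P.eval z = 0 := by
      have h2 : (X - C z) ∣ P := (dvd_pow_self _ (by omega)).trans hdvd
      exact dvd_iff_isRoot.mp h2
    rw [eval_eq_sum_range' (Nat.lt_succ_of_le hdeg)] at h1
    simpa using h1
  | succ l ih =>
    intro m P hm hdeg hdvd
    have h1 : (X - C z) ^ (m - 1) ∣ X * derivative P :=
      (pow_sub_one_dvd_derivative_of_pow_dvd hdvd).mul_left X
    have hco : ∀ j : ℕ, (X * derivative P).coeff j = (j : ℂ) * P.coeff j := by
      intro j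
      cases j with
      | zero => simp
      | succ j =>
        rw [coeff_X_mul, coeff_derivative]
        push_cast
        ring
    have h2 : (X * derivative P).natDegree ≤ n := by
      rw [natDegree_le_iff_coeff_eq_zero]
      intro N hN
      rw [hco, coeff_eq_zero_of_natDegree_lt (by omega), mul_zero]
    have h3 := ih (m - 1) (X * derivative P) (by omega) h2 h1
    rw [← h3]
    refine Finset.sum_congr rfl fun j _ => ?_
    rw [hco]
    ring

theorem arc_bound {n m : ℕ} (P : ℂ[X]) (hdeg : P.natDegree ≤ n) (θ s : ℝ)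
    (hdvd : (X - C (Complex.exp (θ * Complex.I))) ^ m ∣ P) :
    ‖P.eval (Complex.exp (((θ + s : ℝ) : ℂ) * Complex.I))‖
      ≤ Real.sqrt (n + 1) * Real.sqrt (∑ i ∈ P.support, ‖P.coeff i‖ ^ 2)
        * ((n * |s|) ^ m * Real.exp (n * |s|) / m.factorial) := by
  obtain ⟨z, hz⟩ : ∃ z, z = Complex.exp (θ * Complex.I) := ⟨_, rfl⟩
  rw [← hz] at hdvd
  have hz1 : ‖z‖ = 1 := by rw [hz, Complex.norm_exp_ofReal_mul_I]
  have hmom := fun l (hl : l < m) => Arc_mom z n l m P hl hdeg hdvd
  -- the value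
  have h1 : P.eval (Complex.exp (((θ + s : ℝ) : ℂ) * Complex.I)) =
      ∑ j ∈ range (n + 1), P.coeff j * z ^ j *
        (Complex.exp ((j : ℂ) * (s * Complex.I)) -
          ∑ l ∈ range m, ((j : ℂ) * (s * Complex.I)) ^ l / l.factorial) := by
    have h2 : Complex.exp (((θ + s : ℝ) : ℂ) * Complex.I) = z * Complex.exp (s * Complex.I) := by
      rw [hz, ← Complex.exp_add]
      congr 1
      push_cast
      ring
    rw [h2, eval_eq_sum_range' (Nat.lt_succ_of_le hdeg)]
    simp only [mul_sub, Finset.sum_sub_distrib]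
    have h3 : ∑ j ∈ range (n + 1), P.coeff j * z ^ j *
        ∑ l ∈ range m, ((j : ℂ) * (s * Complex.I)) ^ l / l.factorial = 0 := by
      simp only [Finset.mul_sum]
      rw [Finset.sum_comm]
      refine Finset.sum_eq_zero fun l hl => ?_
      have h4 := hmom l (Finset.mem_range.mp hl)
      have h5 : ∑ j ∈ range (n + 1), P.coeff j * z ^ j *
          (((j : ℂ) * (s * Complex.I)) ^ l / l.factorial) =
          ((s * Complex.I) ^ l / l.factorial) *
            ∑ j ∈ range (n + 1), P.coeff j * z ^ j * (j : ℂ) ^ l := by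
        rw [Finset.mul_sum]
        refine Finset.sum_congr rfl fun j _ => ?_
        rw [mul_pow]
        ring
      rw [h5, h4, mul_zero]
    rw [h3, sub_zero]
    refine Finset.sum_congr rfl fun j _ => ?_
    rw [mul_pow, ← Complex.exp_nat_mul]
    ring
  obtain ⟨T, hT⟩ : ∃ T : ℝ, T = (n * |s|) ^ m * Real.exp (n * |s|) / m.factorial := ⟨_, rfl⟩
  have hT0 : 0 ≤ T := by rw [hT]; positivity
  rw [h1, ← hT]
  have h6 : ∀ j ∈ range (n + 1), ‖P.coeff j * z ^ j *
        (Complex.exp ((j : ℂ) * (s * Complex.I)) -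
          ∑ l ∈ range m, ((j : ℂ) * (s * Complex.I)) ^ l / l.factorial)‖ ≤ ‖P.coeff j‖ * T := by
    intro j hj
    have hjn : (j : ℝ) ≤ n := by
      exact_mod_cast Nat.lt_succ_iff.mp (Finset.mem_range.mp hj)
    have hj0 : (0 : ℝ) ≤ j := Nat.cast_nonneg j
    rw [norm_mul, norm_mul, norm_pow, hz1, one_pow, mul_one]
    apply mul_le_mul_of_nonneg_left _ (norm_nonneg _)
    have h7 : ‖(j : ℂ) * (s * Complex.I)‖ = j * |s| := by
      rw [norm_mul, norm_mul, Complex.norm_I, mul_one, Complex.norm_real, Complex.norm_natCast,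
        Real.norm_eq_abs]
    have h8 := Complex.norm_exp_sub_sum_le_exp_norm_sub_sum ((j : ℂ) * (s * Complex.I)) m
    rw [h7] at h8
    have hjs : (0 : ℝ) ≤ j * |s| := by positivity
    have h9 := exp_tail hjs m
    have h10 : (j : ℝ) * |s| ≤ n * |s| := mul_le_mul_of_nonneg_right hjn (abs_nonneg s)
    have h11 : ((j : ℝ) * |s|) ^ m * Real.exp (j * |s|) ≤ (n * |s|) ^ m * Real.exp (n * |s|) :=
      mul_le_mul (pow_le_pow_left₀ hjs h10 m) (Real.exp_le_exp.mpr h10) (Real.exp_pos _).le
        (by positivity)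
    have h12 : ((j : ℝ) * |s|) ^ m * Real.exp (j * |s|) / m.factorial ≤ T := by
      rw [hT]
      exact div_le_div_of_nonneg_right h11 (by positivity)
    linarith
  have h13 : ∑ j ∈ range (n + 1), ‖P.coeff j‖ ≤
      Real.sqrt (n + 1) * Real.sqrt (∑ i ∈ P.support, ‖P.coeff i‖ ^ 2) := by
    have h14 : ∑ i ∈ P.support, ‖P.coeff i‖ ^ 2 = ∑ j ∈ range (n + 1), ‖P.coeff j‖ ^ 2 := by
      refine Finset.sum_subset (fun i hi => ?_) (fun i _ hi => ?_)
      · rw [Finset.mem_range]
        have := le_natDegree_of_mem_supp i hi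
        omega
      · rw [notMem_support_iff.mp hi]
        simp
    rw [h14, ← Real.sqrt_mul (by positivity)]
    apply Real.le_sqrt_of_sq_le
    have h15 := sq_sum_le_card_mul_sum_sq (s := range (n + 1)) (f := fun j => ‖P.coeff j‖)
    rw [Finset.card_range] at h15
    push_cast at h15
    exact h15
  calc _ ≤ ∑ j ∈ range (n + 1), ‖P.coeff j‖ * T := norm_sum_le_of_le _ h6
    _ = (∑ j ∈ range (n + 1), ‖P.coeff j‖) * T := (Finset.sum_mul _ _ _).symm
    _ ≤ _ := mul_le_mul_of_nonneg_right h13 hT0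

end

end Pool.Agent.H1.FV
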