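import Pool.Agent.H1.FV.Defs

/-!
Linearised bound for a binomial coefficient, and the tail of the exponential series.

Proof: `C(n+1, m+1) ≤ (n+1)^(m+1) / (m+1)!` (`Nat.choose_le_pow_div`), `t^(m+1) / (m+1)! ≤ exp t`
(`Real.pow_div_factorial_le_exp`). If the binomial coefficient is zero then `log 0 = 0` and the right
side is `≥ 0` because `t ≤ n + 1`.
-/

namespace Pool.Agent.H1.FV

open Polynomial Finset
open Pool.Agent.H35.V1 (Nm Gm PPr mem_PPr div_spec)

noncomputable section


theorem log_choose_lin (n m : ℕ) {t : ℝ} (ht : 0 < t) (htn : t ≤ n + 1) :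
    Real.log ((n + 1).choose (m + 1)) ≤ ((m : ℝ) + 1) * Real.log (((n : ℝ) + 1) / t) + t := by
  have hn : (0 : ℝ) < (n : ℝ) + 1 := by positivity
  have hq1 : 1 ≤ ((n : ℝ) + 1) / t := (one_le_div ht).2 htn
  rcases Nat.eq_zero_or_pos ((n + 1).choose (m + 1)) with h0 | h0
  · rw [h0, Nat.cast_zero, Real.log_zero]
    have := Real.log_nonneg hq1
    positivity
  · have h1 : (((n + 1).choose (m + 1) : ℕ) : ℝ)
        ≤ ((n : ℝ) + 1) ^ (m + 1) / (((m + 1).factorial : ℕ) : ℝ) := by
      have := Nat.choose_le_pow_div (α := ℝ) (m + 1) (n + 1)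
      simpa using this
    have h2 : t ^ (m + 1) / (((m + 1).factorial : ℕ) : ℝ) ≤ Real.exp t :=
      Real.pow_div_factorial_le_exp t ht.le (m + 1)
    have hf : (0 : ℝ) < (((m + 1).factorial : ℕ) : ℝ) := by exact_mod_cast Nat.factorial_pos _
    have h3 : (((n + 1).choose (m + 1) : ℕ) : ℝ) ≤ (((n : ℝ) + 1) / t) ^ (m + 1) * Real.exp t := by
      calc (((n + 1).choose (m + 1) : ℕ) : ℝ)
          ≤ ((n : ℝ) + 1) ^ (m + 1) / (((m + 1).factorial : ℕ) : ℝ) := h1
        _ = (((n : ℝ) + 1) / t) ^ (m + 1) * (t ^ (m + 1) / (((m + 1).factorial : ℕ) : ℝ)) := by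
            rw [div_pow]
            field_simp
        _ ≤ _ := mul_le_mul_of_nonneg_left h2 (by positivity)
    have h4 : (0 : ℝ) < (((n + 1).choose (m + 1) : ℕ) : ℝ) := by exact_mod_cast h0
    calc Real.log ((n + 1).choose (m + 1))
        ≤ Real.log ((((n : ℝ) + 1) / t) ^ (m + 1) * Real.exp t) := Real.log_le_log h4 h3
      _ = ((m : ℝ) + 1) * Real.log (((n : ℝ) + 1) / t) + t := by
          rw [Real.log_mul (by positivity) (Real.exp_pos t).ne', Real.log_pow, Real.log_exp]
          push_cast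
          ring


end

end Pool.Agent.H1.FV
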