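import Pool.Agent.H35.V1.Total

/-!
Project FV (MP_ff76c9_an): basic definitions.

Flat polynomials with coefficients in `{-1, 0, 1}` have a smaller order of vanishing at `1`.
-/

namespace Pool.Agent.H1.FV

open Polynomial Finset
open Pool.Agent.H35.V1 (Nm Gm PPr mem_PPr div_spec)

noncomputable section

/-- The squarefree integers `d` in `[1, Q]` all of whose prime factors are larger than `w`. -/
def RD (Q w : ℕ) : Finset ℕ :=
  (Icc 1 Q).filter (fun d => Squarefree d ∧ ∀ p ∈ d.primeFactors, w < p)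

/-- The primes `p` in `(w, Q / d]` that do not divide `d`. -/
def UD (Q w d : ℕ) : Finset ℕ := (PPr w (Q / d)).filter (fun p => ¬ p ∣ d)

/-- The operator `A`: remove a prime `p` with rate `log p`, add a prime `p` with rate
`log p / (p - 1)`. -/
def Aop (Q w : ℕ) (h : ℕ → ℝ) (d : ℕ) : ℝ :=
  ∑ p ∈ d.primeFactors, Real.log p * h (d / p)
    + ∑ p ∈ UD Q w d, Real.log p / ((p : ℝ) - 1) * h (d * p)

/-- `E_t(d) = prod_(p | d) (1 - p^(-t))`. -/
def Et (t : ℝ) (d : ℕ) : ℝ := ∏ p ∈ d.primeFactors, (1 - (p : ℝ) ^ (-t))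

/-- The weight: `exp (1 - L t - κ t)` for `t ≤ 1 / L` and `exp (-κ t) / (L t)` for `t > 1 / L`. -/
def Wt (L κ t : ℝ) : ℝ :=
  if t ≤ 1 / L then Real.exp (1 - L * t - κ * t) else Real.exp (-(κ * t)) / (L * t)

/-- The subsolution. -/
def Uf (L κ : ℝ) (d : ℕ) : ℝ := ∫ t in (0 : ℝ)..(2 / κ), Wt L κ t * Et t d

theorem mem_RD {Q w d : ℕ} : d ∈ RD Q w ↔
    (1 ≤ d ∧ d ≤ Q) ∧ Squarefree d ∧ ∀ p ∈ d.primeFactors, w < p := by
  simp [RD]

theorem mem_UD {Q w d p : ℕ} : p ∈ UD Q w d ↔ ((w < p ∧ p ≤ Q / d) ∧ p.Prime) ∧ ¬ p ∣ d := by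
  unfold UD
  rw [mem_filter, mem_PPr]

theorem one_mem_RD {Q w : ℕ} (hQ : 1 ≤ Q) : 1 ∈ RD Q w := by
  rw [mem_RD]
  exact ⟨⟨le_rfl, hQ⟩, squarefree_one, by simp⟩

theorem div_mem_RD {Q w d p : ℕ} (hd : d ∈ RD Q w) (hp : p ∈ d.primeFactors) :
    d / p ∈ RD Q w := by
  rw [mem_RD] at hd ⊢
  have hs := div_spec hd.2.1 hp
  refine ⟨⟨hs.2.1, hs.2.2.2.le.trans hd.1.2⟩, hd.2.1.squarefree_of_dvd ⟨p, hs.1.symm⟩, ?_⟩
  intro q hq
  apply hd.2.2 q
  rw [Nat.mem_primeFactors] at hq ⊢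
  exact ⟨hq.1, hq.2.1.trans ⟨p, hs.1.symm⟩, by omega⟩

theorem mul_mem_RD {Q w d p : ℕ} (hd : d ∈ RD Q w) (hp : p ∈ UD Q w d) :
    d * p ∈ RD Q w := by
  rw [mem_RD] at hd ⊢
  rw [mem_UD] at hp
  have hd0 : 0 < d := hd.1.1
  refine ⟨⟨Nat.mul_pos hd0 hp.1.2.pos, ?_⟩, ?_, ?_⟩
  · calc d * p ≤ d * (Q / d) := Nat.mul_le_mul_left d hp.1.1.2
      _ ≤ Q := Nat.mul_div_le Q d
  · rw [Nat.squarefree_mul (((Nat.Prime.coprime_iff_not_dvd hp.1.2).2 hp.2).symm)]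
    exact ⟨hd.2.1, hp.1.2.squarefree⟩
  · intro q hq
    rw [Nat.primeFactors_mul hd0.ne' hp.1.2.ne_zero, mem_union] at hq
    rcases hq with hq | hq
    · exact hd.2.2 q hq
    · rw [hp.1.2.primeFactors, mem_singleton] at hq
      rw [hq]
      exact hp.1.1.1

theorem Aop_add (Q w : ℕ) (f g : ℕ → ℝ) (d : ℕ) :
    Aop Q w (fun e => f e + g e) d = Aop Q w f d + Aop Q w g d := by
  unfold Aop
  simp only [mul_add, sum_add_distrib]
  ring

theorem Aop_smul (Q w : ℕ) (c : ℝ) (f : ℕ → ℝ) (d : ℕ) :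
    Aop Q w (fun e => c * f e) d = c * Aop Q w f d := by
  unfold Aop
  rw [mul_add, mul_sum, mul_sum]
  congr 1 <;> · apply sum_congr rfl; intros; ring

theorem Aop_const (Q w : ℕ) (c : ℝ) (d : ℕ) :
    Aop Q w (fun _ => c) d = c * Aop Q w (fun _ => 1) d := by
  have := Aop_smul Q w c (fun _ => 1) d
  simpa using this

theorem Aop_nonneg {Q w : ℕ} {f : ℕ → ℝ} {d : ℕ} (hd : d ∈ RD Q w)
    (hf : ∀ e ∈ RD Q w, 0 ≤ f e) : 0 ≤ Aop Q w f d := by
  unfold Aop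
  apply add_nonneg
  · apply sum_nonneg
    intro p hp
    exact mul_nonneg (Real.log_natCast_nonneg p) (hf _ (div_mem_RD hd hp))
  · apply sum_nonneg
    intro p hp
    have h1 := (mem_UD.1 hp).1.2
    have : (1 : ℝ) < p := by exact_mod_cast h1.one_lt
    exact mul_nonneg (div_nonneg (Real.log_natCast_nonneg p) (by linarith))
      (hf _ (mul_mem_RD hd hp))

theorem Et_one (t : ℝ) : Et t 1 = 1 := by simp [Et]

theorem Et_nonneg {t : ℝ} (ht : 0 ≤ t) (d : ℕ) : 0 ≤ Et t d := by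
  apply prod_nonneg
  intro p hp
  have h1 : (1 : ℝ) ≤ p := by exact_mod_cast (Nat.prime_of_mem_primeFactors hp).one_lt.le
  have := Real.rpow_le_one_of_one_le_of_nonpos h1 (neg_nonpos.2 ht)
  linarith

theorem Et_le_one {t : ℝ} (ht : 0 ≤ t) (d : ℕ) : Et t d ≤ 1 := by
  apply prod_le_one
  · intro p hp
    have h1 : (1 : ℝ) ≤ p := by exact_mod_cast (Nat.prime_of_mem_primeFactors hp).one_lt.le
    have := Real.rpow_le_one_of_one_le_of_nonpos h1 (neg_nonpos.2 ht)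
    linarith
  · intro p hp
    have h1 : (0 : ℝ) < p := by exact_mod_cast (Nat.prime_of_mem_primeFactors hp).pos
    have := Real.rpow_pos_of_pos h1 (-t)
    linarith

theorem Et_mono {s t : ℝ} (hs : 0 ≤ s) (hst : s ≤ t) (d : ℕ) : Et s d ≤ Et t d := by
  apply prod_le_prod
  · intro p hp
    have h1 : (1 : ℝ) ≤ p := by exact_mod_cast (Nat.prime_of_mem_primeFactors hp).one_lt.le
    have := Real.rpow_le_one_of_one_le_of_nonpos h1 (neg_nonpos.2 hs)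
    linarith
  · intro p hp
    have h1 : (1 : ℝ) ≤ p := by exact_mod_cast (Nat.prime_of_mem_primeFactors hp).one_lt.le
    have := Real.rpow_le_rpow_of_exponent_le h1 (neg_le_neg hst)
    linarith

theorem Et_zero {d : ℕ} (hd : d ≠ 1) (hd0 : d ≠ 0) : Et 0 d = 0 := by
  obtain ⟨p, hp⟩ : d.primeFactors.Nonempty := by
    rw [Nat.nonempty_primeFactors]
    omega
  exact prod_eq_zero hp (by simp)

end

end Pool.Agent.H1.FV
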