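import Pool.Agent.H1.FV.Defs

/-!
The derivative of `E_t(d)` in `t`.

Proof: product rule (`HasDerivAt.finset_prod` or induction): the derivative of `1 - p^(-t)` is
`log p * p^(-t)`, the product of the other factors is `E_t(d / p)` (`d` squarefree:
`(d / p).primeFactors = d.primeFactors.erase p`), and `p^(-t) E_t(d/p) = E_t(d/p) - E_t(d)`;
`∑_(p | d) log p = log d` (`sum_log_primeFactors`).
-/

namespace Pool.Agent.H1.FV

open Polynomial Finset
open Pool.Agent.H35.V1 (Nm Gm PPr mem_PPr div_spec)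

noncomputable section


theorem Et_mul {d p : ℕ} (hd : 0 < d) (hp : p.Prime) (hpd : ¬ p ∣ d) (t : ℝ) :
    Et t (d * p) = Et t d * (1 - (p : ℝ) ^ (-t)) := by
  unfold Et
  have hcop : d.Coprime p := ((Nat.Prime.coprime_iff_not_dvd hp).2 hpd).symm
  rw [Nat.primeFactors_mul hd.ne' hp.ne_zero, prod_union hcop.disjoint_primeFactors, hp.primeFactors, prod_singleton]

theorem hasDerivAt_Et {d : ℕ} (hd : Squarefree d) (t : ℝ) :
    HasDerivAt (fun s => Et s d)
      (∑ p ∈ d.primeFactors, Real.log p * Et t (d / p) - Real.log d * Et t d) t := by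
  have hder : ∀ p ∈ d.primeFactors,
      HasDerivAt (fun s : ℝ => 1 - (p : ℝ) ^ (-s)) (Real.log p * (p : ℝ) ^ (-t)) t := by
    intro p hp
    have hp0 : (0 : ℝ) < p := by exact_mod_cast (Nat.prime_of_mem_primeFactors hp).pos
    have h1 : HasDerivAt (fun s : ℝ => -s) (-1) t := (hasDerivAt_id t).neg
    have h2 := (h1.const_rpow hp0).const_sub 1
    refine h2.congr_deriv ?_
    ring
  have h := HasDerivAt.fun_finsetProd (u := d.primeFactors) (f := fun p : ℕ => fun s : ℝ => 1 - (p : ℝ) ^ (-s))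
    (f' := fun p : ℕ => Real.log p * (p : ℝ) ^ (-t)) (x := t) hder
  refine HasDerivAt.congr_deriv h ?_
  rw [← Pool.Agent.H35.V1.sum_log_primeFactors hd, sum_mul, ← sum_sub_distrib]
  apply sum_congr rfl
  intro p hp
  have hpp := Nat.prime_of_mem_primeFactors hp
  have hs := div_spec hd hp
  have hE : Et t d = Et t (d / p) * (1 - (p : ℝ) ^ (-t)) := by
    conv_lhs => rw [← hs.1]
    exact Et_mul hs.2.1 hpp hs.2.2.1 t
  have hpf : d.primeFactors.erase p = (d / p).primeFactors := by
    have h1 : d.primeFactors = (d / p).primeFactors ∪ {p} := by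
      conv_lhs => rw [← hs.1]
      rw [Nat.primeFactors_mul hs.2.1.ne' hpp.ne_zero, hpp.primeFactors]
    have h2 : p ∉ (d / p).primeFactors := fun h => hs.2.2.1 (Nat.dvd_of_mem_primeFactors h)
    rw [h1]
    ext q
    simp only [mem_erase, mem_union, mem_singleton]
    constructor
    · rintro ⟨h3, h4 | h4⟩
      · exact h4
      · exact absurd h4 h3
    · intro h3
      exact ⟨fun h4 => h2 (h4 ▸ h3), Or.inl h3⟩
  rw [hpf, hE]
  unfold Et
  simp only [smul_eq_mul]
  ring


end

end Pool.Agent.H1.FV
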