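import Pool.Agent.H1.FV.Mer

/-!
Total rates of the chain and the drift of `E_t`.

Proofs. (1) `exists_A1`: `Aop 1 d = ∑_(p | d) log p + ∑_(p ∈ UD) log p / (p - 1) ≤ log d + log (Q / d : ℕ) + C`
(`sum_log_primeFactors` of `H35.V1.Params`, `exists_rate_upper`), and `d * (Q / d) ≤ Q`.
(2) `exists_drift`: if `t ≤ 1 / log Q` then `min (1/t) (log Q) = log Q` and the left side is `≤ 0 ≤` right side
(take care of `log Q = 0`). Otherwise the sum over `UD Q w d` of `log p / (p - 1)` is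
`≥ ∑_(PPr w (Q/d)) log p / p - ∑_(p | d) log p / p ≥ log (Q/d : ℕ) - log w - C - 1` (`exists_prime_lower`,
`delta_le_prime` i.e. `delta_le_` with `W = w`), `log (Q / d : ℕ) ≥ log Q - log d - log 2`, and
`∑ log p / (p - 1) * p^(-t) ≤ (1 + 1/w) (1/t + C) ≤ 1/t + C + (1/t) / w + C ≤ 1/t + 2 C + 1` because
`1/t ≤ log Q ≤ w` (`exists_weighted`).
-/

namespace Pool.Agent.H1.FV

open Polynomial Finset
open Pool.Agent.H35.V1 (Nm Gm PPr mem_PPr div_spec)

noncomputable section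

private theorem dri_log {Q d : ℕ} (hd : 1 ≤ d) (hdQ : d ≤ Q) :
    Real.log d + Real.log ((Q / d : ℕ) : ℝ) ≤ Real.log Q ∧
      Real.log Q - Real.log d - Real.log 2 ≤ Real.log ((Q / d : ℕ) : ℝ) := by
  have hk : 1 ≤ Q / d := (Nat.one_le_div_iff (by omega)).2 hdQ
  have hd' : (0 : ℝ) < d := by exact_mod_cast hd
  have hk' : (0 : ℝ) < ((Q / d : ℕ) : ℝ) := by exact_mod_cast hk
  have hQ' : (0 : ℝ) < Q := by exact_mod_cast (le_trans hd hdQ)
  constructor
  · rw [← Real.log_mul hd'.ne' hk'.ne']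
    apply Real.log_le_log (by positivity)
    exact_mod_cast Nat.mul_div_le Q d
  · rw [← Real.log_div hQ'.ne' hd'.ne', ← Real.log_div (by positivity) (by norm_num)]
    apply Real.log_le_log (by positivity)
    rw [div_le_iff₀ (by norm_num), div_le_iff₀ hd']
    have h1 : Q < d * (Q / d + 1) := Nat.lt_mul_div_succ Q (by omega)
    have h2 : Q ≤ Q / d * 2 * d := by nlinarith
    exact_mod_cast h2

private theorem dri_sub {Q w d : ℕ} : UD Q w d ⊆ PPr w (Q / d) := filter_subset _ _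

private theorem dri_p {w x p : ℕ} (hp : p ∈ PPr w x) : (w : ℝ) + 1 ≤ p ∧ (1 : ℝ) < p ∧ 0 ≤ Real.log p := by
  rw [mem_PPr] at hp
  refine ⟨by exact_mod_cast hp.1.1, by exact_mod_cast hp.2.one_lt, Real.log_natCast_nonneg p⟩

theorem exists_A1 : ∃ C : ℝ, 0 ≤ C ∧ ∀ Q w d : ℕ, 3 ≤ w → Real.log Q ≤ w → d ∈ RD Q w →
    Aop Q w (fun _ => 1) d ≤ Real.log Q + C := by
  obtain ⟨C, hC, H⟩ := exists_rate_upper
  refine ⟨C, hC, fun Q w d hw hQ hd => ?_⟩
  have hd' := mem_RD.1 hd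
  have h1 : 1 ≤ Q / d := (Nat.one_le_div_iff hd'.1.1).2 hd'.1.2
  have hl := dri_log hd'.1.1 hd'.1.2
  have hl0 : 0 ≤ Real.log d := Real.log_natCast_nonneg d
  have h2 := H w (Q / d) hw h1 (by linarith [hl.1])
  have h3 : ∑ p ∈ UD Q w d, Real.log p / ((p : ℝ) - 1) ≤ ∑ p ∈ PPr w (Q / d), Real.log p / ((p : ℝ) - 1) := by
    apply sum_le_sum_of_subset_of_nonneg dri_sub
    intro p hp _
    obtain ⟨_, h4, h5⟩ := dri_p hp
    exact div_nonneg h5 (by linarith)
  unfold Aop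
  simp only [mul_one]
  rw [Pool.Agent.H35.V1.sum_log_primeFactors hd'.2.1]
  linarith [hl.1]

theorem exists_drift : ∃ C : ℝ, 0 ≤ C ∧ ∀ (Q w d : ℕ) (t : ℝ), 3 ≤ w → Real.log Q ≤ w →
    d ∈ RD Q w → 0 < t →
    Real.log Q - Real.log w - C - min (1 / t) (Real.log Q)
      ≤ Real.log d + ∑ p ∈ UD Q w d, Real.log p / ((p : ℝ) - 1) * (1 - (p : ℝ) ^ (-t)) := by
  obtain ⟨C1, hC1, H1⟩ := Pool.Agent.H35.V1.exists_prime_lower
  obtain ⟨C2, hC2, H2⟩ := exists_weighted
  have hlog2 : 0 ≤ Real.log 2 := Real.log_nonneg (by norm_num)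
  refine ⟨C1 + 2 * C2 + 2 + Real.log 2, by positivity, fun Q w d t hw hQ hd ht => ?_⟩
  have hd' := mem_RD.1 hd
  have hk : 1 ≤ Q / d := (Nat.one_le_div_iff hd'.1.1).2 hd'.1.2
  have hl := dri_log hd'.1.1 hd'.1.2
  have hl0 : 0 ≤ Real.log d := Real.log_natCast_nonneg d
  have hk0 : 0 ≤ Real.log ((Q / d : ℕ) : ℝ) := Real.log_natCast_nonneg _
  have hw0 : (0 : ℝ) < w := by exact_mod_cast (by omega : 0 < w)
  have hw1 : (1 : ℝ) ≤ w := by exact_mod_cast (by omega : 1 ≤ w)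
  have hlw : 0 ≤ Real.log w := Real.log_natCast_nonneg w
  rcases le_or_gt (Real.log Q) (1 / t) with hc | hc
  · rw [min_eq_right hc]
    have h0 : 0 ≤ ∑ p ∈ UD Q w d, Real.log p / ((p : ℝ) - 1) * (1 - (p : ℝ) ^ (-t)) := by
      apply sum_nonneg
      intro p hp
      obtain ⟨_, h4, h5⟩ := dri_p (dri_sub hp)
      have h6 := Real.rpow_le_one_of_one_le_of_nonpos h4.le (neg_nonpos.2 ht.le)
      exact mul_nonneg (div_nonneg h5 (by linarith)) (by linarith)
    linarith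
  · rw [min_eq_left hc.le]
    -- the first sum
    have h1 := H1 w (Q / d) (by omega) hk
    have h2 : ∑ p ∈ PPr w (Q / d), Real.log p / p ≤ ∑ p ∈ UD Q w d, Real.log p / ((p : ℝ) - 1) + 1 := by
      have e1 : ∑ p ∈ PPr w (Q / d), Real.log p / p =
          ∑ p ∈ UD Q w d, Real.log p / p + ∑ p ∈ (PPr w (Q / d)).filter (fun p => ¬ ¬ p ∣ d), Real.log p / p :=
        (sum_filter_add_sum_filter_not _ (fun p => ¬ p ∣ d) _).symm
      have e2 : ∑ p ∈ (PPr w (Q / d)).filter (fun p => ¬ ¬ p ∣ d), Real.log p / p ≤ ∑ p ∈ d.primeFactors, Real.log p / p := by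
        apply sum_le_sum_of_subset_of_nonneg
        · intro p hp
          rw [mem_filter, mem_PPr, not_not] at hp
          rw [Nat.mem_primeFactors]
          exact ⟨hp.1.2, hp.2, by have := hd'.1.1; omega⟩
        · intro p _ _
          exact div_nonneg (Real.log_natCast_nonneg p) (Nat.cast_nonneg p)
      have e3 := Pool.Agent.H35.V1.delta_le' hd'.2.1 (by omega : 0 < w) hd'.2.2 (by linarith [hl.1])
      have e4 : ∑ p ∈ UD Q w d, Real.log p / p ≤ ∑ p ∈ UD Q w d, Real.log p / ((p : ℝ) - 1) := by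
        apply sum_le_sum
        intro p hp
        obtain ⟨_, h4, h5⟩ := dri_p (dri_sub hp)
        exact div_le_div_of_nonneg_left h5 (by linarith) (by linarith)
      linarith
    -- the second sum
    have h3 := H2 w (Q / d) t hw ht
    have h4 : ∑ p ∈ UD Q w d, Real.log p / ((p : ℝ) - 1) * (p : ℝ) ^ (-t)
        ≤ (1 + 1 / (w : ℝ)) * ∑ p ∈ PPr w (Q / d), Real.log p / p * (p : ℝ) ^ (-t) := by
      rw [mul_sum]
      refine (sum_le_sum_of_subset_of_nonneg dri_sub ?_).trans (sum_le_sum ?_)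
      · intro p hp _
        obtain ⟨_, h4, h5⟩ := dri_p hp
        have h6 := Real.rpow_nonneg (by linarith : (0 : ℝ) ≤ p) (-t)
        exact mul_nonneg (div_nonneg h5 (by linarith)) h6
      · intro p hp
        obtain ⟨h3, h4, h5⟩ := dri_p hp
        have h6 := Real.rpow_nonneg (by linarith : (0 : ℝ) ≤ p) (-t)
        rw [← mul_assoc]
        apply mul_le_mul_of_nonneg_right _ h6
        have h7 : 1 / ((p : ℝ) - 1) ≤ (1 + 1 / (w : ℝ)) * (1 / p) := by
          rw [div_le_iff₀ (by linarith)]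
          have : (1 + 1 / (w : ℝ)) * (1 / p) * (p - 1) = ((w : ℝ) + 1) * (p - 1) / (w * p) := by
            field_simp
          rw [this, le_div_iff₀ (by positivity)]
          nlinarith
        calc Real.log p / ((p : ℝ) - 1) = Real.log p * (1 / ((p : ℝ) - 1)) := by ring
          _ ≤ Real.log p * ((1 + 1 / (w : ℝ)) * (1 / p)) := mul_le_mul_of_nonneg_left h7 h5
          _ = (1 + 1 / (w : ℝ)) * (Real.log p / p) := by ring
    have h5 : (w : ℝ) ^ (-t) ≤ 1 := Real.rpow_le_one_of_one_le_of_nonpos hw1 (neg_nonpos.2 ht.le)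
    have h6 : (1 / t + C2) * (w : ℝ) ^ (-t) ≤ 1 / t + C2 := by
      have : 0 ≤ 1 / t + C2 := by positivity
      nlinarith
    have h7 : (1 + 1 / (w : ℝ)) * ∑ p ∈ PPr w (Q / d), Real.log p / p * (p : ℝ) ^ (-t) ≤ (1 + 1 / (w : ℝ)) * (1 / t + C2) :=
      mul_le_mul_of_nonneg_left (h3.trans h6) (by positivity)
    have h8 : (1 + 1 / (w : ℝ)) * (1 / t + C2) ≤ 1 / t + 2 * C2 + 1 := by
      have e1 : 1 / t / w ≤ 1 := by
        rw [div_le_one hw0]
        linarith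
      have e2 : C2 / w ≤ C2 := div_le_self hC2 hw1
      have e3 : (1 + 1 / (w : ℝ)) * (1 / t + C2) = 1 / t + C2 + 1 / t / w + C2 / w := by ring
      rw [e3]
      linarith
    have h9 : ∑ p ∈ UD Q w d, Real.log p / ((p : ℝ) - 1) * (1 - (p : ℝ) ^ (-t)) =
        ∑ p ∈ UD Q w d, Real.log p / ((p : ℝ) - 1) - ∑ p ∈ UD Q w d, Real.log p / ((p : ℝ) - 1) * (p : ℝ) ^ (-t) := by
      rw [← sum_sub_distrib]
      exact sum_congr rfl fun p _ => by ring
    rw [h9]
    linarith [hl.2]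


end

end Pool.Agent.H1.FV
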