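import Pool.Agent.H1.FV.Defs

/-!
Split off all cyclotomic factors of small order.

Proof: strong induction on `p.natDegree` (or use `multiplicity` one `d` at a time, induction on the
finset `Icc 1 Q`): if some `Φ_d`, `1 ≤ d ≤ Q`, divides `p`, `p = Φ_d B`, apply the induction hypothesis
to `B` and increase `m d` by one (`Function.update`), `Gm Q (update m d (m d + 1)) = Gm Q m * Φ_d`.
Otherwise `m = 0`, `A = p`.
-/

namespace Pool.Agent.H1.FV

open Polynomial Finset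
open Pool.Agent.H35.V1 (Nm Gm PPr mem_PPr div_spec)

noncomputable section

private theorem Fac_update {Q d : ℕ} (hd : d ∈ Icc 1 Q) (m : ℕ → ℕ) :
    Gm Q (Function.update m d (m d + 1)) = cyclotomic d ℤ * Gm Q m := by
  unfold Gm
  rw [← Finset.mul_prod_erase (Icc 1 Q)
    (fun e => cyclotomic e ℤ ^ (Function.update m d (m d + 1)) e) hd,
    ← Finset.mul_prod_erase (Icc 1 Q) (fun e => cyclotomic e ℤ ^ m e) hd]
  have h1 : ∏ e ∈ (Icc 1 Q).erase d, cyclotomic e ℤ ^ (Function.update m d (m d + 1)) e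
      = ∏ e ∈ (Icc 1 Q).erase d, cyclotomic e ℤ ^ m e := by
    apply Finset.prod_congr rfl
    intro e he
    rw [Function.update_of_ne (Finset.ne_of_mem_erase he)]
  rw [h1]
  simp only [Function.update_self, pow_succ]
  ring

theorem exists_factor (Q : ℕ) (p : ℤ[X]) (hp : p ≠ 0) :
    ∃ (m : ℕ → ℕ) (A : ℤ[X]), p = Gm Q m * A ∧ ∀ d ∈ Icc 1 Q, ¬ cyclotomic d ℤ ∣ A := by
  induction hn : p.natDegree using Nat.strong_induction_on generalizing p with
  | _ n ih =>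
    by_cases h : ∃ d ∈ Icc 1 Q, cyclotomic d ℤ ∣ p
    · obtain ⟨d, hd, B, hB⟩ := h
      have hB0 : B ≠ 0 := by
        rintro rfl
        exact hp (by rw [hB, mul_zero])
      have hd1 : 1 ≤ d := (Finset.mem_Icc.1 hd).1
      have hdeg : p.natDegree = Nat.totient d + B.natDegree := by
        rw [hB, natDegree_mul (cyclotomic_ne_zero d ℤ) hB0, natDegree_cyclotomic]
      have htot : 0 < Nat.totient d := Nat.totient_pos.2 (by omega)
      obtain ⟨m, A, hA, hA'⟩ := ih B.natDegree (by omega) B hB0 rfl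
      refine ⟨Function.update m d (m d + 1), A, ?_, hA'⟩
      rw [Fac_update hd, mul_assoc, ← hA, hB]
    · push Not at h
      refine ⟨fun _ => 0, p, ?_, h⟩
      simp [Gm]

/-- `(X - 1) ^ K ∣ p` gives `K ≤ m 1`. -/
theorem le_of_pow_dvd {Q K : ℕ} (hQ : 1 ≤ Q) {m : ℕ → ℕ} {A : ℤ[X]}
    (hA : ∀ d ∈ Icc 1 Q, ¬ cyclotomic d ℤ ∣ A) (h : (X - 1 : ℤ[X]) ^ K ∣ Gm Q m * A) :
    K ≤ m 1 := by
  by_contra hK
  have hK' : m 1 + 1 ≤ K := by omega
  have h1 : (1 : ℕ) ∈ Icc 1 Q := Finset.mem_Icc.2 ⟨le_rfl, hQ⟩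
  have hG : Gm Q m = (X - 1) ^ (m 1) * ∏ d ∈ (Icc 1 Q).erase 1, cyclotomic d ℤ ^ m d := by
    unfold Gm
    rw [← Finset.mul_prod_erase (Icc 1 Q) (fun e => cyclotomic e ℤ ^ m e) h1, cyclotomic_one]
  have hp : Prime (X - 1 : ℤ[X]) := by
    have := prime_X_sub_C (1 : ℤ)
    rwa [C_1] at this
  rw [hG, mul_assoc] at h
  have h2 := (pow_dvd_pow (X - 1 : ℤ[X]) hK').trans h
  rw [pow_succ] at h2
  have h3 := (mul_dvd_mul_iff_left (pow_ne_zero _ hp.ne_zero)).1 h2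
  rcases hp.dvd_or_dvd h3 with h4 | h4
  · obtain ⟨d, hd, h5⟩ := (Prime.dvd_finsetProd_iff hp _).1 h4
    have h6 := hp.dvd_of_dvd_pow h5
    have hd1 : d ≠ 1 := Finset.ne_of_mem_erase hd
    have hd0 : 1 ≤ d := (Finset.mem_Icc.1 (Finset.mem_of_mem_erase hd)).1
    have h7 : IsRoot (cyclotomic d ℤ) 1 := by
      rw [← dvd_iff_isRoot, C_1]
      exact h6
    have : NeZero ((d : ℕ) : ℤ) := ⟨by exact_mod_cast (by omega : d ≠ 0)⟩
    rw [isRoot_cyclotomic_iff] at h7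
    exact hd1 (h7.unique IsPrimitiveRoot.one)
  · exact hA 1 h1 (by rw [cyclotomic_one]; exact h4)


end

end Pool.Agent.H1.FV
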