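import Pool.Agent.H1.FV.Defs

/-!
Mertens type estimates.

Proofs. `c0`, `B_upper`, `B_lower` are in `Pool.Agent.H41.PrimesModFour` (`∑_(d ≤ N) Λ(d)/d = log N + O(1)`),
`exists_prime_lower` in `H35.V1.NT`, Abel summation `Pool.Agent.H91.Gold.abel_le` (see how `sum_recip_le`
in `H35.V1.NT` uses it).
(1) `prime_upper`: `∑_(w < p ≤ x) log p / p ≤ ∑_(w < d ≤ x) Λ(d)/d ≤ log x - log w + c0 + 1`.
(2) `weighted`: Abel summation with weights `k^(-t)`:
`∑_(w<p≤x) (log p / p) p^(-t) ≤ ∑_(w<k≤x) (log k - log (k-1)) k^(-t) + C (w+1)^(-t)`, and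
`(b - a) e^(-t b) ≤ (e^(-t a) - e^(-t b)) / t` for `a ≤ b`, so the sum telescopes to `≤ w^(-t) / t`.
(3) `upper_rate`: `log p / (p - 1) ≤ (1 + 1/w) log p / p` hence
`∑_(w < p ≤ x) log p / (p - 1) ≤ (1 + 1/w) (log x - log w + C) ≤ log x - log w + C + 1 + C` for
`log x ≤ w` (empty sum if `x ≤ w`).
-/

namespace Pool.Agent.H1.FV

open Polynomial Finset
open Pool.Agent.H35.V1 (Nm Gm PPr mem_PPr div_spec)

noncomputable section

private theorem mer_lambda {w m : ℕ} (hw : 0 < w) (hwm : w ≤ m) :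
    ∑ d ∈ Ioc w m, ArithmeticFunction.vonMangoldt d / (d : ℝ)
      ≤ Real.log m - Real.log w + (Pool.Agent.H41.c0 + 1) := by
  have h1 := Pool.Agent.H41.B_upper m (by omega)
  have h2 := Pool.Agent.H41.B_lower w hw
  have h3 : ∑ d ∈ Ioc 0 m, ArithmeticFunction.vonMangoldt d / (d : ℝ)
      = ∑ d ∈ Ioc 0 w, ArithmeticFunction.vonMangoldt d / (d : ℝ)
        + ∑ d ∈ Ioc w m, ArithmeticFunction.vonMangoldt d / (d : ℝ) :=
    (sum_Ioc_consecutive _ (Nat.zero_le w) hwm).symm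
  linarith

private theorem mer_prime {w m : ℕ} (hw : 0 < w) (hwm : w ≤ m) :
    ∑ k ∈ Ioc w m, (if k.Prime then Real.log k / (k : ℝ) else 0)
      ≤ Real.log m - Real.log w + (Pool.Agent.H41.c0 + 1) := by
  refine le_trans ?_ (mer_lambda hw hwm)
  apply sum_le_sum
  intro k _
  split_ifs with hp
  · rw [ArithmeticFunction.vonMangoldt_apply_prime hp]
  · have := ArithmeticFunction.vonMangoldt_nonneg (n := k)
    positivity

private theorem mer_empty {w x : ℕ} (hxw : x ≤ w) : PPr w x = ∅ := by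
  ext p
  rw [mem_PPr]
  simp only [notMem_empty, iff_false]
  rintro ⟨⟨h1, h2⟩, -⟩
  omega

private theorem mer_upper {w x : ℕ} (hw : 0 < w) (hwx : w ≤ x) :
    ∑ p ∈ PPr w x, Real.log p / (p : ℝ)
      ≤ Real.log x - Real.log w + (Pool.Agent.H41.c0 + 1) := by
  have h := mer_prime hw hwx
  rw [← sum_filter] at h
  exact h

private theorem mer_tele {w : ℕ} (hw : 0 < w) {t : ℝ} (ht : 0 < t) (m : ℕ) (hm : w ≤ m) :
    ∑ k ∈ Ioc w m, (Real.log k - Real.log (k - 1 : ℕ)) * (k : ℝ) ^ (-t)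
      ≤ 1 / t * ((w : ℝ) ^ (-t) - (m : ℝ) ^ (-t)) := by
  induction m, hm using Nat.le_induction with
  | base => simp
  | succ m hm ih =>
    rw [sum_Ioc_succ_top (by omega)]
    rw [Nat.add_sub_cancel]
    have hm0 : (0 : ℝ) < m := by exact_mod_cast (by omega : 0 < m)
    have hm1 : (0 : ℝ) < ((m + 1 : ℕ) : ℝ) := by positivity
    have e1 : (m : ℝ) ^ (-t) = ((m + 1 : ℕ) : ℝ) ^ (-t)
        * Real.exp (t * (Real.log ((m + 1 : ℕ) : ℝ) - Real.log m)) := by
      rw [Real.rpow_def_of_pos hm0, Real.rpow_def_of_pos hm1, ← Real.exp_add]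
      congr 1
      ring
    have e2 := Real.add_one_le_exp (t * (Real.log ((m + 1 : ℕ) : ℝ) - Real.log m))
    have e3 : 0 < ((m + 1 : ℕ) : ℝ) ^ (-t) := Real.rpow_pos_of_pos hm1 _
    have e4 : ((m + 1 : ℕ) : ℝ) ^ (-t) * (t * (Real.log ((m + 1 : ℕ) : ℝ) - Real.log m) + 1)
        ≤ (m : ℝ) ^ (-t) := by
      rw [e1]
      exact mul_le_mul_of_nonneg_left e2 e3.le
    have e5 : (Real.log ((m + 1 : ℕ) : ℝ) - Real.log m) * ((m + 1 : ℕ) : ℝ) ^ (-t)
        ≤ 1 / t * ((m : ℝ) ^ (-t) - ((m + 1 : ℕ) : ℝ) ^ (-t)) := by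
      rw [one_div, inv_mul_eq_div, le_div_iff₀ ht]
      linarith
    calc _ ≤ 1 / t * ((w : ℝ) ^ (-t) - (m : ℝ) ^ (-t))
          + 1 / t * ((m : ℝ) ^ (-t) - ((m + 1 : ℕ) : ℝ) ^ (-t)) := add_le_add ih e5
      _ = _ := by ring

theorem exists_prime_upper : ∃ C : ℝ, 0 ≤ C ∧ ∀ w x : ℕ, 3 ≤ w → w ≤ x →
    ∑ p ∈ PPr w x, Real.log p / p ≤ Real.log x - Real.log w + C := by
  have hc0 := Pool.Agent.H41.c0_pos
  exact ⟨Pool.Agent.H41.c0 + 1, by linarith, fun w x hw hwx => mer_upper (by omega) hwx⟩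

theorem exists_weighted : ∃ C : ℝ, 0 ≤ C ∧ ∀ (w x : ℕ) (t : ℝ), 3 ≤ w → 0 < t →
    ∑ p ∈ PPr w x, Real.log p / p * (p : ℝ) ^ (-t) ≤ (1 / t + C) * (w : ℝ) ^ (-t) := by
  have hc0 := Pool.Agent.H41.c0_pos
  refine ⟨Pool.Agent.H41.c0 + 1, by linarith, fun w x t hw ht => ?_⟩
  have hw0 : (0 : ℝ) < w := by exact_mod_cast (by omega : 0 < w)
  have hwt : 0 < (w : ℝ) ^ (-t) := Real.rpow_pos_of_pos hw0 _
  rcases le_total x w with hxw | hwx
  · rw [mer_empty hxw, sum_empty]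
    have : 0 < 1 / t := by positivity
    have h2 : 0 < 1 / t + (Pool.Agent.H41.c0 + 1) := by linarith
    positivity
  · have h1 : ∑ p ∈ PPr w x, Real.log p / p * (p : ℝ) ^ (-t)
        = ∑ k ∈ Ioc w x, (if k.Prime then Real.log k / (k : ℝ) else 0) * (k : ℝ) ^ (-t) := by
      unfold PPr
      rw [sum_filter]
      apply sum_congr rfl
      intro k _
      split_ifs with hp
      · rfl
      · simp
    have h2 : ∑ k ∈ Ioc w x, (if k.Prime then Real.log k / (k : ℝ) else 0) * (k : ℝ) ^ (-t)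
        ≤ ∑ k ∈ Ioc w x, (Real.log k - Real.log (k - 1 : ℕ)) * (k : ℝ) ^ (-t)
          + (Pool.Agent.H41.c0 + 1) * ((w + 1 : ℕ) : ℝ) ^ (-t) := by
      apply Pool.Agent.H91.Gold.abel_le (f := fun k : ℕ => (k : ℝ) ^ (-t)) hwx (by linarith)
      · intro k _ _
        positivity
      · positivity
      · intro k hk1 _
        have hk0 : (0 : ℝ) < k := by exact_mod_cast (by omega : 0 < k)
        apply Real.rpow_le_rpow_of_nonpos hk0
        · push_cast; linarith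
        · linarith
      · intro m hm1 _
        have e1 : ∑ k ∈ Ioc w m, (Real.log k - Real.log (k - 1 : ℕ))
            = Real.log m - Real.log w := by
          clear * - hm1
          induction m, hm1 using Nat.le_induction with
          | base => simp
          | succ m hm ih =>
            rw [sum_Ioc_succ_top (by omega), ih]
            simp
        rw [e1]
        exact mer_prime (by omega) hm1
    have h3 := mer_tele (w := w) (by omega) ht x hwx
    have h4 : ((w + 1 : ℕ) : ℝ) ^ (-t) ≤ (w : ℝ) ^ (-t) := by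
      apply Real.rpow_le_rpow_of_nonpos hw0
      · push_cast; linarith
      · linarith
    have h5 : (Pool.Agent.H41.c0 + 1) * ((w + 1 : ℕ) : ℝ) ^ (-t)
        ≤ (Pool.Agent.H41.c0 + 1) * (w : ℝ) ^ (-t) :=
      mul_le_mul_of_nonneg_left h4 (by linarith)
    have hx0 : (0 : ℝ) < x := by exact_mod_cast (by omega : 0 < x)
    have h6 : 0 < (x : ℝ) ^ (-t) := Real.rpow_pos_of_pos hx0 _
    have h7 : 1 / t * ((w : ℝ) ^ (-t) - (x : ℝ) ^ (-t)) ≤ 1 / t * (w : ℝ) ^ (-t) := by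
      apply mul_le_mul_of_nonneg_left _ (by positivity)
      linarith
    rw [h1]
    linarith

theorem exists_rate_upper : ∃ C : ℝ, 0 ≤ C ∧ ∀ w x : ℕ, 3 ≤ w → 1 ≤ x → Real.log x ≤ w →
    ∑ p ∈ PPr w x, Real.log p / ((p : ℝ) - 1) ≤ Real.log x + C := by
  have hc0 := Pool.Agent.H41.c0_pos
  refine ⟨2 * (Pool.Agent.H41.c0 + 1) + 1, by linarith, fun w x hw hx hlx => ?_⟩
  have hw0 : (3 : ℝ) ≤ w := by exact_mod_cast hw
  have hlx0 : 0 ≤ Real.log x := Real.log_natCast_nonneg x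
  rcases le_total x w with hxw | hwx
  · rw [mer_empty hxw, sum_empty]
    linarith
  · have h1 : ∑ p ∈ PPr w x, Real.log p / ((p : ℝ) - 1)
        ≤ ∑ p ∈ PPr w x, (1 + 1 / (w : ℝ)) * (Real.log p / p) := by
      apply sum_le_sum
      intro p hp
      rw [mem_PPr] at hp
      have hp1 : (w : ℝ) + 1 ≤ p := by exact_mod_cast hp.1.1
      have hp0 : (0 : ℝ) < p := by linarith
      have hl : 0 ≤ Real.log p := Real.log_natCast_nonneg p
      have e1 : 1 / ((p : ℝ) - 1) ≤ (1 + 1 / (w : ℝ)) * (1 / p) := by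
        rw [mul_one_div, div_le_div_iff₀ (by linarith) hp0, one_mul]
        have : 1 ≤ 1 / (w : ℝ) * ((p : ℝ) - 1) := by
          rw [one_div, inv_mul_eq_div, le_div_iff₀ (by linarith)]
          linarith
        nlinarith
      calc Real.log p / ((p : ℝ) - 1) = Real.log p * (1 / ((p : ℝ) - 1)) := by ring
        _ ≤ Real.log p * ((1 + 1 / (w : ℝ)) * (1 / p)) := mul_le_mul_of_nonneg_left e1 hl
        _ = _ := by ring
    rw [← mul_sum] at h1
    have h2 := mer_upper (w := w) (x := x) (by omega) hwx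
    have hlw : 0 ≤ Real.log w := Real.log_natCast_nonneg w
    have h3 : (1 + 1 / (w : ℝ)) * ∑ p ∈ PPr w x, Real.log p / (p : ℝ)
        ≤ (1 + 1 / (w : ℝ)) * (Real.log x + (Pool.Agent.H41.c0 + 1)) := by
      apply mul_le_mul_of_nonneg_left _ (by positivity)
      linarith
    have h4 : 1 / (w : ℝ) * Real.log x ≤ 1 := by
      rw [one_div, inv_mul_eq_div, div_le_one (by linarith)]
      exact hlx
    have h5 : 1 / (w : ℝ) * (Pool.Agent.H41.c0 + 1) ≤ Pool.Agent.H41.c0 + 1 := by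
      have : 1 / (w : ℝ) ≤ 1 := by
        rw [div_le_one (by linarith)]
        linarith
      nlinarith
    have h6 : (1 + 1 / (w : ℝ)) * (Real.log x + (Pool.Agent.H41.c0 + 1))
        = Real.log x + (Pool.Agent.H41.c0 + 1) + 1 / (w : ℝ) * Real.log x
          + 1 / (w : ℝ) * (Pool.Agent.H41.c0 + 1) := by ring
    linarith

end

end Pool.Agent.H1.FV
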