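import Pool.Agent.H1.FV.Mas
import Pool.Agent.H1.FV.Mer

/-!
Mass of the good integers.

Proof. `ℓ = log n`, `LL = log ℓ`, `t = 1 / (7 LL)`, `w = ⌈ℓ⌉₊`, `y = ⌈ℓ ^ 21⌉₊ ≥ w`, `log y ≤ 22 LL`, `log y ≥ 21 LL`.
`RD Q y ⊆ RD Q w`. With `M = ∑_(d ∈ RD Q y) 1/φ(d) ≥ log Q / (C log y) ≥ c ℓ / LL` (`exists_rough_mass`).
`b(d) = ∑_(p | d) p^(-t)`; `Et t d ≥ 1 - b(d)` (`∏ (1 - x_p) ≥ 1 - ∑ x_p`). The bad `d` (`b(d) > 1/2`) have mass
`≤ 2 ∑_d b(d)/φ(d) = 2 ∑_p p^(-t) ∑_(d : p | d) 1/φ(d) ≤ 2 M ∑_(y < p ≤ Q) p^(-t)/(p-1)` (put `d = p e`, `φ(d) = (p-1) φ(e)`,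
`e ∈ RD Q y`), and `∑_(y < p) p^(-t)/(p-1) ≤ (2 / log y) ∑ (log p / p) p^(-t) ≤ (2 / log y) (1/t + C) y^(-t)`
(`exists_weighted`) `≤ (2/(21 LL)) (7 LL + C) exp (-3) ≤ 1/8` for large `n`. So the good `d` have mass `≥ 3/4 M`,
and removing `d = 1` costs `1`.
-/

namespace Pool.Agent.H1.FV

open Polynomial Finset
open Pool.Agent.H35.V1 (Nm Gm PPr mem_PPr div_spec)

noncomputable section

/-- the mass of the rough squarefree integers -/
private def gMass (Q y : ℕ) : ℝ := ∑ d ∈ RD Q y, 1 / (d.totient : ℝ)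

private theorem goo_prod (s : Finset ℕ) (x : ℕ → ℝ) (h0 : ∀ p ∈ s, 0 ≤ x p)
    (h1 : ∀ p ∈ s, x p ≤ 1) : 1 - ∑ p ∈ s, x p ≤ ∏ p ∈ s, (1 - x p) := by
  classical
  induction s using Finset.induction_on with
  | empty => simp
  | insert a s ha ih =>
    rw [sum_insert ha, prod_insert ha]
    have h2 := ih (fun p hp => h0 p (mem_insert_of_mem hp))
      (fun p hp => h1 p (mem_insert_of_mem hp))
    have h3 := h0 a (mem_insert_self _ _)
    have h4 := h1 a (mem_insert_self _ _)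
    have h5 : ∏ p ∈ s, (1 - x p) ≤ 1 := by
      refine prod_le_one (fun p hp => ?_) (fun p hp => ?_)
      · linarith [h1 p (mem_insert_of_mem hp)]
      · linarith [h0 p (mem_insert_of_mem hp)]
    nlinarith

private theorem goo_Et {t : ℝ} (ht : 0 ≤ t) (d : ℕ) :
    1 - ∑ p ∈ d.primeFactors, (p : ℝ) ^ (-t) ≤ Et t d := by
  unfold Et
  refine goo_prod _ _ (fun p _ => Real.rpow_nonneg (Nat.cast_nonneg p) _) fun p hp => ?_
  have h1 : (1 : ℝ) ≤ p := by exact_mod_cast (Nat.prime_of_mem_primeFactors hp).one_lt.le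
  exact Real.rpow_le_one_of_one_le_of_nonpos h1 (neg_nonpos.2 ht)

/-- the mass of the multiples of a prime -/
private theorem goo_one {Q y p : ℕ} (hp : p.Prime) :
    ∑ d ∈ (RD Q y).filter (fun d => p ∣ d), 1 / (d.totient : ℝ)
      ≤ 1 / ((p : ℝ) - 1) * gMass Q y := by
  classical
  have hp1 : (0 : ℝ) < (p : ℝ) - 1 := by
    have : (1 : ℝ) < p := by exact_mod_cast hp.one_lt
    linarith
  have hmem : ∀ d ∈ (RD Q y).filter (fun d => p ∣ d), p ∈ d.primeFactors := by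
    intro d hd
    rw [mem_filter, mem_RD] at hd
    exact Nat.mem_primeFactors.2 ⟨hp, hd.2, by omega⟩
  have h1 : ∀ d ∈ (RD Q y).filter (fun d => p ∣ d),
      1 / (d.totient : ℝ) = 1 / ((p : ℝ) - 1) * (1 / ((d / p).totient : ℝ)) := by
    intro d hd
    have hd' := mem_filter.1 hd
    have hs := div_spec (mem_RD.1 hd'.1).2.1 (hmem d hd)
    have hcop : Nat.Coprime (d / p) p := ((Nat.Prime.coprime_iff_not_dvd hp).2 hs.2.2.1).symm
    have h2 : (d.totient : ℝ) = ((d / p).totient : ℝ) * ((p : ℝ) - 1) := by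
      conv_lhs => rw [← hs.1]
      rw [Nat.totient_mul hcop, Nat.totient_prime hp]
      push_cast [Nat.cast_sub hp.one_lt.le]
      ring
    rw [h2, mul_comm, one_div_mul_one_div]
  rw [sum_congr rfl h1, ← mul_sum]
  refine mul_le_mul_of_nonneg_left ?_ (by positivity)
  have hinj : Set.InjOn (fun d : ℕ => d / p) ((RD Q y).filter (fun d => p ∣ d) : Finset ℕ) := by
    intro a ha b hb hab
    have ha' := mem_filter.1 (mem_coe.1 ha)
    have hb' := mem_filter.1 (mem_coe.1 hb)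
    have h3 : a / p = b / p := hab
    rw [← Nat.div_mul_cancel ha'.2, ← Nat.div_mul_cancel hb'.2, h3]
  rw [← sum_image (f := fun e : ℕ => 1 / (e.totient : ℝ)) hinj]
  refine sum_le_sum_of_subset_of_nonneg ?_ (fun _ _ _ => by positivity)
  intro e he
  obtain ⟨d, hd, rfl⟩ := mem_image.1 he
  exact div_mem_RD (mem_filter.1 hd).1 (hmem d hd)

/-- the mass of the bad integers -/
private theorem goo_bad (Q y : ℕ) (t : ℝ) :
    ∑ d ∈ RD Q y, (∑ p ∈ d.primeFactors, (p : ℝ) ^ (-t)) * (1 / (d.totient : ℝ))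
      ≤ gMass Q y * ∑ p ∈ PPr y Q, (p : ℝ) ^ (-t) * (1 / ((p : ℝ) - 1)) := by
  classical
  have h1 : ∀ d ∈ RD Q y, (∑ p ∈ d.primeFactors, (p : ℝ) ^ (-t)) * (1 / (d.totient : ℝ))
      = ∑ p ∈ PPr y Q, if p ∣ d then (p : ℝ) ^ (-t) * (1 / (d.totient : ℝ)) else 0 := by
    intro d hd
    have hd' := mem_RD.1 hd
    rw [sum_mul, ← sum_filter]
    refine sum_congr ?_ fun _ _ => rfl
    ext p
    rw [mem_filter, mem_PPr, Nat.mem_primeFactors]
    constructor
    · rintro ⟨h2, h3, h4⟩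
      exact ⟨⟨⟨hd'.2.2 p (Nat.mem_primeFactors.2 ⟨h2, h3, h4⟩),
        (Nat.le_of_dvd (by omega) h3).trans hd'.1.2⟩, h2⟩, h3⟩
    · rintro ⟨⟨_, h2⟩, h3⟩
      exact ⟨h2, h3, by omega⟩
  rw [sum_congr rfl h1, sum_comm, mul_sum]
  refine sum_le_sum fun p hp => ?_
  rw [← sum_filter, ← mul_sum]
  have h2 := goo_one (Q := Q) (y := y) (mem_PPr.1 hp).2
  calc (p : ℝ) ^ (-t) * ∑ d ∈ (RD Q y).filter (fun d => p ∣ d), 1 / (d.totient : ℝ)
      ≤ (p : ℝ) ^ (-t) * (1 / ((p : ℝ) - 1) * gMass Q y) :=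
        mul_le_mul_of_nonneg_left h2 (Real.rpow_nonneg (Nat.cast_nonneg p) _)
    _ = _ := by ring

/-- the sum over the primes -/
private theorem goo_primes {C : ℝ} {y Q : ℕ} {t : ℝ} (hy : 3 ≤ y) (ht : 0 < t)
    (hC : ∑ p ∈ PPr y Q, Real.log p / p * (p : ℝ) ^ (-t) ≤ (1 / t + C) * (y : ℝ) ^ (-t)) :
    ∑ p ∈ PPr y Q, (p : ℝ) ^ (-t) * (1 / ((p : ℝ) - 1))
      ≤ 2 / Real.log y * ((1 / t + C) * (y : ℝ) ^ (-t)) := by
  have hy1 : (1 : ℝ) < y := by exact_mod_cast (by omega : 1 < y)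
  have hl : 0 < Real.log y := Real.log_pos hy1
  refine le_trans ?_ (mul_le_mul_of_nonneg_left hC (by positivity))
  rw [mul_sum]
  refine sum_le_sum fun p hp => ?_
  obtain ⟨⟨h1, _⟩, h2⟩ := mem_PPr.1 hp
  have h3 : (3 : ℝ) < p := by exact_mod_cast (by omega : 3 < p)
  have h4 : Real.log y ≤ Real.log p :=
    Real.log_le_log (by linarith) (by exact_mod_cast h1.le)
  have h5 : 1 / ((p : ℝ) - 1) ≤ 2 / Real.log y * (Real.log p / p) := by
    rw [div_mul_div_comm, div_le_div_iff₀ (by linarith) (by positivity)]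
    nlinarith
  calc (p : ℝ) ^ (-t) * (1 / ((p : ℝ) - 1))
      ≤ (p : ℝ) ^ (-t) * (2 / Real.log y * (Real.log p / p)) :=
        mul_le_mul_of_nonneg_left h5 (Real.rpow_nonneg (by linarith) _)
    _ = _ := by ring

/-- the mass of the good integers, one `y` -/
private theorem goo_core {Q y : ℕ} {t : ℝ} (ht : 0 ≤ t) (hQ : 1 ≤ Q)
    (h8 : ∑ p ∈ PPr y Q, (p : ℝ) ^ (-t) * (1 / ((p : ℝ) - 1)) ≤ 1 / 8) :
    3 / 4 * gMass Q y - 1 ≤
      ∑ d ∈ (RD Q y).filter (fun d => d ≠ 1 ∧ 1 / 2 ≤ Et t d), 1 / (d.totient : ℝ) := by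
  classical
  have hM : 0 ≤ gMass Q y := sum_nonneg fun _ _ => by positivity
  have h1 : ∀ d ∈ RD Q y, 1 / (d.totient : ℝ) ≤
      (if d ≠ 1 ∧ 1 / 2 ≤ Et t d then 1 / (d.totient : ℝ) else 0) +
      2 * ((∑ p ∈ d.primeFactors, (p : ℝ) ^ (-t)) * (1 / (d.totient : ℝ))) +
      (if d = 1 then 1 else 0) := by
    intro d _
    have hb : 0 ≤ ∑ p ∈ d.primeFactors, (p : ℝ) ^ (-t) :=
      sum_nonneg fun p _ => Real.rpow_nonneg (Nat.cast_nonneg p) _
    have hf : 0 ≤ 1 / (d.totient : ℝ) := by positivity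
    have h3 := goo_Et ht d
    by_cases hd1 : d = 1
    · subst hd1
      simp
    · by_cases hd2 : 1 / 2 ≤ Et t d
      · rw [if_pos ⟨hd1, hd2⟩, if_neg hd1]
        have := mul_nonneg hb hf
        linarith
      · rw [if_neg (fun h => hd2 h.2), if_neg hd1]
        rw [not_le] at hd2
        have h4 : 1 / 2 ≤ ∑ p ∈ d.primeFactors, (p : ℝ) ^ (-t) := by linarith
        nlinarith
  have h2 : gMass Q y ≤ _ := sum_le_sum h1
  rw [sum_add_distrib, sum_add_distrib, ← mul_sum, ← sum_filter, ← sum_filter] at h2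
  have h3 := goo_bad Q y t
  have h4 : gMass Q y * ∑ p ∈ PPr y Q, (p : ℝ) ^ (-t) * (1 / ((p : ℝ) - 1))
      ≤ gMass Q y * (1 / 8) := mul_le_mul_of_nonneg_left h8 hM
  have h5 : ∑ _d ∈ (RD Q y).filter (fun d => d = 1), (1 : ℝ) ≤ 1 := by
    rw [sum_const, nsmul_eq_mul, mul_one]
    have h6 : ((RD Q y).filter (fun d => d = 1)).card ≤ 1 := by
      rw [card_le_one]
      intro a ha b hb
      rw [(mem_filter.1 ha).2, (mem_filter.1 hb).2]
    exact_mod_cast h6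
  linarith

/-- the conditions on `n` -/
private theorem goo_large (A B : ℝ) : ∃ n0 : ℕ, ∀ n : ℕ, n0 ≤ n →
    A ≤ Real.log (Real.log n) ∧ B * Real.log (Real.log n) ≤ Real.log n := by
  have hlog : Filter.Tendsto (fun n : ℕ => Real.log (n : ℝ)) Filter.atTop Filter.atTop :=
    Real.tendsto_log_atTop.comp tendsto_natCast_atTop_atTop
  have h1 : ∀ᶠ x : ℝ in Filter.atTop, A ≤ Real.log x :=
    Real.tendsto_log_atTop.eventually_ge_atTop A
  have h2 : ∀ᶠ x : ℝ in Filter.atTop, B * Real.log x ≤ x := by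
    have h3 := (Real.isLittleO_log_id_atTop.def (c := 1 / (|B| + 1)) (by positivity))
    filter_upwards [h3, Filter.eventually_ge_atTop (1 : ℝ)] with x hx hx1
    simp only [id_eq, Real.norm_eq_abs] at hx
    rw [abs_of_nonneg (Real.log_nonneg hx1), abs_of_nonneg (by linarith : (0 : ℝ) ≤ x)] at hx
    have h4 : 0 < |B| + 1 := by positivity
    have h5 : (|B| + 1) * Real.log x ≤ x := by
      calc (|B| + 1) * Real.log x ≤ (|B| + 1) * (1 / (|B| + 1) * x) :=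
            mul_le_mul_of_nonneg_left hx h4.le
        _ = x := by field_simp
    have h6 : B * Real.log x ≤ (|B| + 1) * Real.log x :=
      mul_le_mul_of_nonneg_right (by linarith [le_abs_self B]) (Real.log_nonneg hx1)
    linarith
  have h3 := hlog.eventually (h1.and h2)
  obtain ⟨n0, hn0⟩ := Filter.eventually_atTop.1 h3
  exact ⟨n0, hn0⟩

theorem exists_good_mass : ∃ c : ℝ, 0 < c ∧ ∃ n0 : ℕ, ∀ n Q : ℕ, n0 ≤ n →
    Real.log n ≤ 3 * Real.log Q →
    c * Real.log n / Real.log (Real.log n) ≤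
      ∑ d ∈ (RD Q ⌈Real.log n⌉₊).filter
        (fun d => d ≠ 1 ∧ 1 / 2 ≤ Et (1 / (7 * Real.log (Real.log n))) d),
        1 / (d.totient : ℝ) := by
  classical
  obtain ⟨C, hC, HC⟩ := exists_rough_mass
  obtain ⟨C', hC', HC'⟩ := exists_weighted
  obtain ⟨n0, hn0⟩ := goo_large (max 1 C') (264 * C)
  refine ⟨1 / (132 * C), by positivity, n0, fun n Q hn hQ => ?_⟩
  obtain ⟨hA, hB⟩ := hn0 n hn
  obtain ⟨l, hl⟩ : ∃ l, l = Real.log n := ⟨_, rfl⟩
  rw [← hl] at hA hB hQ ⊢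
  obtain ⟨K, hK⟩ : ∃ K, K = Real.log l := ⟨_, rfl⟩
  rw [← hK] at hA hB ⊢
  have hK1 : 1 ≤ K := (le_max_left _ _).trans hA
  have hKC : C' ≤ K := (le_max_right _ _).trans hA
  have hK0 : 0 < K := by linarith
  have hlpos : 0 < l := by
    have : 0 < 264 * C * K := by positivity
    linarith
  have hl2 : 2 ≤ l := by
    have h1 : l = Real.exp K := by rw [hK, Real.exp_log hlpos]
    rw [h1]
    have h2 := Real.add_one_le_exp K
    linarith
  -- the number `y`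
  obtain ⟨y, hy⟩ : ∃ y : ℕ, y = ⌈l ^ 21⌉₊ := ⟨_, rfl⟩
  have hl21 : (2 : ℝ) ^ 21 ≤ l ^ 21 := pow_le_pow_left₀ (by norm_num) hl2 21
  have hyl : l ^ 21 ≤ (y : ℝ) := by
    rw [hy]
    exact Nat.le_ceil _
  have hyu : (y : ℝ) ≤ l ^ 22 := by
    rw [hy]
    have h1 := (Nat.ceil_lt_add_one (by positivity : (0 : ℝ) ≤ l ^ 21)).le
    have h2 : l ^ 22 = l * l ^ 21 := by rw [pow_succ' l 21]
    rw [h2]
    have h3 : (1 : ℝ) ≤ l ^ 21 := le_trans (by norm_num) hl21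
    nlinarith
  have hy3 : 3 ≤ y := by
    have h1 : ((3 : ℕ) : ℝ) ≤ (y : ℝ) := by
      refine le_trans ?_ hyl
      refine le_trans ?_ hl21
      norm_num
    exact_mod_cast h1
  have hy0 : (0 : ℝ) < y := by exact_mod_cast (by omega : 0 < y)
  have hlogy1 : 21 * K ≤ Real.log y := by
    rw [hK]
    have h1 := Real.log_le_log (by positivity : (0 : ℝ) < l ^ 21) hyl
    rw [Real.log_pow] at h1
    push_cast at h1
    exact h1
  have hlogy2 : Real.log y ≤ 22 * K := by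
    rw [hK]
    have h1 := Real.log_le_log hy0 hyu
    rw [Real.log_pow] at h1
    push_cast at h1
    exact h1
  have hwy : ⌈l⌉₊ ≤ y := by
    rw [hy]
    refine Nat.ceil_le_ceil ?_
    calc l = l ^ 1 := (pow_one l).symm
      _ ≤ l ^ 21 := pow_le_pow_right₀ (by linarith) (by norm_num)
  -- `Q`
  have hQ1 : 1 ≤ Q := by
    by_contra hcon
    have : Q = 0 := by omega
    subst this
    simp at hQ
    linarith
  -- the mass
  obtain ⟨M, hM⟩ : ∃ M, M = gMass Q y := ⟨_, rfl⟩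
  have hM0 : 0 ≤ M := by
    rw [hM]
    exact sum_nonneg fun _ _ => by positivity
  have hmass : l ≤ 66 * C * K * M := by
    have h1 : Real.log Q ≤ C * Real.log y * M := by
      rw [hM]
      exact HC Q y hQ1 hy3
    have h2 : C * Real.log y * M ≤ C * (22 * K) * M := by
      gcongr
    linarith
  have hM4 : 4 ≤ M := by
    have h1 : 264 * C * K ≤ 66 * C * K * M := hB.trans hmass
    have h2 : 0 < 66 * C * K := by positivity
    have h3 : 66 * C * K * 4 ≤ 66 * C * K * M := by linarith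
    exact le_of_mul_le_mul_left h3 h2
  -- the exponent
  obtain ⟨t, ht⟩ : ∃ t, t = 1 / (7 * K) := ⟨_, rfl⟩
  rw [← ht]
  have ht0 : 0 < t := by
    rw [ht]
    positivity
  have hit : 1 / t = 7 * K := by
    rw [ht, one_div_one_div]
  have hyt : (y : ℝ) ^ (-t) ≤ 1 / 8 := by
    rw [Real.rpow_def_of_pos hy0]
    have h1 : Real.log y * (-t) ≤ -3 := by
      have h2 : 21 * K * t ≤ Real.log y * t := mul_le_mul_of_nonneg_right hlogy1 ht0.le
      have h3 : 21 * K * t = 3 := by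
        rw [ht]
        field_simp
        norm_num
      linarith
    have h4 : Real.exp (-3) ≤ 1 / 8 := by
      rw [Real.exp_neg, inv_eq_one_div]
      refine one_div_le_one_div_of_le (by norm_num) ?_
      have h5 : Real.exp 3 = Real.exp 1 ^ 3 := by
        rw [← Real.exp_nat_mul]
        norm_num
      rw [h5]
      have h6 := Real.exp_one_gt_d9
      have h7 : (2 : ℝ) ^ 3 ≤ Real.exp 1 ^ 3 :=
        pow_le_pow_left₀ (by norm_num) (by linarith) 3
      linarith [h7, (by norm_num : (2 : ℝ) ^ 3 = 8)]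
    exact (Real.exp_le_exp.2 h1).trans h4
  have h8 : ∑ p ∈ PPr y Q, (p : ℝ) ^ (-t) * (1 / ((p : ℝ) - 1)) ≤ 1 / 8 := by
    refine (goo_primes hy3 ht0 (HC' y Q t hy3 ht0)).trans ?_
    rw [hit]
    have hyt0 : 0 ≤ (y : ℝ) ^ (-t) := Real.rpow_nonneg hy0.le _
    have h1 : 2 / Real.log y ≤ 2 / (21 * K) := by gcongr
    have h2 : (7 * K + C') * (y : ℝ) ^ (-t) ≤ (8 * K) * (1 / 8) := by
      have : 7 * K + C' ≤ 8 * K := by linarith
      gcongr
    calc 2 / Real.log y * ((7 * K + C') * (y : ℝ) ^ (-t))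
        ≤ 2 / (21 * K) * (8 * K * (1 / 8)) := by
          gcongr
      _ = 2 / 21 := by field_simp
      _ ≤ 1 / 8 := by norm_num
  have hcore := goo_core (Q := Q) (y := y) ht0.le hQ1 h8
  rw [← hM] at hcore
  -- comparison of the sums
  have hsub : ∑ d ∈ (RD Q y).filter (fun d => d ≠ 1 ∧ 1 / 2 ≤ Et t d), 1 / (d.totient : ℝ)
      ≤ ∑ d ∈ (RD Q ⌈l⌉₊).filter (fun d => d ≠ 1 ∧ 1 / 2 ≤ Et t d), 1 / (d.totient : ℝ) := by
    refine sum_le_sum_of_subset_of_nonneg ?_ (fun _ _ _ => by positivity)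
    intro d hd
    rw [mem_filter, mem_RD] at hd ⊢
    exact ⟨⟨hd.1.1, hd.1.2.1, fun p hp => lt_of_le_of_lt hwy (hd.1.2.2 p hp)⟩, hd.2⟩
  refine le_trans ?_ (hcore.trans hsub)
  have h9 : 1 / (132 * C) * l / K ≤ M / 2 := by
    rw [div_le_div_iff₀ hK0 (by norm_num), one_div, inv_mul_eq_div, div_mul_eq_mul_div,
      div_le_iff₀ (by positivity)]
    linarith
  linarith

end

end Pool.Agent.H1.FV
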