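import Pool.Agent.H1.FV.Arc

/-!
Multi-point Jensen inequality.

Proof. `N² = ∑ |a_i|²`, `f(θ) = |P(e^(iθ))|² / N²`, `Λ = log (N / M(P))`. `(1/2π) ∫_0^(2π) f = 1` (Parseval
`Polynomial.sum_sq_norm_coeff_eq_circleAverage`), `(1/2π) ∫_0^(2π) log f = 2 log M(P) - 2 log N = -2 Λ`
(`Polynomial.mahlerMeasure_def_of_ne_zero`, `logMahlerMeasure_def`, `circleAverage`; integrability
`intervalIntegrable_mahlerMeasure`). On the arc `J_i = [θ_i - δ_i, θ_i + δ_i]`, `δ_i = m_i / (21 n)`, `arc_bound` gives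
`|P| ≤ sqrt (n+1) N ((m_i/21)^(m_i) exp (m_i/21) / m_i!)`, and `m! ≥ (m/e)^m` (`m^m / m! ≤ exp m`), so the last factor
is `≤ exp (m (1 - log 21 + 1/21)) ≤ exp (-1.9 m)` (`log 21 > 3`), `sqrt (n+1) ≤ exp (m_i / 2)`: `|P| ≤ exp (-m_i) N`, i.e.
`f ≤ exp (-2 m_i)`. Everywhere `log f ≤ f - 1 ≤ f - 1` and hence pointwise (a.e.)
`log f ≤ (f - 1) + ∑_i 1_(J_i) (1 - 2 m_i)`: off the arcs `log f ≤ f - 1`; on `J_i`, `log f ≤ -2 m_i ≤ f - 1 + 1 - 2 m_i`.
Integrate: `-2 Λ * 2π ≤ 0 + ∑_i 2 δ_i (1 - 2 m_i) ≤ - ∑_i 2 δ_i m_i` (`m_i ≥ 1`), i.e. `∑ m_i² / (21 n) ≤ 2 π Λ`.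
(At a zero of `P`, `Real.log 0 = 0`; the pointwise inequality only has to hold a.e., the zeros form a finite set;
alternatively replace `log f` by `log` on the complement.)
-/

namespace Pool.Agent.H1.FV

open Polynomial Finset
open Pool.Agent.H35.V1 (Nm Gm PPr mem_PPr div_spec)

noncomputable section

/-- On the arc around a zero of multiplicity `m` the polynomial is at most `exp (-m)` times its
quadratic norm. -/
theorem jen_arc {n m : ℕ} (hn : 1 ≤ n) (P : ℂ[X]) (hdeg : P.natDegree ≤ n) (θ s : ℝ)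
    (hdvd : (X - C (Complex.exp (θ * Complex.I))) ^ m ∣ P) (hm : Real.log (n + 1) ≤ m)
    (hs : |s| ≤ (m : ℝ) / (21 * n)) :
    ‖P.eval (Complex.exp (((θ + s : ℝ) : ℂ) * Complex.I))‖
      ≤ Real.sqrt (∑ i ∈ P.support, ‖P.coeff i‖ ^ 2) * Real.exp (-m) := by
  have h := arc_bound P hdeg θ s hdvd
  refine h.trans ?_
  set N : ℝ := Real.sqrt (∑ i ∈ P.support, ‖P.coeff i‖ ^ 2) with hN
  have hN0 : 0 ≤ N := Real.sqrt_nonneg _
  have hn0 : (0 : ℝ) < n := by exact_mod_cast hn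
  have hns : (n : ℝ) * |s| ≤ m / 21 := by
    calc (n : ℝ) * |s| ≤ n * ((m : ℝ) / (21 * n)) := mul_le_mul_of_nonneg_left hs hn0.le
      _ = m / 21 := by field_simp
  have hns0 : 0 ≤ (n : ℝ) * |s| := mul_nonneg hn0.le (abs_nonneg s)
  have h1 : ((n : ℝ) * |s|) ^ m ≤ ((m : ℝ) / 21) ^ m := pow_le_pow_left₀ hns0 hns m
  have h2 : Real.exp (n * |s|) ≤ Real.exp ((m : ℝ) / 21) := Real.exp_le_exp.2 hns
  have hf0 : (0 : ℝ) < m.factorial := by exact_mod_cast Nat.factorial_pos m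
  have h3 : (m : ℝ) ^ m / m.factorial ≤ Real.exp m :=
    Real.pow_div_factorial_le_exp (m : ℝ) (Nat.cast_nonneg m) m
  have he3 : Real.exp 3 ≤ 21 := by
    have h4 : Real.exp 3 = Real.exp 1 ^ 3 := by
      rw [← Real.exp_nat_mul]
      norm_num
    have h5 := Real.exp_one_lt_d9
    have h6 : 0 ≤ Real.exp 1 := (Real.exp_pos 1).le
    rw [h4]
    calc Real.exp 1 ^ 3 ≤ 2.7182818286 ^ 3 := pow_le_pow_left₀ h6 h5.le 3
      _ ≤ 21 := by norm_num
  have h21 : Real.exp (3 * m) ≤ 21 ^ m := by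
    have : Real.exp (3 * m) = Real.exp 3 ^ m := by
      rw [← Real.exp_nat_mul]
      congr 1
      ring
    rw [this]
    exact pow_le_pow_left₀ (Real.exp_pos 3).le he3 m
  have h21' : ((21 : ℝ) ^ m)⁻¹ ≤ Real.exp (-(3 * m)) := by
    rw [Real.exp_neg]
    exact inv_anti₀ (Real.exp_pos _) h21
  have hsq : Real.sqrt (n + 1) ≤ Real.exp ((m : ℝ) / 2) := by
    rw [Real.sqrt_le_iff]
    refine ⟨(Real.exp_pos _).le, ?_⟩
    rw [← Real.exp_nat_mul]
    have : ((2 : ℕ) : ℝ) * ((m : ℝ) / 2) = m := by push_cast; ring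
    rw [this]
    calc (n : ℝ) + 1 = Real.exp (Real.log (n + 1)) := (Real.exp_log (by linarith)).symm
      _ ≤ Real.exp m := Real.exp_le_exp.2 hm
  have h7 : ((n : ℝ) * |s|) ^ m * Real.exp (n * |s|) / m.factorial
      ≤ Real.exp m * Real.exp (-(3 * m)) * Real.exp ((m : ℝ) / 21) := by
    calc ((n : ℝ) * |s|) ^ m * Real.exp (n * |s|) / m.factorial
        ≤ ((m : ℝ) / 21) ^ m * Real.exp ((m : ℝ) / 21) / m.factorial := by
          refine div_le_div_of_nonneg_right ?_ hf0.le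
          exact mul_le_mul h1 h2 (Real.exp_pos _).le (by positivity)
      _ = ((m : ℝ) ^ m / m.factorial) * ((21 : ℝ) ^ m)⁻¹ * Real.exp ((m : ℝ) / 21) := by
          rw [div_pow]
          field_simp
      _ ≤ Real.exp m * Real.exp (-(3 * m)) * Real.exp ((m : ℝ) / 21) := by
          refine mul_le_mul_of_nonneg_right ?_ (Real.exp_pos _).le
          exact mul_le_mul h3 h21' (by positivity) (Real.exp_pos _).le
  calc Real.sqrt (n + 1) * N * (((n : ℝ) * |s|) ^ m * Real.exp (n * |s|) / m.factorial)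
      ≤ Real.exp ((m : ℝ) / 2) * N *
        (Real.exp m * Real.exp (-(3 * m)) * Real.exp ((m : ℝ) / 21)) := by
        refine mul_le_mul (mul_le_mul_of_nonneg_right hsq hN0) h7 (by positivity) (by positivity)
    _ = N * Real.exp ((m : ℝ) / 2 + (m + (-(3 * m)) + (m : ℝ) / 21)) := by
        rw [Real.exp_add, Real.exp_add, Real.exp_add]
        ring
    _ ≤ N * Real.exp (-m) := by
        refine mul_le_mul_of_nonneg_left (Real.exp_le_exp.2 ?_) hN0
        have : (0 : ℝ) ≤ m := Nat.cast_nonneg m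
        linarith

theorem jensen_multi {ι : Type*} {n : ℕ} (hn : 1 ≤ n) (P : ℂ[X]) (hP : P ≠ 0)
    (hdeg : P.natDegree ≤ n) (S : Finset ι) (θ : ι → ℝ) (m : ι → ℕ)
    (hdvd : ∀ i ∈ S, (X - C (Complex.exp (θ i * Complex.I))) ^ m i ∣ P)
    (hm : ∀ i ∈ S, Real.log (n + 1) ≤ m i) (hm1 : ∀ i ∈ S, 1 ≤ m i)
    (h0 : ∀ i ∈ S, (m i : ℝ) / (21 * n) ≤ θ i)
    (h2 : ∀ i ∈ S, θ i + (m i : ℝ) / (21 * n) ≤ 2 * Real.pi)
    (hdisj : ∀ i ∈ S, ∀ j ∈ S, i ≠ j →
      (m i : ℝ) / (21 * n) + (m j : ℝ) / (21 * n) ≤ |θ i - θ j|) :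
    ∑ i ∈ S, ((m i : ℝ)) ^ 2
      ≤ 42 * Real.pi * n
        * Real.log (Real.sqrt (∑ i ∈ P.support, ‖P.coeff i‖ ^ 2) / P.mahlerMeasure) := by
  classical
  have hn0 : (0 : ℝ) < n := by exact_mod_cast hn
  have hpi : 0 < Real.pi := Real.pi_pos
  obtain ⟨T, hT⟩ : ∃ T : ℝ, T = 2 * Real.pi := ⟨_, rfl⟩
  have hT0 : 0 < T := by rw [hT]; positivity
  obtain ⟨N2, hN2⟩ : ∃ N2 : ℝ, N2 = ∑ i ∈ P.support, ‖P.coeff i‖ ^ 2 := ⟨_, rfl⟩
  have hN2pos : 0 < N2 := by
    rw [hN2]
    refine Finset.sum_pos (fun i hi => ?_) (by simpa using hP)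
    have := Polynomial.mem_support_iff.1 hi
    positivity
  have hMpos : 0 < P.mahlerMeasure := mahlerMeasure_pos_of_ne_zero hP
  obtain ⟨δ, hδ⟩ : ∃ δ : ι → ℝ, δ = fun i => (m i : ℝ) / (21 * n) := ⟨_, rfl⟩
  have hδi : ∀ i, (m i : ℝ) / (21 * n) = δ i := fun i => by rw [hδ]
  simp only [hδi] at h0 h2 hdisj
  have hδpos : ∀ i ∈ S, 0 < δ i := by
    intro i hi
    rw [← hδi]
    have : (0 : ℝ) < m i := by exact_mod_cast hm1 i hi
    positivity
  obtain ⟨f, hf⟩ : ∃ f : ℝ → ℝ, f = fun x => ‖P.eval (circleMap 0 1 x)‖ := ⟨_, rfl⟩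
  have hfc : Continuous f := by
    rw [hf]
    exact (P.continuous.comp (continuous_circleMap 0 1)).norm
  have hf0 : ∀ x, 0 ≤ f x := fun x => by rw [hf]; exact norm_nonneg _
  have hI1 : ∫ x in (0 : ℝ)..T, Real.log (f x) = T * Real.log P.mahlerMeasure := by
    have h := mahlerMeasure_def_of_ne_zero hP
    rw [h, Real.log_exp, hf, hT]
    field_simp
  have hI2 : ∫ x in (0 : ℝ)..T, f x ^ 2 = T * N2 := by
    have h := P.sum_sq_norm_coeff_eq_circleAverage
    rw [Real.circleAverage_def, smul_eq_mul] at h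
    rw [hN2, h, hf, hT]
    field_simp
  have hint1 : IntervalIntegrable (fun x => Real.log (f x)) MeasureTheory.volume 0 T := by
    rw [hf, hT]
    exact P.intervalIntegrable_mahlerMeasure
  have hsub : ∀ i ∈ S, Set.Ioc (θ i - δ i) (θ i + δ i) ⊆ Set.Ioc 0 T := by
    intro i hi
    refine Set.Ioc_subset_Ioc ?_ ?_
    · have := h0 i hi
      linarith
    · rw [hT]
      exact h2 i hi
  -- the pointwise inequality
  have hpt : ∀ x, f x ≠ 0 → 2 * Real.log (f x) ≤ (Real.log N2 + (f x ^ 2 / N2 - 1)) +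
      ∑ i ∈ S, (Set.Ioc (θ i - δ i) (θ i + δ i)).indicator
        (fun _ => (1 : ℝ) - 2 * m i) x := by
    intro x hx
    have hfx : 0 < f x := lt_of_le_of_ne (hf0 x) (Ne.symm hx)
    have hlog : 2 * Real.log (f x) = Real.log N2 + Real.log (f x ^ 2 / N2) := by
      rw [Real.log_div (by positivity) hN2pos.ne', Real.log_pow]
      push_cast
      ring
    by_cases hex : ∃ i ∈ S, x ∈ Set.Ioc (θ i - δ i) (θ i + δ i)
    · obtain ⟨i, hi, hxi⟩ := hex
      have hsum : ∑ j ∈ S, (Set.Ioc (θ j - δ j) (θ j + δ j)).indicator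
          (fun _ => (1 : ℝ) - 2 * m j) x = 1 - 2 * m i := by
        rw [Finset.sum_eq_single_of_mem i hi]
        · rw [Set.indicator_of_mem hxi]
        · intro j hj hji
          rw [Set.indicator_of_notMem]
          intro hxj
          have h3 := hdisj i hi j hj (Ne.symm hji)
          obtain ⟨h4, h5⟩ := hxi
          obtain ⟨h6, h7⟩ := hxj
          have h8 := hδpos i hi
          have h9 := hδpos j hj
          rcases abs_cases (θ i - θ j) with ⟨h10, h11⟩ | ⟨h10, h11⟩ <;> rw [h10] at h3 <;> linarith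
      rw [hsum]
      have harc := jen_arc hn P hdeg (θ i) (x - θ i) (hdvd i hi) (hm i hi) (by
        rw [hδi, abs_le]
        obtain ⟨h4, h5⟩ := hxi
        constructor <;> linarith)
      have hfx' : ‖P.eval (Complex.exp (((θ i + (x - θ i) : ℝ) : ℂ) * Complex.I))‖ = f x := by
        rw [hf]
        simp [circleMap]
      rw [hfx', ← hN2] at harc
      have hl2 : Real.log (f x) ≤ Real.log N2 / 2 - m i := by
        have h3 := Real.log_le_log hfx harc
        rw [Real.log_mul (Real.sqrt_pos.2 hN2pos).ne' (Real.exp_pos _).ne', Real.log_exp,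
          Real.log_sqrt hN2pos.le] at h3
        linarith
      have h4 : 0 ≤ f x ^ 2 / N2 := by positivity
      linarith
    · have hsum : ∑ j ∈ S, (Set.Ioc (θ j - δ j) (θ j + δ j)).indicator
          (fun _ => (1 : ℝ) - 2 * m j) x = 0 := by
        refine Finset.sum_eq_zero fun j hj => ?_
        rw [Set.indicator_of_notMem]
        exact fun hxj => hex ⟨j, hj, hxj⟩
      rw [hsum, add_zero, hlog]
      have := Real.log_le_sub_one_of_pos (show 0 < f x ^ 2 / N2 by positivity)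
      linarith
  -- integrate
  have hae : ∀ᵐ x ∂(MeasureTheory.volume.restrict (Set.Ioc (0 : ℝ) T)), f x ≠ 0 := by
    have hfin : ({z : ℂ | P.eval z = 0}).Countable := by
      have : {z : ℂ | P.eval z = 0} = (P.roots.toFinset : Set ℂ) := by
        ext z
        simp [hP]
      rw [this]
      exact (Finset.finite_toSet _).countable
    have hc := hfin.preimage_circleMap 0 (one_ne_zero : (1 : ℝ) ≠ 0)
    refine MeasureTheory.ae_restrict_of_ae ?_
    filter_upwards [hc.ae_notMem MeasureTheory.volume] with x hx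
    intro hfx
    apply hx
    rw [hf] at hfx
    simpa using hfx
  have hintc : MeasureTheory.Integrable (fun x => Real.log N2 + (f x ^ 2 / N2 - 1))
      (MeasureTheory.volume.restrict (Set.Ioc (0 : ℝ) T)) := by
    have : Continuous fun x => Real.log N2 + (f x ^ 2 / N2 - 1) := by fun_prop
    exact (this.intervalIntegrable 0 T).1
  have hinti : ∀ i ∈ S, MeasureTheory.Integrable
      ((Set.Ioc (θ i - δ i) (θ i + δ i)).indicator (fun _ => (1 : ℝ) - 2 * m i))
      (MeasureTheory.volume.restrict (Set.Ioc (0 : ℝ) T)) := fun i _ =>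
    (MeasureTheory.integrable_const _).indicator measurableSet_Ioc
  have hints : MeasureTheory.Integrable
      (fun x => ∑ i ∈ S, (Set.Ioc (θ i - δ i) (θ i + δ i)).indicator
        (fun _ => (1 : ℝ) - 2 * m i) x)
      (MeasureTheory.volume.restrict (Set.Ioc (0 : ℝ) T)) :=
    MeasureTheory.integrable_finsetSum S hinti
  have hmono : ∫ x in Set.Ioc 0 T, 2 * Real.log (f x) ≤
      ∫ x in Set.Ioc 0 T, ((Real.log N2 + (f x ^ 2 / N2 - 1)) +
      ∑ i ∈ S, (Set.Ioc (θ i - δ i) (θ i + δ i)).indicator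
        (fun _ => (1 : ℝ) - 2 * m i) x) := by
    refine MeasureTheory.integral_mono_ae (hint1.1.const_mul 2) (hintc.add hints) ?_
    filter_upwards [hae] with x hx
    exact hpt x hx
  have hL : ∫ x in Set.Ioc 0 T, 2 * Real.log (f x) = 2 * (T * Real.log P.mahlerMeasure) := by
    rw [MeasureTheory.integral_const_mul, ← intervalIntegral.integral_of_le hT0.le, hI1]
  have hR1 : ∫ x in Set.Ioc 0 T, (Real.log N2 + (f x ^ 2 / N2 - 1)) = T * Real.log N2 := by
    rw [← intervalIntegral.integral_of_le hT0.le]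
    have hi2 : IntervalIntegrable (fun x => f x ^ 2 / N2) MeasureTheory.volume 0 T :=
      (by fun_prop : Continuous fun x => f x ^ 2 / N2).intervalIntegrable 0 T
    rw [intervalIntegral.integral_add (by simp) (hi2.sub (by simp)),
      intervalIntegral.integral_sub hi2 (by simp), intervalIntegral.integral_div, hI2]
    simp only [intervalIntegral.integral_const, smul_eq_mul, sub_zero, mul_one]
    field_simp
    ring
  have hR2 : ∫ x in Set.Ioc 0 T, (∑ i ∈ S, (Set.Ioc (θ i - δ i) (θ i + δ i)).indicator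
        (fun _ => (1 : ℝ) - 2 * m i) x) = ∑ i ∈ S, 2 * δ i * (1 - 2 * m i) := by
    rw [MeasureTheory.integral_finsetSum S hinti]
    refine Finset.sum_congr rfl fun i hi => ?_
    rw [MeasureTheory.setIntegral_indicator measurableSet_Ioc,
      Set.inter_eq_self_of_subset_right (hsub i hi), MeasureTheory.setIntegral_const,
      Real.volume_real_Ioc_of_le (by have := hδpos i hi; linarith), smul_eq_mul]
    ring
  rw [hL, MeasureTheory.integral_add hintc hints, hR1, hR2] at hmono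
  have hsumle : ∑ i ∈ S, 2 * δ i * (1 - 2 * m i) ≤ - ∑ i ∈ S, 2 * δ i * m i := by
    rw [← Finset.sum_neg_distrib]
    refine Finset.sum_le_sum fun i hi => ?_
    have h3 := hδpos i hi
    have h4 : (1 : ℝ) ≤ m i := by exact_mod_cast hm1 i hi
    nlinarith
  have hsumeq : ∑ i ∈ S, 2 * δ i * m i = (2 / (21 * n)) * ∑ i ∈ S, (m i : ℝ) ^ 2 := by
    rw [Finset.mul_sum]
    refine Finset.sum_congr rfl fun i _ => ?_
    rw [← hδi]
    field_simp
  rw [← hN2, Real.log_div (Real.sqrt_pos.2 hN2pos).ne' hMpos.ne', Real.log_sqrt hN2pos.le]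
  rw [hsumeq] at hsumle
  have hfin : (2 / (21 * n)) * ∑ i ∈ S, (m i : ℝ) ^ 2 ≤
      T * (Real.log N2 - 2 * Real.log P.mahlerMeasure) := by linarith
  have h5 : ∑ i ∈ S, (m i : ℝ) ^ 2 = (21 * n / 2) * ((2 / (21 * n)) * ∑ i ∈ S, (m i : ℝ) ^ 2) := by
    field_simp
  rw [h5]
  calc (21 * n / 2 : ℝ) * ((2 / (21 * n)) * ∑ i ∈ S, (m i : ℝ) ^ 2)
      ≤ (21 * n / 2) * (T * (Real.log N2 - 2 * Real.log P.mahlerMeasure)) :=
        mul_le_mul_of_nonneg_left hfin (by positivity)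
    _ = 42 * Real.pi * n * (Real.log N2 / 2 - Real.log P.mahlerMeasure) := by
        rw [hT]
        ring


end

end Pool.Agent.H1.FV
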