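import Pool.Agent.H1.FV.Defs

/-!
Farey separation and the size of `φ(d)`.

Proofs. (1) `φ(d) = ∏ (p - 1)` (`totient_sq` of `H35.V1.Total`), `d = ∏ p`, `log (d / φ(d)) = ∑ log (p/(p-1)) ≤ ∑ 1/(p-1)
≤ ∑ log p / (p - 1) ≤ 1` (`delta_le` with `W = w`, `log p ≥ 1` for `p > w ≥ 3`), `exp 1 ≤ 3`.
(2) `|a/d - b/e| = |a e - b d| / (d e) ≥ 1/(d e)`. (3) reduced fractions in `[0,1)` are equal only if
numerators and denominators are equal.
-/

namespace Pool.Agent.H1.FV

open Polynomial Finset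
open Pool.Agent.H35.V1 (Nm Gm PPr mem_PPr div_spec)

noncomputable section


theorem le_totient {Q w d : ℕ} (hw : 3 ≤ w) (hQw : Real.log Q ≤ w) (hd : d ∈ RD Q w) :
    (d : ℝ) ≤ 3 * d.totient := by
  obtain ⟨⟨hd1, hdQ⟩, hsq, hp⟩ := mem_RD.1 hd
  have hlog : Real.log d ≤ w := by
    refine le_trans (Real.log_le_log ?_ ?_) hQw
    · exact_mod_cast hd1
    · exact_mod_cast hdQ
  have hδ := Pool.Agent.H35.V1.delta_le hsq (by omega : 0 < w) hp hlog
  have hφ := Pool.Agent.H35.V1.totient_sq hsq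
  have hdp : (d : ℝ) = ∏ p ∈ d.primeFactors, (p : ℝ) := by
    have h := Nat.prod_primeFactors_of_squarefree hsq
    calc (d : ℝ) = ((∏ i ∈ d.primeFactors, i : ℕ) : ℝ) := by rw [h]
      _ = _ := by push_cast; rfl
  have hp3 : ∀ p ∈ d.primeFactors, (4 : ℝ) ≤ p := by
    intro p hpp
    have := hp p hpp
    exact_mod_cast (by omega : 4 ≤ p)
  have h1 : ∏ p ∈ d.primeFactors, (p : ℝ)
      = (∏ p ∈ d.primeFactors, (1 + 1 / ((p : ℝ) - 1))) * ∏ p ∈ d.primeFactors, ((p : ℝ) - 1) := by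
    rw [← prod_mul_distrib]
    apply prod_congr rfl
    intro p hpp
    have := hp3 p hpp
    have h2 : (p : ℝ) - 1 ≠ 0 := by linarith
    field_simp
    ring
  have h2 : ∏ p ∈ d.primeFactors, (1 + 1 / ((p : ℝ) - 1)) ≤ Real.exp 1 := by
    calc ∏ p ∈ d.primeFactors, (1 + 1 / ((p : ℝ) - 1))
        ≤ ∏ p ∈ d.primeFactors, Real.exp (Real.log p / ((p : ℝ) - 1)) := by
          apply prod_le_prod
          · intro p hpp
            have := hp3 p hpp
            have : (0 : ℝ) ≤ 1 / ((p : ℝ) - 1) := by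
              apply div_nonneg zero_le_one
              linarith
            linarith
          · intro p hpp
            have h4 := hp3 p hpp
            have h5 : (1 : ℝ) ≤ Real.log p := by
              rw [Real.le_log_iff_exp_le (by linarith)]
              have := Real.exp_one_lt_d9
              linarith
            have h6 : (1 : ℝ) / ((p : ℝ) - 1) ≤ Real.log p / ((p : ℝ) - 1) := by
              apply div_le_div_of_nonneg_right h5
              linarith
            have h7 := Real.add_one_le_exp (Real.log p / ((p : ℝ) - 1))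
            linarith
      _ = Real.exp (∑ p ∈ d.primeFactors, Real.log p / ((p : ℝ) - 1)) := by
          rw [Real.exp_sum]
      _ ≤ Real.exp 1 := Real.exp_le_exp.2 hδ
  have h3 : Real.exp 1 ≤ 3 := by
    have := Real.exp_one_lt_d9
    linarith
  have h4 : (0 : ℝ) ≤ ∏ p ∈ d.primeFactors, ((p : ℝ) - 1) := by
    apply prod_nonneg
    intro p hpp
    have := hp3 p hpp
    linarith
  rw [hφ]
  calc (d : ℝ) = (∏ p ∈ d.primeFactors, (1 + 1 / ((p : ℝ) - 1)))
        * ∏ p ∈ d.primeFactors, ((p : ℝ) - 1) := by rw [hdp, h1]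
    _ ≤ 3 * ∏ p ∈ d.primeFactors, ((p : ℝ) - 1) :=
        mul_le_mul_of_nonneg_right (h2.trans h3) h4

theorem sep {a b d e : ℕ} (hd : 0 < d) (he : 0 < e) (hne : a * e ≠ b * d) :
    2 * Real.pi / ((d : ℝ) * e)
      ≤ |2 * Real.pi * ((a : ℝ) / d) - 2 * Real.pi * ((b : ℝ) / e)| := by
  have hd' : (0 : ℝ) < d := by exact_mod_cast hd
  have he' : (0 : ℝ) < e := by exact_mod_cast he
  have h1 : 2 * Real.pi * ((a : ℝ) / d) - 2 * Real.pi * ((b : ℝ) / e)
      = 2 * Real.pi / ((d : ℝ) * e) * ((a : ℝ) * e - b * d) := by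
    field_simp
  have h2 : (1 : ℝ) ≤ |(a : ℝ) * e - b * d| := by
    have h3 : ((a * e : ℕ) : ℤ) - ((b * d : ℕ) : ℤ) ≠ 0 := by
      intro h
      apply hne
      exact_mod_cast sub_eq_zero.1 h
    have h4 := Int.one_le_abs h3
    have h5 : (1 : ℝ) ≤ ((|((a * e : ℕ) : ℤ) - ((b * d : ℕ) : ℤ)| : ℤ) : ℝ) := by
      exact_mod_cast h4
    push_cast at h5
    exact h5
  have h3 : (0 : ℝ) < 2 * Real.pi / ((d : ℝ) * e) := by
    have := Real.pi_pos
    positivity
  rw [h1, abs_mul, abs_of_pos h3]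
  exact le_mul_of_one_le_right h3.le h2

theorem frac_ne {a b d e : ℕ} (hd : 0 < d) (he : 0 < e) (ha : Nat.Coprime a d)
    (hb : Nat.Coprime b e) (hne : ¬ (d = e ∧ a = b)) : a * e ≠ b * d := by
  intro h
  apply hne
  have h1 : d ∣ e := ha.symm.dvd_of_dvd_mul_left (Dvd.intro_left b h.symm)
  have h2 : e ∣ d := hb.symm.dvd_of_dvd_mul_left (Dvd.intro_left a h)
  have h3 : d = e := Nat.dvd_antisymm h1 h2
  refine ⟨h3, ?_⟩
  rw [h3] at h
  exact Nat.eq_of_mul_eq_mul_right he h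


end

end Pool.Agent.H1.FV
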