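import Pool.Agent.H1.FV.Forced
import Pool.Agent.H1.FV.Goo
import Pool.Agent.H1.FV.Jen
import Pool.Agent.H1.FV.Sep

/-!
The main inequality for large `n`.

Proof. `ℓ = log n`, `LL = log ℓ`, `Q = ⌊K/ℓ³⌋₊`, `w = ⌈ℓ⌉₊`, `D` = the filtered set of `exists_good_mass`
(`ℓ ≤ 3 log Q` etc. from `exists_par 0 0`). For `d ∈ D` put `M d = ⌈(1/100) K / (φ(d) LL)⌉₊`; by `forced`
`Φ_d ^ (M d) ∣ p`. Index set `S = D.sigma (fun d => (range d).filter (Nat.Coprime · d))` (or pairs),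
`θ (d, a) = 2 π (a / d)`, `P = p.map (Int.castRingHom ℂ)`. `exp (θ I)` is a primitive `d`-th root of unity
(`Complex.isPrimitiveRoot_exp_of_coprime`), so `X - C _ ∣ cyclotomic d ℂ` and its `M d`-th power divides `P`.
`x_d = (1/100) K / (φ(d) LL) ≥ (1/100) ℓ³ / LL ≥ log (n+1) + 1` for large `n` (as `φ(d) ≤ Q ≤ K/ℓ³`), `x_d ≤ M d ≤ 2 x_d ≤ K / φ(d) ≤ 3 K / d`
(`le_totient`). With `δ_d = M d / (21 n) ≤ K / (7 n d)`: `a ≥ 1` (as `d ≠ 1`), `δ_d ≤ 2 π / d ≤ θ` and `θ + δ_d ≤ 2 π` since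
`θ ≤ 2 π - 2 π / d`; for two different indices `δ_d + δ_e ≤ (K/(7 n)) (d + e)/(d e) ≤ (2 K Q / (7 n)) / (d e) ≤ 2 π / (d e)`
(`K Q ≤ K² ≤ n`; `sep`, `frac_ne`). `jensen_multi`: `∑_(d,a) (M d)² = ∑_d φ(d) (M d)² ≥ ∑_d φ(d) x_d² = (1/100)² (K²/LL²) ∑_d 1/φ(d)
≥ (1/100)² (K²/LL²) c ℓ / LL`. Hence the claim with `C = 42 π * 10^4 / c`.
-/

namespace Pool.Agent.H1.FV

open Polynomial Finset
open Pool.Agent.H35.V1 (Nm Gm PPr mem_PPr div_spec)

noncomputable section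

private theorem Fin_ev : ∃ n0 : ℕ, ∀ n : ℕ, n0 ≤ n →
    100 * Real.log (Real.log n) * (Real.log (n + 1) + 1) ≤ Real.log n ^ 3 := by
  have h1 : Filter.Tendsto (fun n : ℕ => Real.log (n : ℝ)) Filter.atTop Filter.atTop :=
    Real.tendsto_log_atTop.comp tendsto_natCast_atTop_atTop
  obtain ⟨n0, hn0⟩ := Filter.eventually_atTop.1 (h1.eventually_ge_atTop 300)
  refine ⟨max n0 2, fun n hn => ?_⟩
  have h2 : 300 ≤ Real.log n := hn0 n ((le_max_left _ _).trans hn)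
  have hn2 : 2 ≤ n := (le_max_right _ _).trans hn
  have hnr : (2 : ℝ) ≤ n := by exact_mod_cast hn2
  have h3 : Real.log (n + 1) ≤ Real.log n + 1 := by
    have h4 : (n : ℝ) + 1 ≤ n * Real.exp 1 := by
      have := Real.add_one_le_exp (1 : ℝ)
      nlinarith
    calc Real.log (n + 1) ≤ Real.log (n * Real.exp 1) := Real.log_le_log (by linarith) h4
      _ = Real.log n + 1 := by rw [Real.log_mul (by linarith) (Real.exp_pos 1).ne', Real.log_exp]
  obtain ⟨L, hL⟩ : ∃ L, L = Real.log (n : ℝ) := ⟨_, rfl⟩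
  rw [← hL] at h2 h3 ⊢
  have h5 : Real.log L ≤ L - 1 := Real.log_le_sub_one_of_pos (by linarith)
  have h6 : 0 ≤ Real.log L := Real.log_nonneg (by linarith)
  calc 100 * Real.log L * (Real.log (n + 1) + 1) ≤ 100 * Real.log L * (L + 2) := by
        apply mul_le_mul_of_nonneg_left _ (by positivity)
        linarith
    _ ≤ 100 * (L - 1) * (L + 2) := by
        apply mul_le_mul_of_nonneg_right _ (by linarith)
        linarith
    _ ≤ L ^ 3 := by
        have h7 : 0 ≤ (L - 300) * L ^ 2 := mul_nonneg (by linarith) (by positivity)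
        have h8 : 0 ≤ (L - 300) * L := mul_nonneg (by linarith) (by linarith)
        have h9 : (L - 300) * L ^ 2 = L ^ 3 - 300 * L ^ 2 := by ring
        have h10 : (L - 300) * L = L ^ 2 - 300 * L := by ring
        have h11 : 100 * (L - 1) * (L + 2) = 100 * L ^ 2 + 100 * L - 200 := by ring
        have h12 : 0 ≤ L ^ 2 := by positivity
        linarith

private theorem Fin_dvd {p : ℤ[X]} {d a M : ℕ} (hd : 0 < d) (ha : Nat.Coprime a d)
    (h : (cyclotomic d ℤ) ^ M ∣ p) :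
    (X - C (Complex.exp (((2 * Real.pi * ((a : ℝ) / d) : ℝ) : ℂ) * Complex.I))) ^ M
      ∣ p.map (Int.castRingHom ℂ) := by
  have h1 : IsPrimitiveRoot (Complex.exp (((2 * Real.pi * ((a : ℝ) / d) : ℝ) : ℂ) * Complex.I)) d := by
    have h2 := Complex.isPrimitiveRoot_exp_of_coprime a d (by omega) ha
    have h3 : ((2 * Real.pi * ((a : ℝ) / d) : ℝ) : ℂ) * Complex.I
        = 2 * Real.pi * Complex.I * ((a : ℂ) / (d : ℂ)) := by
      push_cast
      ring
    rw [h3]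
    exact h2
  have h2 : (X - C (Complex.exp (((2 * Real.pi * ((a : ℝ) / d) : ℝ) : ℂ) * Complex.I)))
      ∣ cyclotomic d ℂ := by
    rw [dvd_iff_isRoot]
    exact h1.isRoot_cyclotomic hd
  have h3 : (cyclotomic d ℂ) ^ M ∣ p.map (Int.castRingHom ℂ) := by
    have h4 := Polynomial.map_dvd (Int.castRingHom ℂ) h
    rw [Polynomial.map_pow, map_cyclotomic] at h4
    exact h4
  exact (pow_dvd_pow_of_dvd h2 M).trans h3

private theorem Fin_norm (p : ℤ[X]) :
    ∑ i ∈ (p.map (Int.castRingHom ℂ)).support, ‖(p.map (Int.castRingHom ℂ)).coeff i‖ ^ 2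
      = ∑ i ∈ p.support, (p.coeff i : ℝ) ^ 2 := by
  rw [support_map_of_injective p (RingHom.injective_int (Int.castRingHom ℂ))]
  apply sum_congr rfl
  intro i _
  rw [coeff_map]
  have h1 : (Int.castRingHom ℂ) (p.coeff i) = (((p.coeff i : ℤ) : ℝ) : ℂ) := by simp
  rw [h1, Complex.norm_real, Real.norm_eq_abs, sq_abs]

theorem big : ∃ C : ℝ, 0 < C ∧ ∃ n0 : ℕ, ∀ n : ℕ, n0 ≤ n → ∀ K : ℕ,
    (n : ℝ) ≤ (K : ℝ) ^ 2 * Real.log n → K ^ 2 ≤ n →
    ∀ p : ℤ[X], p ≠ 0 → p.natDegree ≤ n → (∀ i, |p.coeff i| ≤ 1) → (X - 1 : ℤ[X]) ^ K ∣ p →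
    (K : ℝ) ^ 2 * Real.log n ≤ C * n * Real.log (Real.log n) ^ 3
      * Real.log (Real.sqrt (∑ i ∈ p.support, (p.coeff i : ℝ) ^ 2)
        / (p.map (Int.castRingHom ℂ)).mahlerMeasure) := by
  obtain ⟨c, hc, n1, hgood⟩ := exists_good_mass
  obtain ⟨n2, hforced⟩ := forced
  obtain ⟨n3, hpar⟩ := exists_par 0 0 le_rfl le_rfl
  obtain ⟨n4, hev⟩ := Fin_ev
  refine ⟨42 * Real.pi * 10 ^ 4 / c, by positivity, max (max n1 n2) (max n3 n4), ?_⟩
  intro n hn K hK1 hK2 p hp hdeg hcoef hdvd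
  simp only [max_le_iff] at hn
  obtain ⟨⟨hn1, hn2⟩, hn3, hn4⟩ := hn
  have P := hpar n hn3 K hK1 hK2
  have hev := hev n hn4
  have hF := hforced n hn2 K hK1 hK2 p hp hdeg hcoef hdvd
  have hG := hgood n ⌊(K : ℝ) / Real.log n ^ 3⌋₊ hn1 P.hQl
  have hl := P.hl
  have hLL := P.hLL
  have hQw := P.hQw
  have hw := P.hw
  have hn3' : 3 ≤ n := P.hn
  have hK : 1 ≤ K := P.hK
  clear P hpar hgood hforced
  obtain ⟨Q, hQ⟩ : ∃ Q, Q = ⌊(K : ℝ) / Real.log n ^ 3⌋₊ := ⟨_, rfl⟩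
  obtain ⟨w, hw'⟩ : ∃ w, w = ⌈Real.log n⌉₊ := ⟨_, rfl⟩
  obtain ⟨L, hL⟩ : ∃ L, L = Real.log (n : ℝ) := ⟨_, rfl⟩
  obtain ⟨LL, hLL'⟩ : ∃ LL, LL = Real.log L := ⟨_, rfl⟩
  have hnr : (3 : ℝ) ≤ n := by exact_mod_cast hn3'
  have hn0 : (0 : ℝ) < n := by linarith
  have hKr : (1 : ℝ) ≤ K := by exact_mod_cast hK
  have hK0 : (0 : ℝ) < K := by linarith
  rw [← hQ, ← hw'] at hF hG hQw
  rw [← hw'] at hw
  rw [← hL, ← hLL'] at hF hG hev
  rw [← hL] at hl hQ ⊢
  rw [← hL, ← hLL'] at hLL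
  rw [← hLL']
  have hL0 : 0 < L := by linarith
  have hLL0 : 0 < LL := by linarith
  have hQK : (Q : ℝ) ≤ K / L ^ 3 := by
    rw [hQ]
    exact Nat.floor_le (by positivity)
  have hL3 : 1 ≤ L ^ 3 := one_le_pow₀ (by linarith)
  have hQK2 : (Q : ℝ) ≤ K := hQK.trans (div_le_self hK0.le hL3)
  have hKK : (K : ℝ) * K ≤ n := by
    have : ((K ^ 2 : ℕ) : ℝ) ≤ n := by exact_mod_cast hK2
    push_cast at this
    linarith
  have hKn : (K : ℝ) ≤ n := by nlinarith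
  obtain ⟨D, hD⟩ : ∃ D, D = (RD Q w).filter (fun d => d ≠ 1 ∧ 1 / 2 ≤ Et (1 / (7 * LL)) d) := ⟨_, rfl⟩
  rw [← hD] at hG
  obtain ⟨M, hM⟩ : ∃ M : ℕ → ℕ, M = fun d => ⌈1 / 100 * K / (d.totient * LL)⌉₊ := ⟨_, rfl⟩
  have hDm : ∀ d ∈ D, d ∈ RD Q w ∧ d ≠ 1 ∧ 1 / 2 ≤ Et (1 / (7 * LL)) d := by
    intro d hd
    rw [hD, mem_filter] at hd
    exact hd
  -- the sizes
  have hsize : ∀ d ∈ D, 0 < d ∧ (d : ℝ) ≤ Q ∧ (0 : ℝ) < d.totient ∧
      Real.log (n + 1) + 1 ≤ 1 / 100 * K / (d.totient * LL) ∧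
      1 / 100 * K / (d.totient * LL) ≤ M d ∧ (M d : ℝ) / (21 * n) ≤ K / (7 * n * d) := by
    intro d hd
    obtain ⟨hd1, hd2, hd3⟩ := hDm d hd
    have hd4 := (mem_RD.1 hd1).1
    have hd0 : 0 < d := hd4.1
    have hdr : (0 : ℝ) < d := by exact_mod_cast hd0
    have hdQ : (d : ℝ) ≤ Q := by exact_mod_cast hd4.2
    have hφ : (0 : ℝ) < d.totient := by exact_mod_cast Nat.totient_pos.2 hd0
    have hφd : (d.totient : ℝ) ≤ d := by exact_mod_cast Nat.totient_le d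
    have h3φ := le_totient hw hQw hd1
    have hlog : 0 ≤ Real.log ((n : ℝ) + 1) := Real.log_nonneg (by linarith)
    have hx : Real.log (n + 1) + 1 ≤ 1 / 100 * K / (d.totient * LL) := by
      rw [le_div_iff₀ (by positivity)]
      have h1 : (d.totient : ℝ) * L ^ 3 ≤ K := by
        have h2 : (Q : ℝ) * L ^ 3 ≤ K := by
          rw [le_div_iff₀ (by positivity)] at hQK
          exact hQK
        have h3 : (d.totient : ℝ) * L ^ 3 ≤ Q * L ^ 3 :=
          mul_le_mul_of_nonneg_right (hφd.trans hdQ) (by positivity)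
        linarith
      have h2 := mul_le_mul_of_nonneg_left hev hφ.le
      linarith
    have hxM : 1 / 100 * K / (d.totient * LL) ≤ M d := by
      rw [hM]
      exact Nat.le_ceil _
    have hx1 : 1 ≤ 1 / 100 * K / (d.totient * LL) := by linarith
    have hM2 : (M d : ℝ) ≤ 2 * (1 / 100 * K / (d.totient * LL)) := by
      have h1 : (M d : ℝ) < 1 / 100 * K / (d.totient * LL) + 1 := by
        rw [hM]
        exact Nat.ceil_lt_add_one (by linarith)
      linarith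
    have hM3 : (M d : ℝ) ≤ 3 * K / d := by
      refine hM2.trans ?_
      have h1 : 2 * (1 / 100 * K / (d.totient * LL)) = (K / 50) / (d.totient * LL) := by ring
      rw [h1, div_le_div_iff₀ (by positivity) hdr]
      have h2 : (d.totient : ℝ) ≤ d.totient * LL := le_mul_of_one_le_right hφ.le hLL
      have h3 : (K : ℝ) * d ≤ K * (3 * (d.totient * LL)) :=
        mul_le_mul_of_nonneg_left (h3φ.trans (by linarith)) hK0.le
      have h4 : 0 ≤ (K : ℝ) * d := by positivity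
      linarith
    refine ⟨hd0, hdQ, hφ, hx, hxM, ?_⟩
    rw [div_le_div_iff₀ (by positivity) (by positivity)]
    rw [le_div_iff₀ hdr] at hM3
    have h1 := mul_le_mul_of_nonneg_left hM3 (show 0 ≤ 7 * (n : ℝ) by positivity)
    linarith
  have hMd : ∀ d ∈ D, (cyclotomic d ℤ) ^ (M d) ∣ p := by
    intro d hd
    obtain ⟨hd1, hd2, hd3⟩ := hDm d hd
    obtain ⟨m, hm1, hm2⟩ := hF d hd1 hd3
    have h1 : M d ≤ m := by
      rw [hM]
      exact Nat.ceil_le.2 hm2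
    exact (pow_dvd_pow _ h1).trans hm1
  have hdel : ∀ d ∈ D, (M d : ℝ) / (21 * n) ≤ 1 / (7 * d) := by
    intro d hd
    obtain ⟨h0, h1, h2, h3, h4, h5⟩ := hsize d hd
    have hdr : (0 : ℝ) < d := by exact_mod_cast h0
    refine h5.trans ?_
    rw [div_le_div_iff₀ (by positivity) (by positivity)]
    have := mul_le_mul_of_nonneg_right hKn (show 0 ≤ 7 * (d : ℝ) by positivity)
    linarith
  have hpi := Real.pi_gt_three
  have key := jensen_multi (ι := (_ : ℕ) × ℕ) (n := n) (by omega) (p.map (Int.castRingHom ℂ))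
    ((Polynomial.map_ne_zero_iff (RingHom.injective_int (Int.castRingHom ℂ))).2 hp)
    ((natDegree_map_le).trans hdeg)
    (D.sigma (fun d => (range d).filter (fun a => d.Coprime a)))
    (fun i => 2 * Real.pi * ((i.2 : ℝ) / i.1)) (fun i => M i.1) ?_ ?_ ?_ ?_ ?_ ?_
  · -- the conclusion
    rw [Fin_norm] at key
    obtain ⟨R, hR⟩ : ∃ R : ℝ, R = Real.log (Real.sqrt (∑ i ∈ p.support, (p.coeff i : ℝ) ^ 2)
        / (p.map (Int.castRingHom ℂ)).mahlerMeasure) := ⟨_, rfl⟩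
    rw [← hR] at key ⊢
    have h1 : ∑ i ∈ D.sigma (fun d => (range d).filter (fun a => d.Coprime a)), ((M i.1 : ℕ) : ℝ) ^ 2
        = ∑ d ∈ D, (d.totient : ℝ) * (M d : ℝ) ^ 2 := by
      rw [sum_sigma]
      apply sum_congr rfl
      intro d _
      change ∑ _s ∈ (range d).filter (fun a => d.Coprime a), ((M d : ℕ) : ℝ) ^ 2 = _
      rw [sum_const, nsmul_eq_mul]
      rfl
    have h2 : (K / (100 * LL)) ^ 2 * ∑ d ∈ D, 1 / (d.totient : ℝ) ≤ ∑ d ∈ D, (d.totient : ℝ) * (M d : ℝ) ^ 2 := by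
      rw [mul_sum]
      apply sum_le_sum
      intro d hd
      obtain ⟨h0, h1, h2, h3, h4, h5⟩ := hsize d hd
      have h6 : (K / (100 * LL)) ^ 2 * (1 / (d.totient : ℝ))
          = d.totient * (1 / 100 * K / (d.totient * LL)) ^ 2 := by
        field_simp
      rw [h6]
      apply mul_le_mul_of_nonneg_left _ h2.le
      apply pow_le_pow_left₀ (by positivity) h4
    rw [h1] at key
    have h3 : (K / (100 * LL)) ^ 2 * (c * L / LL) ≤ 42 * Real.pi * n * R := by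
      have h4 := mul_le_mul_of_nonneg_left hG (show 0 ≤ (K / (100 * LL)) ^ 2 by positivity)
      linarith
    have h4 : (K / (100 * LL)) ^ 2 * (c * L / LL) = (K : ℝ) ^ 2 * L * (c / (10 ^ 4 * LL ^ 3)) := by
      field_simp
      ring
    rw [h4] at h3
    have h5 : 0 < c / (10 ^ 4 * LL ^ 3) := by positivity
    have h6 : (K : ℝ) ^ 2 * L ≤ 42 * Real.pi * n * R / (c / (10 ^ 4 * LL ^ 3)) := by
      rw [le_div_iff₀ h5]
      exact h3
    refine h6.trans (le_of_eq ?_)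
    field_simp
  · -- divisibility
    intro i hi
    rw [mem_sigma, mem_filter, mem_range] at hi
    exact Fin_dvd (hsize i.1 hi.1).1 hi.2.2.symm (hMd i.1 hi.1)
  · intro i hi
    rw [mem_sigma] at hi
    obtain ⟨h0, h1, h2, h3, h4, h5⟩ := hsize i.1 hi.1
    linarith
  · intro i hi
    rw [mem_sigma] at hi
    obtain ⟨h0, h1, h2, h3, h4, h5⟩ := hsize i.1 hi.1
    have hlog : 0 ≤ Real.log ((n : ℝ) + 1) := Real.log_nonneg (by linarith)
    have : (1 : ℝ) ≤ M i.1 := by linarith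
    exact_mod_cast this
  · intro i hi
    rw [mem_sigma, mem_filter, mem_range] at hi
    obtain ⟨hi1, hi2, hi3⟩ := hi
    have h0 := (hsize i.1 hi1).1
    have hdr : (0 : ℝ) < i.1 := by exact_mod_cast h0
    have ha : 1 ≤ i.2 := by
      rcases Nat.eq_zero_or_pos i.2 with h | h
      · rw [h, Nat.coprime_zero_right] at hi3
        exact absurd hi3 (hDm i.1 hi1).2.1
      · exact h
    have har : (1 : ℝ) ≤ i.2 := by exact_mod_cast ha
    refine (hdel i.1 hi1).trans ?_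
    have h1 : 2 * Real.pi * ((i.2 : ℝ) / i.1) = 2 * Real.pi * i.2 / i.1 := by ring
    rw [h1, div_le_div_iff₀ (by positivity) hdr]
    have h2 : 1 ≤ 2 * Real.pi * (i.2 : ℝ) * 7 := by nlinarith
    nlinarith
  · intro i hi
    rw [mem_sigma, mem_filter, mem_range] at hi
    obtain ⟨hi1, hi2, hi3⟩ := hi
    have h0 := (hsize i.1 hi1).1
    have hdr : (0 : ℝ) < i.1 := by exact_mod_cast h0
    have har : (i.2 : ℝ) + 1 ≤ i.1 := by exact_mod_cast hi2
    have h1 := hdel i.1 hi1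
    have h2 : 2 * Real.pi * ((i.2 : ℝ) / i.1) + 1 / (7 * i.1) ≤ 2 * Real.pi := by
      have h3 : 2 * Real.pi * ((i.2 : ℝ) / i.1) + 1 / (7 * i.1)
          = (2 * Real.pi * i.2 + 1 / 7) / i.1 := by
        field_simp
      rw [h3, div_le_iff₀ hdr]
      have h4 := mul_le_mul_of_nonneg_left har (show 0 ≤ 2 * Real.pi by positivity)
      linarith
    linarith
  · intro i hi j hj hij
    rw [mem_sigma, mem_filter, mem_range] at hi hj
    obtain ⟨hi1, hi2, hi3⟩ := hi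
    obtain ⟨hj1, hj2, hj3⟩ := hj
    obtain ⟨hi4, hi5, -, -, -, hi6⟩ := hsize i.1 hi1
    obtain ⟨hj4, hj5, -, -, -, hj6⟩ := hsize j.1 hj1
    have hne : ¬ (i.1 = j.1 ∧ i.2 = j.2) := by
      rintro ⟨h1, h2⟩
      exact hij (Sigma.ext h1 (heq_of_eq h2))
    have h1 := sep hi4 hj4 (frac_ne hi4 hj4 hi3.symm hj3.symm hne)
    refine le_trans ?_ h1
    have hir : (0 : ℝ) < i.1 := by exact_mod_cast hi4
    have hjr : (0 : ℝ) < j.1 := by exact_mod_cast hj4
    refine (add_le_add hi6 hj6).trans ?_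
    have h2 : (K : ℝ) / (7 * n * i.1) + K / (7 * n * j.1) = (K * (i.1 + j.1) / (7 * n)) / (i.1 * j.1) := by
      field_simp
      ring
    rw [h2]
    apply div_le_div_of_nonneg_right _ (by positivity)
    rw [div_le_iff₀ (by positivity)]
    have h3 : (K : ℝ) * (i.1 + j.1) ≤ K * (2 * K) := mul_le_mul_of_nonneg_left (by linarith) hK0.le
    have h4 : (3 : ℝ) * n ≤ Real.pi * n := mul_le_mul_of_nonneg_right hpi.le hn0.le
    linarith

end

end Pool.Agent.H1.FV
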