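import Pool.Agent.H1.FV.Defs

/-!
Minimum principle.

Proof: let `d0` minimise `g` on the finite set `RD Q w`, suppose `g d0 < 0`; then `d0 ≠ 1` and
`T * g d0 ≥ Aop g d0 ≥ g d0 * Aop 1 d0` (all neighbours lie in `RD Q w`: `div_mem_RD`, `mul_mem_RD`,
use `Aop_nonneg` for `g - g d0`), so `(T - Aop 1 d0) * g d0 ≥ 0` with `T - Aop 1 d0 > 0`, contradiction.
-/

namespace Pool.Agent.H1.FV

open Polynomial Finset
open Pool.Agent.H35.V1 (Nm Gm PPr mem_PPr div_spec)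

noncomputable section


theorem min_principle {Q w : ℕ} (g : ℕ → ℝ) (T : ℝ)
    (hT : ∀ d ∈ RD Q w, Aop Q w (fun _ => 1) d < T) (h1 : 0 ≤ g 1)
    (hsup : ∀ d ∈ RD Q w, d ≠ 1 → Aop Q w g d ≤ T * g d) : ∀ d ∈ RD Q w, 0 ≤ g d := by
  intro d hd
  obtain ⟨d0, hd0, hmin⟩ := exists_min_image (RD Q w) g ⟨d, hd⟩
  by_contra hneg
  have hneg' : g d < 0 := not_le.mp hneg
  have h0 : g d0 < 0 := (hmin d hd).trans_lt hneg'
  have hne : d0 ≠ 1 := by
    intro h
    rw [h] at h0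
    linarith
  have h2 := hsup d0 hd0 hne
  have h3 : 0 ≤ Aop Q w (fun e => g e + (fun _ => -(g d0)) e) d0 :=
    Aop_nonneg hd0 (fun e he => by
      have := hmin e he
      simp only
      linarith)
  rw [Aop_add, Aop_const] at h3
  have h4 := hT d0 hd0
  have h5 : 0 < (Aop Q w (fun _ => 1) d0 - T) * g d0 :=
    mul_pos_of_neg_of_neg (by linarith) h0
  nlinarith


end

end Pool.Agent.H1.FV
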