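import Pool.Agent.H1.FV.Defs

/-!
Choice of the parameters: elementary asymptotics.

With `ℓ = log n`, `LL = log ℓ`, `n ≤ K² ℓ`, `K² ≤ n`: `(ℓ - LL)/2 ≤ log K ≤ ℓ/2`,
`Q = ⌊K/ℓ³⌋₊`: `log K - 3 LL - log 2 ≤ log Q ≤ log K - 3 LL`, `T = log (n+1) + LL - log K`,
`κ = T + 1 - log Q + log w + C2 ≤ 6 LL + C2 + 4 ≤ 7 LL`, `T - log Q ≥ 4 LL`, `T + log Q ≤ 2 ℓ`.
Last item: `log (log Q) ≤ LL`, `32 (3 + LL) ≤ 80 LL`, `2/ℓ ≤ 1/(400 LL)`.
-/

namespace Pool.Agent.H1.FV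

open Polynomial Finset
open Pool.Agent.H35.V1 (Nm Gm PPr mem_PPr div_spec)

noncomputable section


/-- All the numerical facts about the parameters that are used later. -/
structure ParOK (C1 C2 : ℝ) (n K : ℕ) : Prop where
  hn : 3 ≤ n
  hK : 1 ≤ K
  hLL : 1 ≤ Real.log (Real.log n)
  hl : 3 ≤ Real.log n
  hw : 3 ≤ ⌈Real.log n⌉₊
  hQ : 1 ≤ ⌊(K : ℝ) / Real.log n ^ 3⌋₊
  hQw : Real.log (⌊(K : ℝ) / Real.log n ^ 3⌋₊ : ℕ) ≤ (⌈Real.log n⌉₊ : ℕ)
  hQl : Real.log n ≤ 3 * Real.log (⌊(K : ℝ) / Real.log n ^ 3⌋₊ : ℕ)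
  hηK : 1 / Real.log n * (K : ℝ) ≤ n + 1
  hT : Real.log (⌊(K : ℝ) / Real.log n ^ 3⌋₊ : ℕ) + C1
    ≤ Real.log (((n : ℝ) + 1) / (1 / Real.log n * K))
  hκ1 : 1 ≤ Real.log (((n : ℝ) + 1) / (1 / Real.log n * K)) + 1
    - Real.log (⌊(K : ℝ) / Real.log n ^ 3⌋₊ : ℕ) + Real.log (⌈Real.log n⌉₊ : ℕ) + C2
  hκQ : Real.log (((n : ℝ) + 1) / (1 / Real.log n * K)) + 1
    - Real.log (⌊(K : ℝ) / Real.log n ^ 3⌋₊ : ℕ) + Real.log (⌈Real.log n⌉₊ : ℕ) + C2
    ≤ Real.log (⌊(K : ℝ) / Real.log n ^ 3⌋₊ : ℕ)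
  hκ7 : Real.log (((n : ℝ) + 1) / (1 / Real.log n * K)) + 1
    - Real.log (⌊(K : ℝ) / Real.log n ^ 3⌋₊ : ℕ) + Real.log (⌈Real.log n⌉₊ : ℕ) + C2
    ≤ 7 * Real.log (Real.log n)
  hε : (⌊(K : ℝ) / Real.log n ^ 3⌋₊ : ℕ) * (Real.log (((n : ℝ) + 1) / (1 / Real.log n * K))
    + Real.log (⌊(K : ℝ) / Real.log n ^ 3⌋₊ : ℕ)) / (K : ℝ) + 1 / Real.log n ≤ 2 / Real.log n
  hfin : 1 / (100 * Real.log (Real.log n))
    ≤ 1 / 2 / (16 * (3 + Real.log (Real.log (⌊(K : ℝ) / Real.log n ^ 3⌋₊ : ℕ)))) - 2 / Real.log n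

private theorem par_log2 : Real.log 2 ≤ 1 := by
  have := Real.log_two_lt_d9
  linarith

private theorem par_main {C1 C2 : ℝ} (h1 : 0 ≤ C1) (h2 : 0 ≤ C2) {n K : ℕ} (hn : 3 ≤ n)
    (hl : 3 ≤ Real.log n) (hLL : 2 ≤ Real.log (Real.log n)) (hC1 : C1 ≤ Real.log (Real.log n))
    (hC2 : C2 + 4 ≤ Real.log (Real.log n)) (h800 : 800 * Real.log (Real.log n) ≤ Real.log n)
    (hK1 : (n : ℝ) ≤ (K : ℝ) ^ 2 * Real.log n) (hK2 : K ^ 2 ≤ n) : ParOK C1 C2 n K := by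
  have hn0 : (0 : ℝ) < n := by
    have : (3 : ℝ) ≤ n := by exact_mod_cast hn
    linarith
  have hn3 : (3 : ℝ) ≤ n := by exact_mod_cast hn
  have hK : 1 ≤ K := by
    by_contra h
    have h0 : K = 0 := by omega
    rw [h0] at hK1
    norm_num at hK1
    linarith
  have hKr : (1 : ℝ) ≤ K := by exact_mod_cast hK
  have hK0 : (0 : ℝ) < K := by linarith
  set l : ℝ := Real.log n with hldef
  set LL : ℝ := Real.log l with hLLdef
  have hl0 : 0 < l := by linarith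
  have hKn : (K : ℝ) ^ 2 ≤ n := by exact_mod_cast hK2
  have hKn1 : (K : ℝ) ≤ n := by nlinarith
  set k : ℝ := Real.log K with hkdef
  have hlogK2 : Real.log ((K : ℝ) ^ 2) = 2 * k := by
    rw [Real.log_pow]
    norm_num [hkdef]
  have hk1 : 2 * k ≤ l := by
    rw [← hlogK2]
    exact Real.log_le_log (by positivity) hKn
  have hk2 : l ≤ 2 * k + LL := by
    have h3 : l ≤ Real.log ((K : ℝ) ^ 2 * l) := Real.log_le_log hn0 hK1
    rw [Real.log_mul (by positivity) hl0.ne', hlogK2] at h3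
    exact h3
  -- the quotient
  set x : ℝ := (K : ℝ) / l ^ 3 with hxdef
  have hx0 : 0 < x := by positivity
  have hlogx : Real.log x = k - 3 * LL := by
    rw [hxdef, Real.log_div hK0.ne' (by positivity), Real.log_pow]
    norm_num
    rfl
  have hx2 : 2 ≤ x := by
    have h3 : Real.log 2 ≤ Real.log x := by
      rw [hlogx]
      have := par_log2
      linarith
    exact (Real.log_le_log_iff (by norm_num) hx0).1 h3
  set Q : ℕ := ⌊x⌋₊ with hQdef
  have hQx : (Q : ℝ) ≤ x := Nat.floor_le hx0.le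
  have hQx2 : x / 2 ≤ Q := by
    have h3 : x < (Q : ℝ) + 1 := Nat.lt_floor_add_one x
    linarith
  have hQ1 : (1 : ℝ) ≤ Q := by linarith
  have hQ1n : 1 ≤ Q := by exact_mod_cast hQ1
  have hQ0 : (0 : ℝ) < Q := by linarith
  set q : ℝ := Real.log (Q : ℝ) with hqdef
  have hq1 : q ≤ k - 3 * LL := by
    rw [← hlogx]
    exact Real.log_le_log hQ0 hQx
  have hq2 : k - 3 * LL - 1 ≤ q := by
    have h3 : Real.log (x / 2) ≤ q := Real.log_le_log (by positivity) hQx2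
    rw [Real.log_div hx0.ne' (by norm_num), hlogx] at h3
    have := par_log2
    linarith
  -- the ceiling
  set w : ℕ := ⌈l⌉₊ with hwdef
  have hlw : l ≤ w := Nat.le_ceil l
  have hw0 : (0 : ℝ) < w := by linarith
  have hw3 : 3 ≤ w := by
    have : (3 : ℝ) ≤ w := by linarith
    exact_mod_cast this
  have hlogw0 : 0 ≤ Real.log (w : ℝ) := Real.log_nonneg (by linarith)
  have hlogw : Real.log (w : ℝ) ≤ LL + 1 := by
    have h3 : (w : ℝ) < l + 1 := Nat.ceil_lt_add_one hl0.le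
    have h4 : (w : ℝ) ≤ l * 2 := by linarith
    have h5 := Real.log_le_log hw0 h4
    rw [Real.log_mul hl0.ne' (by norm_num)] at h5
    have := par_log2
    linarith
  -- log (n+1)
  have hn1 : l ≤ Real.log ((n : ℝ) + 1) := Real.log_le_log hn0 (by linarith)
  have hn2 : Real.log ((n : ℝ) + 1) ≤ l + 1 := by
    have h5 := Real.log_le_log (by linarith : (0 : ℝ) < (n : ℝ) + 1) (by linarith : (n : ℝ) + 1 ≤ n * 2)
    rw [Real.log_mul hn0.ne' (by norm_num)] at h5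
    have := par_log2
    linarith
  have hTeq : Real.log (((n : ℝ) + 1) / (1 / l * K)) = Real.log ((n : ℝ) + 1) + LL - k := by
    rw [Real.log_div (by positivity) (by positivity), Real.log_mul (by positivity) hK0.ne', one_div, Real.log_inv]
    ring
  have hk400 : 399 * LL ≤ k := by linarith
  have hq300 : 300 * LL ≤ q := by linarith
  have hql : q ≤ l := by linarith
  refine ⟨hn, hK, by linarith, hl, hw3, hQ1n, ?_, ?_, ?_, ?_, ?_, ?_, ?_, ?_, ?_⟩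
  · show q ≤ (w : ℝ)
    linarith
  · show l ≤ 3 * q
    linarith
  · have h3 : 1 / l * (K : ℝ) ≤ 1 * K := by
      apply mul_le_mul_of_nonneg_right _ hK0.le
      rw [div_le_one hl0]
      linarith
    linarith
  · rw [hTeq]
    show q + C1 ≤ _
    linarith
  · rw [hTeq]
    show 1 ≤ Real.log ((n : ℝ) + 1) + LL - k + 1 - q + Real.log (w : ℝ) + C2
    linarith
  · rw [hTeq]
    show Real.log ((n : ℝ) + 1) + LL - k + 1 - q + Real.log (w : ℝ) + C2 ≤ q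
    linarith
  · rw [hTeq]
    show Real.log ((n : ℝ) + 1) + LL - k + 1 - q + Real.log (w : ℝ) + C2 ≤ 7 * LL
    linarith
  · rw [hTeq]
    show (Q : ℝ) * (Real.log ((n : ℝ) + 1) + LL - k + q) / (K : ℝ) + 1 / l ≤ 2 / l
    have h3 : Real.log ((n : ℝ) + 1) + LL - k + q ≤ l ^ 2 := by nlinarith
    have h4 : (0 : ℝ) ≤ Real.log ((n : ℝ) + 1) + LL - k + q := by linarith
    have h5 : (Q : ℝ) * (Real.log ((n : ℝ) + 1) + LL - k + q) ≤ x * l ^ 2 :=
      mul_le_mul hQx h3 h4 hx0.le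
    have h6 : (Q : ℝ) * (Real.log ((n : ℝ) + 1) + LL - k + q) / (K : ℝ) ≤ 1 / l := by
      rw [div_le_iff₀ hK0]
      refine h5.trans (le_of_eq ?_)
      rw [hxdef]
      field_simp
    have h7 : 2 / l = 1 / l + 1 / l := by ring
    rw [h7]
    linarith
  · show 1 / (100 * LL) ≤ 1 / 2 / (16 * (3 + Real.log q)) - 2 / l
    have hq0 : 1 ≤ q := by linarith
    have h3 : 0 ≤ Real.log q := Real.log_nonneg hq0
    have h4 : Real.log q ≤ LL := Real.log_le_log (by linarith) hql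
    have hLL0 : 0 < LL := by linarith
    have h5 : 1 / (80 * LL) ≤ 1 / 2 / (16 * (3 + Real.log q)) := by
      rw [div_div]
      apply one_div_le_one_div_of_le (by positivity)
      linarith
    have h6 : 2 / l ≤ 1 / (400 * LL) := by
      rw [div_le_div_iff₀ hl0 (by positivity)]
      linarith
    have h7 : 1 / (80 * LL) = 1 / (100 * LL) + 1 / (400 * LL) := by
      field_simp
      norm_num
    linarith

theorem exists_par (C1 C2 : ℝ) (h1 : 0 ≤ C1) (h2 : 0 ≤ C2) : ∃ n0 : ℕ, ∀ n : ℕ, n0 ≤ n →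
    ∀ K : ℕ, (n : ℝ) ≤ (K : ℝ) ^ 2 * Real.log n → K ^ 2 ≤ n → ParOK C1 C2 n K := by
  have hev : ∀ᶠ n : ℕ in Filter.atTop, 3 ≤ n ∧ 3 ≤ Real.log n ∧ 2 ≤ Real.log (Real.log n)
      ∧ C1 ≤ Real.log (Real.log n) ∧ C2 + 4 ≤ Real.log (Real.log n)
      ∧ 800 * Real.log (Real.log n) ≤ Real.log n := by
    have t1 : Filter.Tendsto (fun n : ℕ => Real.log n) Filter.atTop Filter.atTop :=
      Real.tendsto_log_atTop.comp tendsto_natCast_atTop_atTop
    have t2 : Filter.Tendsto (fun n : ℕ => Real.log (Real.log n)) Filter.atTop Filter.atTop :=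
      Real.tendsto_log_atTop.comp t1
    have t3 : ∀ᶠ x : ℝ in Filter.atTop, 800 * Real.log x ≤ x := by
      have h3 := Real.isLittleO_log_id_atTop.def (c := 1 / 800) (by norm_num)
      filter_upwards [h3, Filter.eventually_ge_atTop (1 : ℝ)] with x hx hx1
      rw [Real.norm_of_nonneg (Real.log_nonneg hx1), id, Real.norm_of_nonneg (by linarith)] at hx
      linarith
    filter_upwards [Filter.eventually_ge_atTop 3, t1.eventually_ge_atTop 3, t2.eventually_ge_atTop 2,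
      t2.eventually_ge_atTop C1, t2.eventually_ge_atTop (C2 + 4), t1.eventually t3] with n a1 a2 a3 a4 a5 a6
    exact ⟨a1, a2, a3, a4, a5, a6⟩
  obtain ⟨n0, hn0⟩ := Filter.eventually_atTop.1 hev
  refine ⟨n0, fun n hn K hK1 hK2 => ?_⟩
  obtain ⟨a1, a2, a3, a4, a5, a6⟩ := hn0 n hn
  exact par_main h1 h2 a1 a2 a3 a4 a5 a6 hK1 hK2


end

end Pool.Agent.H1.FV
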