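import Pool.Agent.H1.FV.Sub

/-!
Size of the subsolution.

Proof. `Uf L κ 1 = ∫_0^(2/κ) W`. On `[0, 1/L]`: `W ≤ exp (1 - L t)`, integral `≤ (e - 1)/L`; on `[1/L, 2/κ]`:
`W ≤ 1/(L t)`, integral `≤ (1/L) log (2 L / κ) ≤ (1/L) (log 2 + log L)` as `κ ≥ 1`. Total `≤ (3 + log L)/L`.
For the lower bound restrict to `[1/κ, 2/κ]` (`1/κ ≥ 1/L`): `W ≥ exp (-2) / (L * (2/κ))`,
`Et t d ≥ Et (1/κ) d` (`Et_mono`), length `1/κ`: `≥ Et (1/κ) d * exp (-2) / (2 L) ≥ Et (1/κ) d / (16 L)`.
-/

namespace Pool.Agent.H1.FV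

open Polynomial Finset
open Pool.Agent.H35.V1 (Nm Gm PPr mem_PPr div_spec)

noncomputable section

private theorem siz_int {L κ a b : ℝ} (hL : 0 < L) (ha : 0 ≤ a) (hab : a ≤ b) :
    IntervalIntegrable (Wt L κ) MeasureTheory.volume a b := by
  apply ContinuousOn.intervalIntegrable
  rw [Set.uIcc_of_le hab]
  exact (Wt_continuousOn hL).mono fun t ht => ha.trans ht.1

private theorem siz_Et_cont (d : ℕ) : Continuous (fun t => Et t d) := by
  unfold Et
  refine continuous_finsetProd _ fun p hp => ?_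
  have h1 : (0 : ℝ) < p := by exact_mod_cast (Nat.prime_of_mem_primeFactors hp).pos
  exact continuous_const.sub (Continuous.rpow continuous_const continuous_neg fun _ => Or.inl h1.ne')

private theorem siz_intF {L κ a b : ℝ} (d : ℕ) (hL : 0 < L) (ha : 0 ≤ a) (hab : a ≤ b) :
    IntervalIntegrable (fun t => Wt L κ t * Et t d) MeasureTheory.volume a b := by
  apply ContinuousOn.intervalIntegrable
  rw [Set.uIcc_of_le hab]
  exact ((Wt_continuousOn hL).mono fun t ht => ha.trans ht.1).mul (siz_Et_cont d).continuousOn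

private theorem siz_W {L κ t : ℝ} (hL : 0 < L) (ht : 1 / L ≤ t) :
    Wt L κ t = Real.exp (-(κ * t)) / (L * t) := by
  unfold Wt
  split_ifs with h
  · have h1 : t = 1 / L := le_antisymm h ht
    have h2 : L * t = 1 := by
      rw [h1]
      field_simp
    rw [h2, div_one]
    congr 1
    ring
  · rfl

private theorem siz_one (L κ : ℝ) : Uf L κ 1 = ∫ t in (0 : ℝ)..(2 / κ), Wt L κ t := by
  unfold Uf
  simp only [Et_one, mul_one]

theorem Uf_one_le {L κ : ℝ} (hκ : 1 ≤ κ) (hκL : κ ≤ L) : Uf L κ 1 ≤ (3 + Real.log L) / L := by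
  have hκ0 : 0 < κ := by linarith
  have hL : 0 < L := by linarith
  have hL1 : 1 ≤ L := by linarith
  have ha0 : (0 : ℝ) < 1 / L := by positivity
  have hab : 1 / L ≤ 2 / κ := by
    rw [div_le_div_iff₀ hL hκ0]
    linarith
  rw [siz_one, ← intervalIntegral.integral_add_adjacent_intervals (siz_int hL le_rfl ha0.le)
    (siz_int hL ha0.le hab)]
  have h1 : ∫ t in (0 : ℝ)..(1 / L), Wt L κ t ≤ ∫ t in (0 : ℝ)..(1 / L), Real.exp (1 - L * t) := by
    refine intervalIntegral.integral_mono_on ha0.le (siz_int hL le_rfl ha0.le)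
      (Continuous.intervalIntegrable (by fun_prop) _ _) fun t ht => ?_
    unfold Wt
    rw [if_pos ht.2]
    refine Real.exp_le_exp.mpr ?_
    have : 0 ≤ κ * t := mul_nonneg hκ0.le ht.1
    linarith
  have h2 : ∫ t in (0 : ℝ)..(1 / L), Real.exp (1 - L * t) = (Real.exp 1 - 1) / L := by
    have hd : ∀ t ∈ Set.uIcc (0 : ℝ) (1 / L), HasDerivAt (fun t => -(Real.exp (1 - L * t)) / L)
        (Real.exp (1 - L * t)) t := by
      intro t _
      have g1 : HasDerivAt (fun t : ℝ => 1 - L * t) (-L) t := by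
        have := ((hasDerivAt_id t).const_mul L).const_sub 1
        simpa using this
      have g2 := (g1.exp.neg).div_const L
      have g3 : -(Real.exp (1 - L * t) * -L) / L = Real.exp (1 - L * t) := by
        field_simp
      rw [g3] at g2
      exact g2
    rw [intervalIntegral.integral_eq_sub_of_hasDerivAt hd
      (Continuous.intervalIntegrable (by fun_prop) _ _)]
    have g4 : 1 - L * (1 / L) = 0 := by
      field_simp
      ring
    rw [g4, Real.exp_zero, mul_zero, sub_zero]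
    ring
  have h3 : ∫ t in (1 / L)..(2 / κ), Wt L κ t ≤ ∫ t in (1 / L)..(2 / κ), (1 / L) * t⁻¹ := by
    refine intervalIntegral.integral_mono_on hab (siz_int hL ha0.le hab) ?_ fun t ht => ?_
    · apply ContinuousOn.intervalIntegrable
      rw [Set.uIcc_of_le hab]
      exact continuousOn_const.mul (continuousOn_id.inv₀ fun t ht => (ha0.trans_le ht.1).ne')
    · rw [siz_W hL ht.1]
      have ht0 : 0 < t := ha0.trans_le ht.1
      have g5 : 1 / L * t⁻¹ = 1 / (L * t) := by
        field_simp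
      rw [g5]
      refine div_le_div_of_nonneg_right ?_ (by positivity)
      rw [Real.exp_le_one_iff]
      have : 0 ≤ κ * t := by positivity
      linarith
  have h4 : ∫ t in (1 / L)..(2 / κ), (1 / L) * t⁻¹ = (1 / L) * Real.log (2 / κ / (1 / L)) := by
    rw [intervalIntegral.integral_const_mul, integral_inv_of_pos ha0 (by positivity)]
  have h5 : Real.log (2 / κ / (1 / L)) ≤ Real.log 2 + Real.log L := by
    rw [← Real.log_mul (by norm_num) hL.ne']
    refine Real.log_le_log (by positivity) ?_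
    rw [div_div_eq_mul_div, div_one, div_mul_eq_mul_div, div_le_iff₀ hκ0]
    nlinarith [mul_nonneg hL.le (sub_nonneg.mpr hκ)]
  have e1 := Real.exp_one_lt_d9
  have e2 := Real.log_two_lt_d9
  have h6 : (1 / L) * Real.log (2 / κ / (1 / L)) ≤ (1 / L) * (Real.log 2 + Real.log L) :=
    mul_le_mul_of_nonneg_left h5 ha0.le
  calc (∫ t in (0 : ℝ)..(1 / L), Wt L κ t) + ∫ t in (1 / L)..(2 / κ), Wt L κ t
      ≤ (Real.exp 1 - 1) / L + (1 / L) * (Real.log 2 + Real.log L) := by linarith
    _ = (Real.exp 1 - 1 + Real.log 2 + Real.log L) / L := by ring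
    _ ≤ (3 + Real.log L) / L := by
        refine div_le_div_of_nonneg_right ?_ hL.le
        linarith

theorem Uf_one_pos {L κ : ℝ} (hκ : 1 ≤ κ) (hκL : κ ≤ L) : 0 < Uf L κ 1 := by
  have hκ0 : 0 < κ := by linarith
  have hL : 0 < L := by linarith
  have hb : (0 : ℝ) < 2 / κ := by positivity
  rw [siz_one]
  exact intervalIntegral.intervalIntegral_pos_of_pos_on (siz_int hL le_rfl hb.le)
    (fun t ht => Wt_pos hL ht.1.le) hb

theorem le_Uf {L κ : ℝ} (hκ : 1 ≤ κ) (hκL : κ ≤ L) (d : ℕ) : Et (1 / κ) d / (16 * L) ≤ Uf L κ d := by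
  have hκ0 : 0 < κ := by linarith
  have hL : 0 < L := by linarith
  have ha0 : (0 : ℝ) < 1 / κ := by positivity
  have hab : 1 / κ ≤ 2 / κ := div_le_div_of_nonneg_right (by norm_num) hκ0.le
  have hLκ : 1 / L ≤ 1 / κ := one_div_le_one_div_of_le hκ0 hκL
  have hE0 : 0 ≤ Et (1 / κ) d := Et_nonneg ha0.le d
  unfold Uf
  rw [← intervalIntegral.integral_add_adjacent_intervals (siz_intF d hL le_rfl ha0.le)
    (siz_intF d hL ha0.le hab)]
  have h1 : 0 ≤ ∫ t in (0 : ℝ)..(1 / κ), Wt L κ t * Et t d :=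
    intervalIntegral.integral_nonneg ha0.le fun t ht =>
      mul_nonneg (Wt_pos hL ht.1).le (Et_nonneg ht.1 d)
  have hexp : 1 / 8 ≤ Real.exp (-2) := by
    have e1 := Real.exp_one_lt_d9
    have e2 : Real.exp 2 = Real.exp 1 * Real.exp 1 := by
      rw [← Real.exp_add]
      norm_num
    rw [Real.exp_neg, ← one_div]
    refine one_div_le_one_div_of_le (Real.exp_pos 2) ?_
    rw [e2]
    nlinarith [Real.exp_pos 1]
  have h2 : ∫ _t in (1 / κ)..(2 / κ), (Real.exp (-2) / (L * (2 / κ))) * Et (1 / κ) d ≤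
      ∫ t in (1 / κ)..(2 / κ), Wt L κ t * Et t d := by
    refine intervalIntegral.integral_mono_on hab (Continuous.intervalIntegrable (by fun_prop) _ _)
      (siz_intF d hL ha0.le hab) fun t ht => ?_
    have ht0 : 0 < t := ha0.trans_le ht.1
    rw [siz_W hL (hLκ.trans ht.1)]
    refine mul_le_mul ?_ (Et_mono ha0.le ht.1 d) hE0 (by positivity)
    refine div_le_div₀ (Real.exp_pos _).le ?_ (by positivity) ?_
    · refine Real.exp_le_exp.mpr ?_
      have g1 : κ * t ≤ κ * (2 / κ) := mul_le_mul_of_nonneg_left ht.2 hκ0.le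
      have g2 : κ * (2 / κ) = 2 := by field_simp
      linarith
    · exact mul_le_mul_of_nonneg_left ht.2 hL.le
  rw [intervalIntegral.integral_const, smul_eq_mul] at h2
  have h3 : (2 / κ - 1 / κ) * (Real.exp (-2) / (L * (2 / κ)) * Et (1 / κ) d) =
      Et (1 / κ) d * Real.exp (-2) / (2 * L) := by
    field_simp
    ring
  rw [h3] at h2
  have h4 : Et (1 / κ) d / (16 * L) ≤ Et (1 / κ) d * Real.exp (-2) / (2 * L) := by
    rw [div_le_div_iff₀ (by positivity) (by positivity)]
    have g3 : 0 ≤ Et (1 / κ) d * L := mul_nonneg hE0 hL.le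
    nlinarith [mul_le_mul_of_nonneg_left hexp g3]
  linarith


end

end Pool.Agent.H1.FV
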