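import Pool.Agent.H1.FV.Defs

/-!
Lower bound for the interaction terms.

Proof: copy `interaction_ge` of `H35.V1.UBound` (with `RR Q w r` replaced by `RD Q w`, `mu` and `μ`
replaced by `m`, and `P2 Q q` replaced by `UD Q w q`): the integers `q / p` (`p ∣ q`) and `q * p`
(`p ∈ UD Q w q`) are distinct elements of `(Icc 1 Q).erase q`; `Nm_down`, `Nm_up` give the norms,
all other terms are nonnegative (`one_le_Nm_cyc`).
-/

namespace Pool.Agent.H1.FV

open Polynomial Finset
open Pool.Agent.H35.V1 (Nm Gm PPr mem_PPr div_spec)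

noncomputable section


theorem inter_ge {Q w q : ℕ} (hq : q ∈ RD Q w) (m : ℕ → ℕ) :
    ∑ p ∈ q.primeFactors, (m (q / p) : ℝ) * ((q / p).totient * Real.log p)
      + ∑ p ∈ UD Q w q, (m (q * p) : ℝ) * (q.totient * Real.log p)
    ≤ ∑ d ∈ (Icc 1 Q).erase q, (m d : ℝ) * Real.log (Nm q (cyclotomic d ℤ)) := by
  have hq' := mem_RD.1 hq
  have hq0 : 0 < q := hq'.1.1
  have hsq := hq'.2.1
  have hterm : ∀ d ∈ (Icc 1 Q).erase q, 0 ≤ (m d : ℝ) * Real.log (Nm q (cyclotomic d ℤ)) := by
    intro d hd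
    rw [mem_erase] at hd
    exact mul_nonneg (Nat.cast_nonneg _)
      (Real.log_nonneg (Pool.Agent.H35.V1.one_le_Nm_cyc hq0 (Ne.symm hd.1)))
  set D1 := q.primeFactors.image (fun p => q / p) with hD1
  set D2 := (UD Q w q).image (fun p => q * p) with hD2
  have hlt1 : ∀ d ∈ D1, 0 < d ∧ d < q := by
    intro d hd
    rw [hD1, mem_image] at hd
    obtain ⟨p, hp, rfl⟩ := hd
    have := div_spec hsq hp
    exact ⟨this.2.1, this.2.2.2⟩
  have hlt2 : ∀ d ∈ D2, q < d ∧ d ≤ Q := by
    intro d hd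
    rw [hD2, mem_image] at hd
    obtain ⟨p, hp, rfl⟩ := hd
    rw [mem_UD] at hp
    constructor
    · exact lt_mul_of_one_lt_right hq0 hp.1.2.one_lt
    · calc q * p ≤ q * (Q / q) := Nat.mul_le_mul_left q hp.1.1.2
        _ ≤ Q := Nat.mul_div_le Q q
  have hdisj : Disjoint D1 D2 := by
    rw [disjoint_left]
    intro d hd1 hd2
    have := hlt1 d hd1
    have := hlt2 d hd2
    omega
  have hsub : D1 ∪ D2 ⊆ (Icc 1 Q).erase q := by
    intro d hd
    rw [mem_union] at hd
    rw [mem_erase, mem_Icc]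
    rcases hd with hd | hd
    · have := hlt1 d hd
      omega
    · have := hlt2 d hd
      omega
  have hinj1 : Set.InjOn (fun p => q / p) q.primeFactors := by
    intro p hp p' hp' h
    have h1 := (div_spec hsq hp).1
    have h2 := (div_spec hsq hp').1
    have h : q / p = q / p' := h
    rw [h] at h1
    have h3 := (div_spec hsq hp').2.1
    exact Nat.eq_of_mul_eq_mul_left h3 (h1.trans h2.symm)
  have hinj2 : Set.InjOn (fun p => q * p) (UD Q w q) := by
    intro p _ p' _ h
    exact Nat.eq_of_mul_eq_mul_left hq0 h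
  calc ∑ p ∈ q.primeFactors, (m (q / p) : ℝ) * ((q / p).totient * Real.log p)
      + ∑ p ∈ UD Q w q, (m (q * p) : ℝ) * (q.totient * Real.log p)
      = ∑ d ∈ D1, (m d : ℝ) * Real.log (Nm q (cyclotomic d ℤ))
        + ∑ d ∈ D2, (m d : ℝ) * Real.log (Nm q (cyclotomic d ℤ)) := by
        congr 1
        · rw [hD1, sum_image (fun x hx y hy h => hinj1 hx hy h)]
          apply sum_congr rfl
          intro p hp
          have hs := div_spec hsq hp
          have hpp := Nat.prime_of_mem_primeFactors hp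
          have hN : Nm q (cyclotomic (q / p) ℤ) = (p : ℝ) ^ (q / p).totient := by
            have := Pool.Agent.H35.V1.Nm_down hs.2.1 hpp hs.2.2.1
            rwa [hs.1] at this
          rw [hN, Real.log_pow]
        · rw [hD2, sum_image (fun x hx y hy h => hinj2 hx hy h)]
          apply sum_congr rfl
          intro p hp
          rw [mem_UD] at hp
          rw [Pool.Agent.H35.V1.Nm_up hq0 hp.1.2 hp.2, Real.log_pow]
    _ = ∑ d ∈ D1 ∪ D2, (m d : ℝ) * Real.log (Nm q (cyclotomic d ℤ)) := (sum_union hdisj).symm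
    _ ≤ _ := sum_le_sum_of_subset_of_nonneg hsub fun d hd _ => hterm d hd


end

end Pool.Agent.H1.FV
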