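import Pool.Agent.H1.FV.Nrm
import Pool.Agent.H1.FV.Cho
import Pool.Agent.H1.FV.Int

/-!
The function `h(d) = φ(d) m(d) / K` is almost superharmonic.

Proof: combine `norm_ineq`, `log_Nm_deriv`, `inter_ge`, `log_choose_lin` with `t = η K / φ(q)`.
With `x = φ(q) m(q)`, `s = ∑_(p | q) log p / (p - 1) ≤ 1` (`delta_le` of `H35.V1.Params`, `W = w`),
`T = log ((n+1) / (η K))`:
`x (log q - s) + K * Aop h q ≤ φ(q) ((m q + 1) log ((n+1) φ(q) / (η K)) + η K / φ(q))
  = (x + φ(q)) (T + log φ(q)) + η K`, and `φ(q) ≤ q ≤ Q`, `log φ(q) ≤ log q ≤ log Q`.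
For `p ∈ UD Q w q`: `φ(q p) = φ(q) (p - 1)`, so `m(qp) φ(q) log p = K * (log p / (p - 1)) * h(qp)`.
-/

namespace Pool.Agent.H1.FV

open Polynomial Finset
open Pool.Agent.H35.V1 (Nm Gm PPr mem_PPr div_spec)

noncomputable section

theorem super {n Q w : ℕ} {K η : ℝ} (hK : 0 < K) (hη : 0 < η) (hηK : η * K ≤ n + 1) (hw : 0 < w)
    (hQw : Real.log Q ≤ w) (m : ℕ → ℕ) (A : ℤ[X])
    (hdeg : (Gm Q m * A).natDegree ≤ n) (hc : ∀ i, |(Gm Q m * A).coeff i| ≤ 1)
    (hA : ∀ d ∈ Icc 1 Q, ¬ cyclotomic d ℤ ∣ A) {q : ℕ} (hq : q ∈ RD Q w) :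
    Aop Q w (fun d => (d.totient : ℝ) * m d / K) q
      ≤ (Real.log (((n : ℝ) + 1) / (η * K)) + 1) * ((q.totient : ℝ) * m q / K)
        + (Q * (Real.log (((n : ℝ) + 1) / (η * K)) + Real.log Q) / K + η) := by
  have hq' := mem_RD.1 hq
  have hq1 : q ∈ Icc 1 Q := mem_Icc.2 hq'.1
  have hsq := hq'.2.1
  have hq0 : 0 < q := hq'.1.1
  have hφn : 0 < q.totient := Nat.totient_pos.2 hq0
  have hφ : (0 : ℝ) < q.totient := by exact_mod_cast hφn
  have hφ1 : (1 : ℝ) ≤ q.totient := by exact_mod_cast hφn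
  have hq0' : (0 : ℝ) < q := by exact_mod_cast hq0
  have hφq : (q.totient : ℝ) ≤ q := by exact_mod_cast Nat.totient_le q
  have hqQ : (q : ℝ) ≤ Q := by exact_mod_cast hq'.1.2
  have hlogq : Real.log q ≤ Real.log Q := Real.log_le_log hq0' hqQ
  have hlogφ : Real.log q.totient ≤ Real.log q := Real.log_le_log hφ hφq
  have hlogφ0 : 0 ≤ Real.log q.totient := Real.log_nonneg hφ1
  have hs := Pool.Agent.H35.V1.delta_le hsq hw hq'.2.2 (hlogq.trans hQw)
  have hηK0 : 0 < η * K := mul_pos hη hK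
  set T : ℝ := Real.log (((n : ℝ) + 1) / (η * K)) with hT
  have hT0 : 0 ≤ T := by
    apply Real.log_nonneg
    rw [le_div_iff₀ hηK0, one_mul]
    exact hηK
  have h1 := norm_ineq hq1 m A hdeg hc (hA q hq1)
  rw [Pool.Agent.H35.V1.log_Nm_deriv hsq] at h1
  have h2 := inter_ge hq m
  set s : ℝ := ∑ p ∈ q.primeFactors, Real.log p / ((p : ℝ) - 1) with hsdef
  have ht : 0 < η * K / q.totient := by positivity
  have htn : η * K / q.totient ≤ n + 1 := by
    rw [div_le_iff₀ hφ]
    have : (0 : ℝ) ≤ n := Nat.cast_nonneg n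
    nlinarith
  have h3 := log_choose_lin n (m q) ht htn
  have h4 : Real.log (((n : ℝ) + 1) / (η * K / q.totient)) = T + Real.log q.totient := by
    have h5 : ((n : ℝ) + 1) / (η * K / q.totient) = ((n : ℝ) + 1) / (η * K) * q.totient := by
      field_simp
    rw [h5, Real.log_mul (by positivity) hφ.ne']
  rw [h4] at h3
  have h5 : K * Aop Q w (fun d => (d.totient : ℝ) * m d / K) q =
      ∑ p ∈ q.primeFactors, (m (q / p) : ℝ) * ((q / p).totient * Real.log p)
        + ∑ p ∈ UD Q w q, (m (q * p) : ℝ) * (q.totient * Real.log p) := by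
    unfold Aop
    rw [mul_add, mul_sum, mul_sum]
    congr 1
    · apply sum_congr rfl
      intro p _
      field_simp
    · apply sum_congr rfl
      intro p hp
      have hp' := mem_UD.1 hp
      have hpr := hp'.1.2
      have hcop : Nat.Coprime q p := ((Nat.Prime.coprime_iff_not_dvd hpr).2 hp'.2).symm
      have hp1 : (1 : ℝ) < p := by exact_mod_cast hpr.one_lt
      have hp2 : (p : ℝ) - 1 ≠ 0 := by linarith
      have h6 : ((q * p).totient : ℝ) = q.totient * ((p : ℝ) - 1) := by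
        rw [Nat.totient_mul hcop, Nat.totient_prime hpr, Nat.cast_mul, Nat.cast_sub hpr.one_lt.le, Nat.cast_one]
      show K * (Real.log p / ((p : ℝ) - 1) * (((q * p).totient : ℝ) * m (q * p) / K)) = _
      rw [h6]
      field_simp
  have h6 := mul_le_mul_of_nonneg_left h3 hφ.le
  have h7 : (q.totient : ℝ) * (((m q : ℝ) + 1) * (T + Real.log q.totient) + η * K / q.totient) =
      ((q.totient : ℝ) * m q + q.totient) * (T + Real.log q.totient) + η * K := by
    field_simp
  rw [h7] at h6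
  have hx0 : 0 ≤ (q.totient : ℝ) * m q := by positivity
  have h8 : K * Aop Q w (fun d => (d.totient : ℝ) * m d / K) q ≤
      (T + 1) * ((q.totient : ℝ) * m q) + (Q * (T + Real.log Q) + η * K) := by
    have h9 : (q.totient : ℝ) * (T + Real.log q.totient) ≤ Q * (T + Real.log Q) := by
      have h10 : (q.totient : ℝ) ≤ Q := hφq.trans hqQ
      have h11 : T + Real.log q.totient ≤ T + Real.log Q := by linarith
      exact mul_le_mul h10 h11 (by positivity) (by positivity)
    have h12 : (q.totient : ℝ) * m q * (Real.log q.totient - Real.log q + s) ≤ (q.totient : ℝ) * m q * 1 :=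
      mul_le_mul_of_nonneg_left (by linarith) hx0
    rw [h5]
    nlinarith [h1, h2, h6, h9, h12]
  have h13 : Aop Q w (fun d => (d.totient : ℝ) * m d / K) q ≤
      ((T + 1) * ((q.totient : ℝ) * m q) + (Q * (T + Real.log Q) + η * K)) / K := by
    rw [le_div_iff₀ hK, mul_comm]
    exact h8
  refine h13.trans (le_of_eq ?_)
  field_simp


end

end Pool.Agent.H1.FV
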