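import Pool.Agent.H1.FV.Fac
import Pool.Agent.H1.FV.Sup
import Pool.Agent.H1.FV.Dri
import Pool.Agent.H1.FV.Siz
import Pool.Agent.H1.FV.Min
import Pool.Agent.H1.FV.Par

/-!
Forced cyclotomic factors.
-/

namespace Pool.Agent.H1.FV

open Polynomial Finset
open Pool.Agent.H35.V1 (Nm Gm PPr mem_PPr div_spec)

noncomputable section

theorem forced : ∃ n0 : ℕ, ∀ n : ℕ, n0 ≤ n → ∀ K : ℕ, (n : ℝ) ≤ (K : ℝ) ^ 2 * Real.log n →
    K ^ 2 ≤ n → ∀ p : ℤ[X], p ≠ 0 → p.natDegree ≤ n → (∀ i, |p.coeff i| ≤ 1) →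
    (X - 1 : ℤ[X]) ^ K ∣ p → ∀ d ∈ RD ⌊(K : ℝ) / Real.log n ^ 3⌋₊ ⌈Real.log n⌉₊,
    1 / 2 ≤ Et (1 / (7 * Real.log (Real.log n))) d →
    ∃ m : ℕ, (cyclotomic d ℤ) ^ m ∣ p ∧
      1 / 100 * K / (d.totient * Real.log (Real.log n)) ≤ m := by
  obtain ⟨C1, hC1, hA1⟩ := exists_A1
  obtain ⟨C2, hC2, hdr⟩ := exists_drift
  obtain ⟨n0, hn0⟩ := exists_par C1 C2 hC1 hC2
  refine ⟨n0, fun n hn K hK1 hK2 p hp hdeg hc hdvd d hd hEt => ?_⟩
  have P := hn0 n hn K hK1 hK2
  set Q := ⌊(K : ℝ) / Real.log n ^ 3⌋₊ with hQdef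
  set w := ⌈Real.log n⌉₊ with hwdef
  set T := Real.log (((n : ℝ) + 1) / (1 / Real.log n * K)) with hTdef
  set κ := T + 1 - Real.log Q + Real.log w + C2 with hκdef
  have hl : 0 < Real.log n := by linarith [P.hl]
  have hK0 : (0 : ℝ) < K := by exact_mod_cast P.hK
  have hw0 : 0 < w := by have := P.hw; omega
  have hκ1 : 1 ≤ κ := P.hκ1
  have hκQ : κ ≤ Real.log Q := P.hκQ
  have hL : 0 < Real.log Q := by linarith
  obtain ⟨m, A, hpA, hA⟩ := exists_factor Q p hp
  have hKm : K ≤ m 1 := le_of_pow_dvd P.hQ hA (by rw [← hpA]; exact hdvd)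
  have hsup : ∀ q ∈ RD Q w, Aop Q w (fun d => (d.totient : ℝ) * m d / K) q
      ≤ (T + 1) * ((q.totient : ℝ) * m q / K) + 2 / Real.log n := by
    intro q hq
    have h := super (n := n) (Q := Q) (w := w) (K := K) (η := 1 / Real.log n) hK0 (by positivity)
      P.hηK hw0 P.hQw m A (by rw [← hpA]; exact hdeg) (by rw [← hpA]; exact hc) hA hq
    have := P.hε
    linarith
  set β := 2 / Real.log n with hβ
  have hβ0 : 0 ≤ β := by positivity
  set u1 := Uf (Real.log Q) κ 1 with hu1
  have hu1pos : 0 < u1 := Uf_one_pos hκ1 hκQ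
  set g : ℕ → ℝ := fun e => (e.totient : ℝ) * m e / K + (β + (-(1 / u1)) * Uf (Real.log Q) κ e)
    with hg
  have hmin := min_principle (Q := Q) (w := w) g (T + 1) (by
      intro e he
      have h1 := hA1 Q w e P.hw P.hQw he
      have h2 := P.hT
      linarith) (by
      rw [hg]
      have h1 : (1 : ℝ) ≤ (m 1 : ℝ) / K := by
        rw [le_div_iff₀ hK0, one_mul]
        exact_mod_cast hKm
      have h2 : (-(1 / u1)) * Uf (Real.log Q) κ 1 = -1 := by
        rw [← hu1]
        field_simp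
      simp only [Nat.totient_one, Nat.cast_one, one_mul]
      rw [h2]
      linarith) (by
      intro e he he1
      have h1 := hsup e he
      have h2 : Aop Q w g e = Aop Q w (fun d => (d.totient : ℝ) * m d / K) e
          + (β * Aop Q w (fun _ => 1) e + (-(1 / u1)) * Aop Q w (Uf (Real.log Q) κ) e) := by
        rw [hg, Aop_add, Aop_add, Aop_const Q w β, Aop_smul]
      have h3 := hA1 Q w e P.hw P.hQw he
      have h4 := P.hT
      have h5 := sub_sol (Q := Q) (w := w) (L := Real.log Q) (κ := κ)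
        (R := Real.log Q - Real.log w - C2) hL (by linarith) (by linarith) he he1
        (fun t ht => hdr Q w e t P.hw P.hQw he ht)
      have h6 : Real.log Q - Real.log w - C2 + κ = T + 1 := by
        rw [hκdef]
        ring
      rw [h6] at h5
      have h7 : 0 < 1 / u1 := by positivity
      rw [h2, hg]
      have h8 : β * Aop Q w (fun _ => 1) e ≤ β * T := by
        apply mul_le_mul_of_nonneg_left _ hβ0
        linarith
      have h9 : -(1 / u1) * Aop Q w (Uf (Real.log Q) κ) e
          ≤ -(1 / u1) * ((T + 1) * Uf (Real.log Q) κ e) := by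
        nlinarith
      simp only
      nlinarith) d hd
  -- conclusion
  have hEκ : 1 / 2 ≤ Et (1 / κ) d := by
    refine hEt.trans (Et_mono (by have := P.hLL; positivity) ?_ d)
    apply one_div_le_one_div_of_le (by linarith)
    exact P.hκ7
  have hu := le_Uf hκ1 hκQ d
  have hu1le := Uf_one_le hκ1 hκQ
  refine ⟨m d, ?_, ?_⟩
  · have hdm : d ∈ Icc 1 Q := by
      rw [mem_RD] at hd
      exact mem_Icc.2 hd.1
    rw [hpA]
    exact Dvd.dvd.mul_right (dvd_prod_of_mem (fun d => cyclotomic d ℤ ^ m d) hdm) A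
  · have hd0 : 0 < d := (mem_RD.1 hd).1.1
    have hφ : (0 : ℝ) < d.totient := by exact_mod_cast Nat.totient_pos.2 hd0
    have hLL := P.hLL
    have h1 : 1 / (100 * Real.log (Real.log n)) ≤ (d.totient : ℝ) * m d / K := by
      have h2 := P.hfin
      rw [hg] at hmin
      simp only at hmin
      have hlogL : 0 ≤ Real.log (Real.log Q) := Real.log_nonneg (by linarith)
      have h3 : 1 / 2 / (16 * (3 + Real.log (Real.log Q))) ≤ 1 / u1 * Uf (Real.log Q) κ d := by
        have h4 : (Real.log Q) / (3 + Real.log (Real.log Q)) ≤ 1 / u1 := by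
          rw [div_le_div_iff₀ (by linarith) hu1pos]
          rw [le_div_iff₀ hL] at hu1le
          linarith
        have h5 : 1 / 2 / (16 * Real.log Q) ≤ Uf (Real.log Q) κ d := by
          refine le_trans ?_ hu
          apply div_le_div_of_nonneg_right hEκ (by positivity)
        calc 1 / 2 / (16 * (3 + Real.log (Real.log Q)))
            = (Real.log Q) / (3 + Real.log (Real.log Q)) * (1 / 2 / (16 * Real.log Q)) := by
              field_simp
          _ ≤ 1 / u1 * Uf (Real.log Q) κ d := by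
              apply mul_le_mul h4 h5 (by positivity) (by positivity)
      linarith
    rw [div_le_iff₀ (by positivity)]
    rw [div_le_div_iff₀ (by positivity) hK0] at h1
    nlinarith

end

end Pool.Agent.H1.FV
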