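import Pool.Agent.H1.FV.Defs

/-!
Mass of rough squarefree integers.

Proof: `log Q ≤ ∑_(m ≤ Q) 1/m` (`log_add_one_le_harmonic` or similar). Every `m` is `b² a1 a2` with `a1` a
squarefree product of primes `≤ y` and `a2 ∈ RD Q y` (`Nat.sq_mul_squarefree`), so
`∑ 1/m ≤ (∑_b 1/b²) (∏_(p ≤ y) (1 + 1/p)) ∑_(a ∈ RD Q y) 1/a ≤ 2 * (3/2)(4/3) * C * (log y / log 3) * ∑ 1/φ(a)`
with `exists_mertens_prod` (`w = 3`, `z = y`, of `H35.V1.NT`). The Cauchy type product bounds can be done as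
in `mass_le_prod` of `H35.V1.Total`, or with an injection into a product of finsets.
-/

namespace Pool.Agent.H1.FV

open Polynomial Finset
open Pool.Agent.H35.V1 (Nm Gm PPr mem_PPr div_spec)

noncomputable section

private theorem mas_sq (Q : ℕ) : ∑ b ∈ Icc 1 Q, ((b : ℝ) ^ 2)⁻¹ ≤ 2 := by
  rcases Nat.eq_zero_or_pos Q with rfl | hQ
  · simp
  · have h1 : Icc 1 Q = insert 1 (Ioc 1 Q) := by
      ext x; simp only [mem_Icc, mem_insert, mem_Ioc]; omega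
    rw [h1, sum_insert (by simp)]
    have h2 := sum_Ioc_inv_sq_le_sub (α := ℝ) (k := 1) (n := Q) one_ne_zero hQ
    have h3 : (0 : ℝ) ≤ (Q : ℝ)⁻¹ := by positivity
    push_cast at h2 ⊢
    simp only [inv_one, one_pow] at h2 ⊢
    linarith

private theorem mas_split {m Q y : ℕ} (hm : m ∈ Icc 1 Q) :
    ∃ t : ℕ × Finset ℕ × ℕ, t ∈ Icc 1 Q ×ˢ (PPr 0 y).powerset ×ˢ RD Q y ∧
      t.1 ^ 2 * (∏ p ∈ t.2.1, p) * t.2.2 = m := by
  rw [mem_Icc] at hm
  obtain ⟨a, b, hab, ha⟩ := Nat.sq_mul_squarefree m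
  have hm0 : m ≠ 0 := by omega
  have hb0 : b ≠ 0 := by
    rintro rfl
    apply hm0
    rw [← hab]
    simp
  have ha0 : a ≠ 0 := ha.ne_zero
  have hbm : b ≤ m := by
    rw [← hab]
    calc b ≤ b ^ 2 := by nlinarith [Nat.pos_of_ne_zero hb0]
      _ ≤ b ^ 2 * a := Nat.le_mul_of_pos_right _ (Nat.pos_of_ne_zero ha0)
  have ham : a ≤ m := by
    rw [← hab]
    exact Nat.le_mul_of_pos_left _ (by positivity)
  have hprod : (∏ p ∈ a.primeFactors with p ≤ y, p) * (∏ p ∈ a.primeFactors with ¬ p ≤ y, p) = a := by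
    rw [prod_filter_mul_prod_filter_not, Nat.prod_primeFactors_of_squarefree ha]
  set d := ∏ p ∈ a.primeFactors with ¬ p ≤ y, p with hd
  have hdpf : d.primeFactors = a.primeFactors.filter (fun p => ¬ p ≤ y) := by
    rw [hd]
    apply Nat.primeFactors_prod
    intro p hp
    exact Nat.prime_of_mem_primeFactors (mem_filter.1 hp).1
  have hdvd : d ∣ a := ⟨_, by rw [mul_comm]; exact hprod.symm⟩
  refine ⟨(b, a.primeFactors.filter (fun p => p ≤ y), d), ?_, ?_⟩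
  · simp only [mem_product, mem_Icc, mem_powerset]
    refine ⟨⟨Nat.pos_of_ne_zero hb0, hbm.trans hm.2⟩, ?_, ?_⟩
    · intro p hp
      rw [mem_filter] at hp
      rw [mem_PPr]
      have hpp := Nat.prime_of_mem_primeFactors hp.1
      exact ⟨⟨hpp.pos, hp.2⟩, hpp⟩
    · rw [mem_RD]
      refine ⟨⟨Nat.pos_of_dvd_of_pos hdvd (Nat.pos_of_ne_zero ha0),
        (Nat.le_of_dvd (Nat.pos_of_ne_zero ha0) hdvd).trans (ham.trans hm.2)⟩,
        ha.squarefree_of_dvd hdvd, ?_⟩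
      intro p hp
      rw [hdpf, mem_filter] at hp
      omega
  · simp only
    rw [mul_assoc, hprod, hab]

private theorem mas_prod {C : ℝ} (hC : 0 < C) (h : ∀ w z : ℕ, 3 ≤ w → w ≤ z →
    ∏ p ∈ PPr w z, (1 + 1 / ((p : ℝ) - 1)) ≤ C * (Real.log z / Real.log w)) {y : ℕ} (hy : 3 ≤ y) :
    ∏ p ∈ PPr 0 y, (1 + 1 / (p : ℝ)) ≤ 2 * (C * Real.log y) := by
  have h1 : PPr 0 y = insert 2 (insert 3 (PPr 3 y)) := by
    ext p
    simp only [mem_insert, mem_PPr]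
    constructor
    · rintro ⟨⟨hp1, hp2⟩, hp⟩
      rcases Nat.lt_or_ge 3 p with h3 | h3
      · exact Or.inr (Or.inr ⟨⟨h3, hp2⟩, hp⟩)
      · have := hp.two_le
        have h4 : p = 2 ∨ p = 3 := by omega
        rcases h4 with rfl | rfl <;> simp
    · rintro (rfl | rfl | ⟨⟨h2, h3⟩, hp⟩)
      · exact ⟨⟨by norm_num, by omega⟩, Nat.prime_two⟩
      · exact ⟨⟨by norm_num, by omega⟩, Nat.prime_three⟩
      · exact ⟨⟨by omega, h3⟩, hp⟩
  have h2 : (2 : ℕ) ∉ insert 3 (PPr 3 y) := by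
    simp only [mem_insert, mem_PPr]
    rintro (h | ⟨⟨h, _⟩, _⟩) <;> omega
  have h3 : (3 : ℕ) ∉ PPr 3 y := by
    simp only [mem_PPr]
    rintro ⟨⟨h, _⟩, _⟩
    omega
  rw [h1, prod_insert h2, prod_insert h3]
  have h4 : ∏ p ∈ PPr 3 y, (1 + 1 / (p : ℝ)) ≤ ∏ p ∈ PPr 3 y, (1 + 1 / ((p : ℝ) - 1)) := by
    apply prod_le_prod
    · intro p _
      positivity
    · intro p hp
      rw [mem_PPr] at hp
      have : (3 : ℝ) < p := by exact_mod_cast hp.1.1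
      have h5 : 1 / (p : ℝ) ≤ 1 / ((p : ℝ) - 1) := by
        apply one_div_le_one_div_of_le <;> linarith
      linarith
  have h5 := h 3 y le_rfl hy
  have hl3 : 1 ≤ Real.log 3 := by
    rw [Real.le_log_iff_exp_le (by norm_num)]
    have := Real.exp_one_lt_d9
    linarith
  have hly : 0 ≤ Real.log y := Real.log_natCast_nonneg y
  have h6 : Real.log y / Real.log ((3 : ℕ) : ℝ) ≤ Real.log y := by
    push_cast
    exact div_le_self hly hl3
  have h7 : C * (Real.log y / Real.log ((3 : ℕ) : ℝ)) ≤ C * Real.log y :=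
    mul_le_mul_of_nonneg_left h6 hC.le
  have h8 : ∏ p ∈ PPr 3 y, (1 + 1 / (p : ℝ)) ≤ C * Real.log y := h4.trans (h5.trans h7)
  push_cast
  calc (1 + 1 / (2 : ℝ)) * ((1 + 1 / (3 : ℝ)) * ∏ p ∈ PPr 3 y, (1 + 1 / (p : ℝ)))
      = 2 * ∏ p ∈ PPr 3 y, (1 + 1 / (p : ℝ)) := by ring
    _ ≤ 2 * (C * Real.log y) := by linarith

theorem exists_rough_mass : ∃ C : ℝ, 0 < C ∧ ∀ Q y : ℕ, 1 ≤ Q → 3 ≤ y →
    Real.log Q ≤ C * Real.log y * ∑ d ∈ RD Q y, 1 / (d.totient : ℝ) := by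
  obtain ⟨C, hC, h⟩ := Pool.Agent.H35.V1.exists_mertens_prod
  refine ⟨4 * C, by positivity, fun Q y hQ hy => ?_⟩
  have hprod := mas_prod hC h hy
  have hly : 0 ≤ Real.log y := Real.log_natCast_nonneg y
  -- log Q ≤ sum 1/m
  have h1 : Real.log Q ≤ ∑ m ∈ Icc 1 Q, (m : ℝ)⁻¹ := by
    have h2 := log_add_one_le_harmonic Q
    rw [harmonic_eq_sum_Icc] at h2
    push_cast at h2
    refine le_trans ?_ h2
    apply Real.log_le_log
    · exact_mod_cast hQ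
    · linarith
  have hex : ∀ m : ℕ, ∃ t : ℕ × Finset ℕ × ℕ, m ∈ Icc 1 Q →
      (t ∈ Icc 1 Q ×ˢ (PPr 0 y).powerset ×ˢ RD Q y ∧
      t.1 ^ 2 * (∏ p ∈ t.2.1, p) * t.2.2 = m) := by
    intro m
    by_cases hm : m ∈ Icc 1 Q
    · obtain ⟨t, ht⟩ := mas_split (y := y) hm
      exact ⟨t, fun _ => ht⟩
    · exact ⟨(0, ∅, 0), fun h => absurd h hm⟩
  choose f hf using hex
  have hinj : Set.InjOn f (Icc 1 Q : Set ℕ) := by
    intro m hm m' hm' he
    have e1 := (hf m (mem_coe.1 hm)).2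
    have e2 := (hf m' (mem_coe.1 hm')).2
    rw [← e1, ← e2, he]
  have h2 : ∑ m ∈ Icc 1 Q, (m : ℝ)⁻¹ ≤
      ∑ t ∈ Icc 1 Q ×ˢ (PPr 0 y).powerset ×ˢ RD Q y,
        ((t.1 : ℝ) ^ 2)⁻¹ * ((∏ p ∈ t.2.1, (1 / (p : ℝ))) * (1 / (t.2.2 : ℝ))) := by
    calc ∑ m ∈ Icc 1 Q, (m : ℝ)⁻¹
        = ∑ m ∈ Icc 1 Q, (((f m).1 : ℝ) ^ 2)⁻¹ *
            ((∏ p ∈ (f m).2.1, (1 / (p : ℝ))) * (1 / ((f m).2.2 : ℝ))) := by
          apply sum_congr rfl
          intro m hm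
          have e1 := (hf m hm).2
          have e2 : (m : ℝ) = ((f m).1 : ℝ) ^ 2 * (∏ p ∈ (f m).2.1, (p : ℝ)) * ((f m).2.2 : ℝ) := by
            conv_lhs => rw [← e1]
            push_cast
            rfl
          rw [e2, mul_inv, mul_inv]
          simp only [one_div]
          rw [prod_inv_distrib]
          ring
      _ = ∑ t ∈ (Icc 1 Q).image f, ((t.1 : ℝ) ^ 2)⁻¹ *
            ((∏ p ∈ t.2.1, (1 / (p : ℝ))) * (1 / (t.2.2 : ℝ))) := by
          rw [sum_image (fun x hx y hy h => hinj (mem_coe.2 hx) (mem_coe.2 hy) h)]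
      _ ≤ _ := by
          apply sum_le_sum_of_subset_of_nonneg
          · intro t ht
            rw [mem_image] at ht
            obtain ⟨m, hm, rfl⟩ := ht
            exact (hf m hm).1
          · intro t _ _
            positivity
  have h3 : ∑ t ∈ Icc 1 Q ×ˢ (PPr 0 y).powerset ×ˢ RD Q y,
        ((t.1 : ℝ) ^ 2)⁻¹ * ((∏ p ∈ t.2.1, (1 / (p : ℝ))) * (1 / (t.2.2 : ℝ)))
      = (∑ b ∈ Icc 1 Q, ((b : ℝ) ^ 2)⁻¹) * ((∏ p ∈ PPr 0 y, (1 + 1 / (p : ℝ))) *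
          ∑ d ∈ RD Q y, 1 / (d : ℝ)) := by
    rw [sum_product, prod_one_add, sum_mul]
    apply sum_congr rfl
    intro b _
    rw [sum_product, sum_mul, mul_sum]
    apply sum_congr rfl
    intro A _
    rw [mul_sum, mul_sum]
  have h4 : ∑ d ∈ RD Q y, 1 / (d : ℝ) ≤ ∑ d ∈ RD Q y, 1 / (d.totient : ℝ) := by
    apply sum_le_sum
    intro d hd
    have hd0 : 0 < d := (mem_RD.1 hd).1.1
    apply one_div_le_one_div_of_le
    · exact_mod_cast Nat.totient_pos.2 hd0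
    · exact_mod_cast Nat.totient_le d
  have hS0 : 0 ≤ ∑ d ∈ RD Q y, 1 / (d : ℝ) := sum_nonneg fun d _ => by positivity
  have hP0 : 0 ≤ ∏ p ∈ PPr 0 y, (1 + 1 / (p : ℝ)) := prod_nonneg fun p _ => by positivity
  calc Real.log Q ≤ _ := h1
    _ ≤ _ := h2
    _ = _ := h3
    _ ≤ 2 * ((2 * (C * Real.log y)) * ∑ d ∈ RD Q y, 1 / (d.totient : ℝ)) := by
        apply mul_le_mul (mas_sq Q) _ (by positivity) (by norm_num)
        exact mul_le_mul hprod h4 hS0 (by positivity)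
    _ = 4 * C * Real.log y * ∑ d ∈ RD Q y, 1 / (d.totient : ℝ) := by ring


end

end Pool.Agent.H1.FV
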