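import Pool.Agent.H1.FV.Defs

/-!
The norm inequality at the primitive `q`-th roots of unity.

Proof: `taylor_bound` of `H35.V1.Step` at every primitive `q`-th root of unity `z`:
`‖aeval z A‖ ≤ C(n+1, m q + 1) / hz Q q m z`. Multiply over all `z`: `1 ≤ Nm q A ≤ C^φ(q) / ∏ hz`
(`one_le_Nm`, `Complex.card_primitiveRoots`, `hz_pos`, `prod_hz`), then take logarithms
(all norms are `≥ 1`: `one_le_Nm_cyc`, `one_le_Nm_deriv`; the binomial coefficient is positive because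
`Nm q A ≥ 1`).
-/

namespace Pool.Agent.H1.FV

open Polynomial Finset
open Pool.Agent.H35.V1 (Nm Gm PPr mem_PPr div_spec)

noncomputable section


theorem norm_ineq {n Q q : ℕ} (hq : q ∈ Icc 1 Q) (m : ℕ → ℕ) (A : ℤ[X])
    (hdeg : (Gm Q m * A).natDegree ≤ n) (hc : ∀ i, |(Gm Q m * A).coeff i| ≤ 1)
    (hA : ¬ cyclotomic q ℤ ∣ A) :
    (m q : ℝ) * Real.log (Nm q (derivative (cyclotomic q ℤ)))
      + ∑ d ∈ (Icc 1 Q).erase q, (m d : ℝ) * Real.log (Nm q (cyclotomic d ℤ))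
      ≤ (q.totient : ℝ) * Real.log ((n + 1).choose (m q + 1)) := by
  have hq0 : 0 < q := (mem_Icc.1 hq).1
  obtain ⟨b, hb⟩ : ∃ b : ℝ, b = ((n + 1).choose (m q + 1) : ℝ) := ⟨_, rfl⟩
  rw [← hb]
  have h1 : 1 ≤ Nm q A := Pool.Agent.H35.V1.one_le_Nm hq0 hA
  have hP : ∏ z ∈ primitiveRoots q ℂ, Pool.Agent.H35.V1.hz Q q m z
      = Nm q (derivative (cyclotomic q ℤ)) ^ m q
        * ∏ d ∈ (Icc 1 Q).erase q, Nm q (cyclotomic d ℤ) ^ m d :=
    Pool.Agent.H35.V1.prod_hz m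
  have hPpos : 0 < ∏ z ∈ primitiveRoots q ℂ, Pool.Agent.H35.V1.hz Q q m z :=
    prod_pos fun z hz' => Pool.Agent.H35.V1.hz_pos hq0 m hz'
  have h2 : Nm q A ≤ ∏ z ∈ primitiveRoots q ℂ, b / Pool.Agent.H35.V1.hz Q q m z := by
    unfold Pool.Agent.H35.V1.Nm
    refine prod_le_prod (fun _ _ => norm_nonneg _) fun z hz' => ?_
    rw [hb]
    exact Pool.Agent.H35.V1.taylor_bound hq m A hdeg hc hz'
  have h3 : ∏ z ∈ primitiveRoots q ℂ, Pool.Agent.H35.V1.hz Q q m z ≤ b ^ q.totient := by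
    rw [prod_div_distrib, prod_const, Complex.card_primitiveRoots] at h2
    have h4 := h1.trans h2
    rwa [le_div_iff₀ hPpos, one_mul] at h4
  have h5 := Real.log_le_log hPpos h3
  have hd : 0 < Nm q (derivative (cyclotomic q ℤ)) :=
    lt_of_lt_of_le one_pos (Pool.Agent.H35.V1.one_le_Nm_deriv hq0)
  have hc' : ∀ d ∈ (Icc 1 Q).erase q, 0 < Nm q (cyclotomic d ℤ) := by
    intro d hd
    rw [mem_erase] at hd
    exact lt_of_lt_of_le one_pos (Pool.Agent.H35.V1.one_le_Nm_cyc hq0 (Ne.symm hd.1))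
  rw [hP, Real.log_mul (pow_pos hd _).ne' (prod_pos fun d hd => pow_pos (hc' d hd) _).ne',
    Real.log_pow, Real.log_pow, Real.log_prod (fun d hd => (pow_pos (hc' d hd) _).ne')] at h5
  simp only [Real.log_pow] at h5
  exact h5


end

end Pool.Agent.H1.FV
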