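import Pool.Agent.H1.FV.Fin

/-!
From the inequality for large `n` to the final statement.
-/

namespace Pool.Agent.H1.FV

open Polynomial Finset Filter

noncomputable section

/-- `Λ(p) = log (‖p‖₂ / M(p))`. -/
def Lam (p : ℤ[X]) : ℝ := Real.log (Real.sqrt (∑ i ∈ p.support, (p.coeff i : ℝ) ^ 2)
  / (p.map (Int.castRingHom ℂ)).mahlerMeasure)

theorem map_ne_zero' {p : ℤ[X]} (hp : p ≠ 0) : p.map (Int.castRingHom ℂ) ≠ 0 :=
  (Polynomial.map_ne_zero_iff (by exact Int.cast_injective)).2 hp

theorem landau {p : ℤ[X]} : (p.map (Int.castRingHom ℂ)).mahlerMeasure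
    ≤ Real.sqrt (∑ i ∈ p.support, (p.coeff i : ℝ) ^ 2) := by
  have h := mahlerMeasure_le_sqrt_sum_sq_norm_coeff (p.map (Int.castRingHom ℂ))
  refine h.trans (le_of_eq ?_)
  congr 1
  rw [support_map_of_injective p (by exact Int.cast_injective)]
  apply sum_congr rfl
  intro i _
  rw [coeff_map]
  simp only [eq_intCast, Complex.norm_intCast, sq_abs]

theorem Lam_nonneg {p : ℤ[X]} (hp : p ≠ 0) : 0 ≤ Lam p := by
  unfold Lam
  apply Real.log_nonneg
  rw [one_le_div (mahlerMeasure_pos_of_ne_zero (map_ne_zero' hp))]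
  exact landau

theorem eventually_big (B : ℝ) : ∃ N : ℕ, ∀ n : ℕ, N ≤ n →
    B * Real.log (Real.log n) ^ 3 < Real.log n := by
  have h1 : Tendsto (fun n : ℕ => Real.log (n : ℝ)) atTop atTop :=
    Real.tendsto_log_atTop.comp tendsto_natCast_atTop_atTop
  have h2 := (Real.isLittleO_pow_log_id_atTop (n := 3)).comp_tendsto h1
  have h3 := h2.bound (show (0 : ℝ) < 1 / (2 * (|B| + 1)) by positivity)
  have h4 := h1.eventually_ge_atTop 1
  obtain ⟨N, hN⟩ := eventually_atTop.1 (h3.and h4)
  refine ⟨N, fun n hn => ?_⟩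
  obtain ⟨h5, h6⟩ := hN n hn
  simp only [Function.comp, id, Real.norm_eq_abs] at h5
  rw [abs_of_pos (show 0 < Real.log (n : ℝ) by linarith), abs_pow] at h5
  have h7 : B * Real.log (Real.log n) ^ 3 ≤ (|B| + 1) * |Real.log (Real.log n)| ^ 3 := by
    calc B * Real.log (Real.log n) ^ 3 ≤ |B * Real.log (Real.log n) ^ 3| := le_abs_self _
      _ = |B| * |Real.log (Real.log n)| ^ 3 := by rw [abs_mul, abs_pow]
      _ ≤ (|B| + 1) * |Real.log (Real.log n)| ^ 3 := by
          apply mul_le_mul_of_nonneg_right (by linarith) (by positivity)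
  have h8 : (|B| + 1) * |Real.log (Real.log n)| ^ 3 ≤ 1 / 2 * Real.log n := by
    calc (|B| + 1) * |Real.log (Real.log n)| ^ 3
        ≤ (|B| + 1) * (1 / (2 * (|B| + 1)) * Real.log n) :=
          mul_le_mul_of_nonneg_left h5 (by positivity)
      _ = 1 / 2 * Real.log n := by
          have : |B| + 1 ≠ 0 := by positivity
          field_simp
  linarith

theorem LL3_pos {n : ℕ} (hn : 3 ≤ n) : 0 < Real.log (Real.log 3) ∧
    Real.log (Real.log 3) ≤ Real.log (Real.log n) ∧ 1 < Real.log n := by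
  have h3 : (1 : ℝ) < Real.log 3 := by
    rw [Real.lt_log_iff_exp_lt (by norm_num)]
    have := Real.exp_one_lt_d9
    linarith
  have h4 : Real.log 3 ≤ Real.log n := Real.log_le_log (by norm_num) (by exact_mod_cast hn)
  exact ⟨Real.log_pos h3, Real.log_le_log (by linarith) h4, by linarith⟩

theorem part1 : ∃ C : ℝ, 0 < C ∧ ∀ n : ℕ, 3 ≤ n → ∀ p : ℤ[X], p ≠ 0 → p.natDegree ≤ n →
    (∀ i, |p.coeff i| ≤ 1) →
    min ((p.rootMultiplicity 1 : ℝ) ^ 2) n * Real.log n
      ≤ C * n * Real.log (Real.log n) ^ 3 * (1 + Lam p) := by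
  obtain ⟨C0, hC0, n0, hbig⟩ := big
  set N := max n0 16 with hN
  have hl3 : 0 < Real.log (Real.log 3) := (LL3_pos le_rfl).1
  set C2 := max (4 * C0 + 4) (Real.log N / Real.log (Real.log 3) ^ 3) with hC
  refine ⟨C2, lt_of_lt_of_le (by linarith) (le_max_left _ _), fun n hn p hp hdeg hc => ?_⟩
  obtain ⟨_, hLL, hln⟩ := LL3_pos hn
  have hLam := Lam_nonneg hp
  have hn0 : (0 : ℝ) < n := by exact_mod_cast (by omega : 0 < n)
  have hLL0 : 0 < Real.log (Real.log n) := lt_of_lt_of_le hl3 hLL
  rcases lt_or_ge n N with hlt | hge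
  · have h1 : min ((p.rootMultiplicity 1 : ℝ) ^ 2) n * Real.log n ≤ n * Real.log N := by
      apply mul_le_mul (min_le_right _ _) _ (by linarith) hn0.le
      exact Real.log_le_log hn0 (by exact_mod_cast hlt.le)
    refine h1.trans ?_
    have h2 : Real.log N ≤ C2 * Real.log (Real.log n) ^ 3 := by
      calc Real.log N = Real.log N / Real.log (Real.log 3) ^ 3 * Real.log (Real.log 3) ^ 3 := by
            field_simp
        _ ≤ C2 * Real.log (Real.log n) ^ 3 := by
            apply mul_le_mul (le_max_right _ _) _ (by positivity)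
            · exact le_trans (by linarith) (le_max_left _ _)
            · gcongr
    calc (n : ℝ) * Real.log N ≤ n * (C2 * Real.log (Real.log n) ^ 3) :=
          mul_le_mul_of_nonneg_left h2 hn0.le
      _ = C2 * n * Real.log (Real.log n) ^ 3 * 1 := by ring
      _ ≤ C2 * n * Real.log (Real.log n) ^ 3 * (1 + Lam p) := by
          apply mul_le_mul_of_nonneg_left (by linarith)
          have : 0 < C2 := lt_of_lt_of_le (by linarith) (le_max_left _ _)
          positivity
  · set k := p.rootMultiplicity 1 with hk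
    set K := min k (Nat.sqrt n) with hKdef
    have hsq : Nat.sqrt n * Nat.sqrt n ≤ n := Nat.sqrt_le n
    have hsq2 : n < (Nat.sqrt n + 1) * (Nat.sqrt n + 1) := Nat.lt_succ_sqrt n
    have hs1 : 1 ≤ Nat.sqrt n := by
      rw [Nat.le_sqrt]
      omega
    have hK2 : K ^ 2 ≤ n := by
      have : K ≤ Nat.sqrt n := min_le_right _ _
      nlinarith
    have hmin : min ((k : ℝ) ^ 2) n ≤ 4 * (K : ℝ) ^ 2 := by
      rcases le_total k (Nat.sqrt n) with h | h
      · rw [hKdef, min_eq_left h]
        refine (min_le_left _ _).trans ?_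
        nlinarith [sq_nonneg (k : ℝ)]
      · rw [hKdef, min_eq_right h]
        refine (min_le_right _ _).trans ?_
        have h1 : n ≤ 4 * (Nat.sqrt n) ^ 2 := by nlinarith
        exact_mod_cast h1
    have h16 : Real.exp 1 ≤ Real.log n := by
      have h1 : (16 : ℝ) ≤ n := by
        have : 16 ≤ n := le_trans (le_max_right _ _) hge
        exact_mod_cast this
      have h2 : Real.log 16 ≤ Real.log n := Real.log_le_log (by norm_num) h1
      have h3 : Real.log 16 = 4 * Real.log 2 := by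
        rw [show (16 : ℝ) = 2 ^ 4 by norm_num, Real.log_pow]
        norm_num
      have := Real.log_two_gt_d9
      have := Real.exp_one_lt_d9
      linarith
    have hLL1 : 1 ≤ Real.log (Real.log n) := by
      rw [Real.le_log_iff_exp_le (by linarith)]
      exact h16
    have hpow1 : 1 ≤ Real.log (Real.log n) ^ 3 := one_le_pow₀ hLL1
    have hCle : 4 * C0 + 4 ≤ C2 := le_max_left _ _
    have hC0' : 0 < C2 := by linarith
    rcases le_total (n : ℝ) ((K : ℝ) ^ 2 * Real.log n) with h | h
    · have hdvd : (X - 1 : ℤ[X]) ^ K ∣ p := by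
        have h1 : (X - C (1 : ℤ)) ^ k ∣ p := pow_rootMultiplicity_dvd p 1
        rw [map_one] at h1
        exact (pow_dvd_pow _ (min_le_left _ _)).trans h1
      have h1 := hbig n (le_trans (le_max_left _ _) hge) K h hK2 p hp hdeg hc hdvd
      have h2 : (K : ℝ) ^ 2 * Real.log n ≤ C0 * n * Real.log (Real.log n) ^ 3 * Lam p := h1
      calc min ((k : ℝ) ^ 2) n * Real.log n ≤ 4 * (K : ℝ) ^ 2 * Real.log n :=
            mul_le_mul_of_nonneg_right hmin (by linarith)
        _ ≤ 4 * (C0 * n * Real.log (Real.log n) ^ 3 * Lam p) := by linarith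
        _ = 4 * C0 * (n * Real.log (Real.log n) ^ 3 * Lam p) := by ring
        _ ≤ C2 * (n * Real.log (Real.log n) ^ 3 * (1 + Lam p)) := by
            apply mul_le_mul (by linarith) _ (by positivity) hC0'.le
            apply mul_le_mul_of_nonneg_left (by linarith) (by positivity)
        _ = _ := by ring
    · calc min ((k : ℝ) ^ 2) n * Real.log n ≤ 4 * (K : ℝ) ^ 2 * Real.log n :=
            mul_le_mul_of_nonneg_right hmin (by linarith)
        _ ≤ 4 * n := by linarith
        _ = 4 * n * 1 * 1 := by ring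
        _ ≤ C2 * n * Real.log (Real.log n) ^ 3 * (1 + Lam p) := by
            apply mul_le_mul _ (by linarith) zero_le_one (by positivity)
            apply mul_le_mul _ hpow1 zero_le_one (by positivity)
            apply mul_le_mul_of_nonneg_right (by linarith) hn0.le

theorem part2 {c : ℝ} (hc0 : 0 < c) : ∃ C : ℝ, 0 < C ∧ ∀ n : ℕ, 3 ≤ n → ∀ p : ℤ[X], p ≠ 0 →
    p.natDegree ≤ n → (∀ i, |p.coeff i| ≤ 1) →
    c * Real.sqrt (∑ i ∈ p.support, (p.coeff i : ℝ) ^ 2)
      ≤ (p.map (Int.castRingHom ℂ)).mahlerMeasure →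
    (p.rootMultiplicity 1 : ℝ)
      ≤ C * Real.sqrt n * Real.log (Real.log n) ^ (3 / 2 : ℝ) / Real.sqrt (Real.log n) := by
  obtain ⟨C1, hC1, h1⟩ := part1
  set c' := min c 1 with hc'
  have hc'0 : 0 < c' := lt_min hc0 one_pos
  have hc'1 : c' ≤ 1 := min_le_right _ _
  set B := C1 * (1 + Real.log (1 / c')) with hB
  have hlogc : 0 ≤ Real.log (1 / c') := Real.log_nonneg (by rw [one_le_div hc'0]; exact hc'1)
  have hB0 : 0 < B := by positivity
  obtain ⟨N, hN⟩ := eventually_big B
  refine ⟨Real.sqrt B * (Real.sqrt N + 1), by positivity, fun n hn p hp hdeg hcoef hM => ?_⟩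
  obtain ⟨hl3, hLL, hln⟩ := LL3_pos hn
  have hLL0 : 0 < Real.log (Real.log n) := lt_of_lt_of_le hl3 hLL
  have hn0 : (0 : ℝ) < n := by exact_mod_cast (by omega : 0 < n)
  have hMpos := mahlerMeasure_pos_of_ne_zero (map_ne_zero' hp)
  have hLam : Lam p ≤ Real.log (1 / c') := by
    unfold Lam
    apply Real.log_le_log
    · apply div_pos (lt_of_lt_of_le hMpos landau) hMpos
    · rw [div_le_div_iff₀ hMpos hc'0, one_mul, mul_comm]
      refine le_trans ?_ hM
      apply mul_le_mul_of_nonneg_right (min_le_left _ _) (Real.sqrt_nonneg _)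
  have h2 := h1 n hn p hp hdeg hcoef
  set k := p.rootMultiplicity 1 with hk
  have h3 : min ((k : ℝ) ^ 2) n * Real.log n ≤ B * n * Real.log (Real.log n) ^ 3 := by
    refine h2.trans ?_
    rw [hB]
    have h4 : 0 ≤ C1 * n * Real.log (Real.log n) ^ 3 := by positivity
    calc C1 * n * Real.log (Real.log n) ^ 3 * (1 + Lam p)
        ≤ C1 * n * Real.log (Real.log n) ^ 3 * (1 + Real.log (1 / c')) :=
          mul_le_mul_of_nonneg_left (by linarith) h4
      _ = _ := by ring
  -- the target, squared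
  set R := Real.sqrt B * Real.sqrt n * Real.log (Real.log n) ^ (3 / 2 : ℝ)
    / Real.sqrt (Real.log n) with hR
  have hRnn : 0 ≤ R := by positivity
  have hR2 : R ^ 2 = B * n * Real.log (Real.log n) ^ 3 / Real.log n := by
    rw [hR, div_pow, mul_pow, mul_pow, Real.sq_sqrt hB0.le, Real.sq_sqrt hn0.le,
      Real.sq_sqrt (by linarith), ← Real.rpow_natCast (Real.log (Real.log n) ^ (3 / 2 : ℝ)) 2,
      ← Real.rpow_mul hLL0.le]
    norm_num
  have hRC : Real.sqrt B * (Real.sqrt N + 1) * Real.sqrt n * Real.log (Real.log n) ^ (3 / 2 : ℝ)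
      / Real.sqrt (Real.log n) = (Real.sqrt N + 1) * R := by
    rw [hR]
    ring
  rw [hRC]
  rcases le_total ((k : ℝ) ^ 2) n with h | h
  · rw [min_eq_left h] at h3
    have h4 : (k : ℝ) ^ 2 ≤ R ^ 2 := by
      rw [hR2, le_div_iff₀ (by linarith)]
      exact h3
    have h5 : (k : ℝ) ≤ R := by
      exact (sq_le_sq₀ (Nat.cast_nonneg k) hRnn).1 h4
    nlinarith [Real.sqrt_nonneg (N : ℝ)]
  · rw [min_eq_right h] at h3
    have h4 : Real.log n ≤ B * Real.log (Real.log n) ^ 3 := by
      have h5 : n * Real.log n ≤ n * (B * Real.log (Real.log n) ^ 3) := by linarith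
      exact le_of_mul_le_mul_left h5 hn0
    have h5 : n < N := by
      by_contra h6
      have := hN n (by omega)
      linarith
    have h6 : Real.sqrt n ≤ R := by
      have h7 : Real.sqrt n ^ 2 ≤ R ^ 2 := by
        rw [hR2, Real.sq_sqrt hn0.le, le_div_iff₀ (by linarith)]
        exact h3
      exact (sq_le_sq₀ (Real.sqrt_nonneg _) hRnn).1 h7
    have h7 : k ≤ n := by
      have h8 : (X - C (1 : ℤ)) ^ k ∣ p := pow_rootMultiplicity_dvd p 1
      have h9 := natDegree_le_of_dvd h8 hp
      rw [natDegree_pow, natDegree_X_sub_C, mul_one] at h9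
      exact h9.trans hdeg
    have h8 : (k : ℝ) ≤ Real.sqrt n * Real.sqrt n := by
      rw [Real.mul_self_sqrt hn0.le]
      exact_mod_cast h7
    have h9 : Real.sqrt n ≤ Real.sqrt N := Real.sqrt_le_sqrt (by exact_mod_cast h5.le)
    calc (k : ℝ) ≤ Real.sqrt n * Real.sqrt n := h8
      _ ≤ (Real.sqrt N + 1) * R := by
          apply mul_le_mul (by linarith) h6 (Real.sqrt_nonneg _) (by positivity)

end

end Pool.Agent.H1.FV
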