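import Pool.Agent.H1.FV.Der

/-!
The subsolution.

Proof. `Wt L κ` is continuous on `[0, ∞)` (the two branches agree at `1/L`), positive, and has derivative
`-(κ + L) W` on `t < 1/L` and `-(κ + 1/t) W` on `t > 1/L`. On each of the intervals `[0, 1/L]`,
`[1/L, 2/κ]` (note `1/L ≤ 2/κ`) the function `F t = Wt L κ t * Et t d` satisfies
`F t` = `-(κ + min (1/t) L) * F t + Wt L κ t * (∑_(p|d) log p * Et t (d/p) - log d * Et t d)` (derivative),
so by the fundamental theorem of calculus on both pieces (values at `1/L` cancel)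
`∫_0^(2/κ) W * (∑ log p Et(d/p) - log d Et d) = F (2/κ) - F 0 + ∫_0^(2/κ) (κ + min (1/t) L) * W * Et`
and `F 0 = 0` (`Et_zero`), `F (2/κ) ≥ 0`. By linearity of the integral
`Aop Q w (Uf L κ) d = ∫ W * (∑_(p|d) log p * Et t (d/p) + ∑_(p ∈ UD) log p/(p-1) * (1 - p^(-t)) * Et t d)`
(`Et_mul`), and by the hypothesis `hdr` this is `≥ ∫ W * (derivative of Et) + ∫ W * Et * (R - min (1/t) L)`
`≥ (R + κ) * ∫ W * Et`. Intervals: all integrands are piecewise continuous, hence interval integrable;
it may be convenient to do everything on the two pieces separately.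
-/

namespace Pool.Agent.H1.FV

open Polynomial Finset
open Pool.Agent.H35.V1 (Nm Gm PPr mem_PPr div_spec)

noncomputable section

private theorem Sub_Wt_eq {L κ : ℝ} (hL : 0 < L) (t : ℝ) :
    Wt L κ t = Real.exp (-(κ * t)) * Real.exp (1 - min (L * t) 1) / max (L * t) 1 := by
  unfold Wt
  have h1 : t ≤ 1 / L ↔ L * t ≤ 1 := by
    rw [le_div_iff₀ hL, mul_comm]
  by_cases h : t ≤ 1 / L
  · rw [if_pos h, min_eq_left (h1.mp h), max_eq_right (h1.mp h), div_one, ← Real.exp_add]
    congr 1
    ring
  · have h2 : 1 ≤ L * t := by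
      by_contra h3
      exact h (h1.mpr (by linarith))
    rw [if_neg h, min_eq_right h2, max_eq_left h2, sub_self, Real.exp_zero, mul_one]

private theorem Sub_Wt_cont {L κ : ℝ} (hL : 0 < L) : Continuous (Wt L κ) := by
  have h1 : Wt L κ = fun t => Real.exp (-(κ * t)) * Real.exp (1 - min (L * t) 1) / max (L * t) 1 :=
    funext (Sub_Wt_eq hL)
  rw [h1]
  refine Continuous.div (by fun_prop) (by fun_prop) (fun t => ?_)
  have : (1 : ℝ) ≤ max (L * t) 1 := le_max_right _ _
  linarith

theorem Wt_pos {L κ t : ℝ} (hL : 0 < L) (ht : 0 ≤ t) : 0 < Wt L κ t := by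
  have _ := ht
  rw [Sub_Wt_eq hL]
  have : (1 : ℝ) ≤ max (L * t) 1 := le_max_right _ _
  have h2 : (0 : ℝ) < max (L * t) 1 := by linarith
  positivity

theorem Wt_continuousOn {L κ : ℝ} (hL : 0 < L) : ContinuousOn (Wt L κ) (Set.Ici 0) :=
  (Sub_Wt_cont hL).continuousOn

private theorem Sub_rpow_cont {p : ℕ} (hp : 0 < p) : Continuous (fun t : ℝ => (p : ℝ) ^ (-t)) := by
  have hp0 : (p : ℝ) ≠ 0 := by exact_mod_cast hp.ne'
  exact continuous_const.rpow continuous_neg (fun _ => Or.inl hp0)

private theorem Sub_Et_cont (d : ℕ) : Continuous (fun t : ℝ => Et t d) := by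
  unfold Et
  refine continuous_finsetProd _ (fun p hp => ?_)
  exact continuous_const.sub (Sub_rpow_cont (Nat.prime_of_mem_primeFactors hp).pos)

private theorem Sub_lin (c t : ℝ) : HasDerivAt (fun s : ℝ => c * s) c t := by
  simpa using (hasDerivAt_id t).const_mul c

private theorem Sub_der1 {L κ t : ℝ} (ht : t < 1 / L) :
    HasDerivAt (Wt L κ) (-(κ + L) * Wt L κ t) t := by
  have h1 : HasDerivAt (fun s : ℝ => Real.exp (1 - L * s - κ * s))
      (Real.exp (1 - L * t - κ * t) * (-(κ + L))) t := by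
    have h2 : HasDerivAt (fun s : ℝ => 1 - L * s - κ * s) (-(κ + L)) t := by
      have h3 := (Sub_lin L t).const_sub 1
      have h4 := h3.sub (Sub_lin κ t)
      have e : -(κ + L) = -L - κ := by ring
      rw [e]
      exact h4
    exact h2.exp
  have h5 : Wt L κ t = Real.exp (1 - L * t - κ * t) := by
    unfold Wt
    rw [if_pos ht.le]
  rw [h5]
  have h6 : HasDerivAt (Wt L κ) (Real.exp (1 - L * t - κ * t) * (-(κ + L))) t := by
    refine h1.congr_of_eventuallyEq ?_
    filter_upwards [Iio_mem_nhds ht] with s hs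
    unfold Wt
    rw [if_pos (le_of_lt hs)]
  convert h6 using 1
  ring

private theorem Sub_der2 {L κ t : ℝ} (hL : 0 < L) (ht : 1 / L < t) :
    HasDerivAt (Wt L κ) (-(κ + 1 / t) * Wt L κ t) t := by
  have hL1 : 0 < 1 / L := by positivity
  have ht0 : 0 < t := hL1.trans ht
  have h1 : HasDerivAt (fun s : ℝ => Real.exp (-(κ * s)) / (L * s))
      ((Real.exp (-(κ * t)) * (-κ) * (L * t) - Real.exp (-(κ * t)) * L) / (L * t) ^ 2) t := by
    have h2 : HasDerivAt (fun s : ℝ => -(κ * s)) (-κ) t := (Sub_lin κ t).neg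
    have h4 : HasDerivAt (fun s : ℝ => L * s) L t := Sub_lin L t
    exact h2.exp.div h4 (by positivity)
  have h5 : Wt L κ t = Real.exp (-(κ * t)) / (L * t) := by
    unfold Wt
    rw [if_neg (not_le.mpr ht)]
  rw [h5]
  have h6 : HasDerivAt (Wt L κ)
      ((Real.exp (-(κ * t)) * (-κ) * (L * t) - Real.exp (-(κ * t)) * L) / (L * t) ^ 2) t := by
    refine h1.congr_of_eventuallyEq ?_
    filter_upwards [Ioi_mem_nhds ht] with s hs
    unfold Wt
    rw [if_neg (not_le.mpr hs)]
  convert h6 using 1
  field_simp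
  ring

/-- the comparison on one piece -/
private theorem Sub_piece {a b c : ℝ} (hab : a ≤ b) {F F' A : ℝ → ℝ} (hF : Continuous F)
    (hF' : ContinuousOn F' (Set.Icc a b)) (hA : Continuous A)
    (hder : ∀ t ∈ Set.Ioo a b, HasDerivAt F (F' t) t)
    (hle : ∀ t ∈ Set.Icc a b, F' t + c * F t ≤ A t) :
    F b - F a + c * ∫ t in a..b, F t ≤ ∫ t in a..b, A t := by
  have hint' : IntervalIntegrable F' MeasureTheory.volume a b :=
    ContinuousOn.intervalIntegrable (by rwa [Set.uIcc_of_le hab])
  have h1 := intervalIntegral.integral_eq_sub_of_hasDerivAt_of_le hab hF.continuousOn hder hint'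
  have hint : IntervalIntegrable F MeasureTheory.volume a b := hF.intervalIntegrable a b
  have hintA : IntervalIntegrable A MeasureTheory.volume a b := hA.intervalIntegrable a b
  have h2 := intervalIntegral.integral_mono_on hab (hint'.add (hint.const_mul c)) hintA hle
  have h3 : ∫ t in a..b, (F' t + c * F t) = (∫ t in a..b, F' t) + c * ∫ t in a..b, F t := by
    rw [intervalIntegral.integral_add hint' (hint.const_mul c),
      intervalIntegral.integral_const_mul]
  rw [h3, h1] at h2
  exact h2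

theorem sub_sol {Q w : ℕ} {L κ R : ℝ} (hL : 0 < L) (hκ : 0 < κ) (hLκ : κ ≤ 2 * L) {d : ℕ}
    (hd : d ∈ RD Q w) (hd1 : d ≠ 1)
    (hdr : ∀ t : ℝ, 0 < t → R - min (1 / t) L
      ≤ Real.log d + ∑ p ∈ UD Q w d, Real.log p / ((p : ℝ) - 1) * (1 - (p : ℝ) ^ (-t))) :
    (R + κ) * Uf L κ d ≤ Aop Q w (Uf L κ) d := by
  have hdR := mem_RD.mp hd
  have hd0 : 0 < d := hdR.1.1
  obtain ⟨W, hW⟩ : ∃ W, W = Wt L κ := ⟨_, rfl⟩
  have hWc : Continuous W := by rw [hW]; exact Sub_Wt_cont hL
  have hWp : ∀ t, 0 ≤ t → 0 < W t := fun t ht => by rw [hW]; exact Wt_pos hL ht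
  -- the integrand of `Aop`
  obtain ⟨A, hA⟩ : ∃ A : ℝ → ℝ, A = fun t => ∑ p ∈ d.primeFactors, Real.log p * (W t * Et t (d / p))
    + ∑ p ∈ UD Q w d, Real.log p / ((p : ℝ) - 1) * (W t * Et t (d * p)) := ⟨_, rfl⟩
  obtain ⟨F, hF⟩ : ∃ F : ℝ → ℝ, F = fun t => W t * Et t d := ⟨_, rfl⟩
  obtain ⟨G, hG⟩ : ∃ G : ℝ → ℝ, G = fun t => ∑ p ∈ d.primeFactors, Real.log p * Et t (d / p)
    - Real.log d * Et t d := ⟨_, rfl⟩
  have hFc : Continuous F := by
    rw [hF]
    exact hWc.mul (Sub_Et_cont d)
  have hGc : Continuous G := by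
    rw [hG]
    refine Continuous.sub (continuous_finsetSum _ fun p _ => continuous_const.mul (Sub_Et_cont _))
      (continuous_const.mul (Sub_Et_cont d))
  have hAc : Continuous A := by
    rw [hA]
    refine Continuous.add (continuous_finsetSum _ fun p _ => ?_)
      (continuous_finsetSum _ fun p _ => ?_)
    · exact continuous_const.mul (hWc.mul (Sub_Et_cont _))
    · exact continuous_const.mul (hWc.mul (Sub_Et_cont _))
  have hEd : ∀ t, HasDerivAt (fun s => Et s d) (G t) t := by
    intro t
    rw [hG]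
    exact hasDerivAt_Et hdR.2.1 t
  have hAeq : ∀ t, A t = W t * G t + (Real.log d +
      ∑ p ∈ UD Q w d, Real.log p / ((p : ℝ) - 1) * (1 - (p : ℝ) ^ (-t))) * F t := by
    intro t
    rw [hA, hG, hF]
    simp only
    have h1 : ∑ p ∈ UD Q w d, Real.log p / ((p : ℝ) - 1) * (W t * Et t (d * p)) =
        (∑ p ∈ UD Q w d, Real.log p / ((p : ℝ) - 1) * (1 - (p : ℝ) ^ (-t))) * (W t * Et t d) := by
      rw [Finset.sum_mul]
      refine Finset.sum_congr rfl fun p hp => ?_
      have hp' := mem_UD.mp hp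
      rw [Et_mul hd0 hp'.1.2 hp'.2]
      ring
    have h2 : ∑ p ∈ d.primeFactors, Real.log p * (W t * Et t (d / p)) =
        W t * ∑ p ∈ d.primeFactors, Real.log p * Et t (d / p) := by
      rw [Finset.mul_sum]
      exact Finset.sum_congr rfl fun p _ => by ring
    rw [h1, h2]
    ring
  have hF0 : F 0 = 0 := by
    rw [hF]
    simp only
    rw [Et_zero hd1 hd0.ne', mul_zero]
  have hFnn : ∀ t, 0 ≤ t → 0 ≤ F t := by
    intro t ht
    rw [hF]
    exact mul_nonneg (hWp t ht).le (Et_nonneg ht d)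
  have hL1 : 0 < 1 / L := by positivity
  have hLk : 1 / L ≤ 2 / κ := by
    rw [div_le_div_iff₀ hL hκ]
    linarith
  -- first piece
  have p1 := Sub_piece (a := 0) (b := 1 / L) (c := R + κ) hL1.le (F := F)
    (F' := fun t => -(κ + L) * W t * Et t d + W t * G t) (A := A) hFc
    (by
      refine Continuous.continuousOn ?_
      exact ((continuous_const.mul hWc).mul (Sub_Et_cont d)).add (hWc.mul hGc)) hAc
    (by
      intro t ht
      have h1 : HasDerivAt W (-(κ + L) * W t) t := by
        rw [hW]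
        exact Sub_der1 ht.2
      rw [hF]
      exact h1.mul (hEd t))
    (by
      intro t ht
      rw [hAeq]
      have h1 : (R - L) * F t ≤ (Real.log d +
          ∑ p ∈ UD Q w d, Real.log p / ((p : ℝ) - 1) * (1 - (p : ℝ) ^ (-t))) * F t := by
        rcases eq_or_lt_of_le ht.1 with h0 | h0
        · rw [← h0, hF0, mul_zero, mul_zero]
        · apply mul_le_mul_of_nonneg_right _ (hFnn t h0.le)
          have h2 := hdr t h0
          have h3 : min (1 / t) L ≤ L := min_le_right _ _
          linarith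
      have h4 : -(κ + L) * W t * Et t d = -(κ + L) * F t := by
        rw [hF]
        ring
      rw [h4]
      linarith)
  -- second piece
  have p2 := Sub_piece (a := 1 / L) (b := 2 / κ) (c := R + κ) hLk (F := F)
    (F' := fun t => -(κ + 1 / t) * W t * Et t d + W t * G t) (A := A) hFc
    (by
      have h1 : ContinuousOn (fun t : ℝ => -(κ + 1 / t)) (Set.Icc (1 / L) (2 / κ)) := by
        refine ContinuousOn.neg (ContinuousOn.add continuousOn_const ?_)
        refine ContinuousOn.div continuousOn_const continuousOn_id (fun t ht => ?_)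
        have : 0 < t := hL1.trans_le ht.1
        exact this.ne'
      exact ((h1.mul hWc.continuousOn).mul (Sub_Et_cont d).continuousOn).add
        (hWc.mul hGc).continuousOn) hAc
    (by
      intro t ht
      have h1 : HasDerivAt W (-(κ + 1 / t) * W t) t := by
        rw [hW]
        exact Sub_der2 hL ht.1
      rw [hF]
      exact h1.mul (hEd t))
    (by
      intro t ht
      have h0 : 0 < t := hL1.trans_le ht.1
      rw [hAeq]
      have h1 : (R - 1 / t) * F t ≤ (Real.log d +
          ∑ p ∈ UD Q w d, Real.log p / ((p : ℝ) - 1) * (1 - (p : ℝ) ^ (-t))) * F t := by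
        apply mul_le_mul_of_nonneg_right _ (hFnn t h0.le)
        have h2 := hdr t h0
        have h3 : min (1 / t) L ≤ 1 / t := min_le_left _ _
        linarith
      have h4 : -(κ + 1 / t) * W t * Et t d = -(κ + 1 / t) * F t := by
        rw [hF]
        ring
      rw [h4]
      linarith)
  have hsumA : (∫ t in (0 : ℝ)..(1 / L), A t) + ∫ t in (1 / L)..(2 / κ), A t =
      ∫ t in (0 : ℝ)..(2 / κ), A t :=
    intervalIntegral.integral_add_adjacent_intervals (hAc.intervalIntegrable _ _)
      (hAc.intervalIntegrable _ _)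
  have hsumF : (∫ t in (0 : ℝ)..(1 / L), F t) + ∫ t in (1 / L)..(2 / κ), F t =
      ∫ t in (0 : ℝ)..(2 / κ), F t :=
    intervalIntegral.integral_add_adjacent_intervals (hFc.intervalIntegrable _ _)
      (hFc.intervalIntegrable _ _)
  have hU : Uf L κ d = ∫ t in (0 : ℝ)..(2 / κ), F t := by
    unfold Uf
    rw [hF, hW]
  have hAop : Aop Q w (Uf L κ) d = ∫ t in (0 : ℝ)..(2 / κ), A t := by
    rw [hA]
    rw [intervalIntegral.integral_add]
    · rw [intervalIntegral.integral_finsetSum, intervalIntegral.integral_finsetSum]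
      · unfold Aop
        simp only [intervalIntegral.integral_const_mul]
        unfold Uf
        rw [hW]
      · intro p _
        exact (continuous_const.mul (hWc.mul (Sub_Et_cont _))).intervalIntegrable _ _
      · intro p _
        exact (continuous_const.mul (hWc.mul (Sub_Et_cont _))).intervalIntegrable _ _
    · refine Continuous.intervalIntegrable ?_ _ _
      exact continuous_finsetSum _ fun p _ => continuous_const.mul (hWc.mul (Sub_Et_cont _))
    · refine Continuous.intervalIntegrable ?_ _ _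
      exact continuous_finsetSum _ fun p _ => continuous_const.mul (hWc.mul (Sub_Et_cont _))
  have hend : 0 ≤ F (2 / κ) := hFnn _ (by positivity)
  rw [hU, hAop, ← hsumA, ← hsumF, mul_add]
  linarith

end

end Pool.Agent.H1.FV
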